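import Pool.Agent.H721R2.CSys

set_option autoImplicit false

namespace Pool.Agent.H721R2

namespace CSys

variable {Y : Type*} [MetricSpace Y] (T : CSys Y)

/-- The inverse chain system. -/
def symm : CSys Y where
  g := T.g.symm
  K := T.K
  δ := T.δ
  α := T.β
  β := T.α
  εs := T.εs
  ms := T.mu
  mu := T.ms
  one_le_K := T.one_le_K
  δ_pos := T.δ_pos
  α_pos := T.β_pos
  β_pos := T.α_pos
  α_le := T.β_le
  β_le := T.α_le
  hδ := T.hδ
  contrS := T.contrU
  contrU := T.contrS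
  lp := fun x y h => by
    obtain ⟨z, h1, h2⟩ := T.lp y x (by rwa [dist_comm])
    rw [dist_comm y x] at h1 h2
    exact ⟨z, h2.symm, h1.symm⟩
  subS := T.subU
  subU := T.subS

theorem e36 : 36 * (T.K * T.δ) + 2 * T.δ ≤ T.εs := by
  have := T.hδ
  linarith

theorem Kδ_pos : 0 < T.K * T.δ := mul_pos (by linarith [T.one_le_K]) T.δ_pos

theorem δ_le_Kδ : T.δ ≤ T.K * T.δ := by nlinarith [T.one_le_K, T.δ_pos]

theorem δ_le_εs : T.δ ≤ T.εs := by
  have := T.e36
  have := T.δ_pos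
  have := T.Kδ_pos
  linarith

/-- contraction, in relational form -/
theorem shrink {ε r : ℝ} {x y : Y} (hε : ε ≤ T.εs) (h : FRel T.g ε x y) (hr : dist x y ≤ r)
    (k : ℕ) : FRel T.g (T.α ^ k * r) (T.g^[k] x) (T.g^[k] y) := by
  intro j
  rw [← Function.iterate_add_apply, ← Function.iterate_add_apply]
  have h1 := T.contrS x y (h.mono hε) (j + k)
  have hα := T.α_pos
  have hα1 : T.α ≤ 1 := by linarith [T.α_le]
  have hr0 : 0 ≤ r := dist_nonneg.trans hr
  calc dist (T.g^[j + k] x) (T.g^[j + k] y) ≤ T.α ^ (j + k) * dist x y := h1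
    _ ≤ T.α ^ k * r := by
        apply mul_le_mul _ hr dist_nonneg (by positivity)
        exact pow_le_pow_of_le_one hα hα1 (by omega)

theorem shrink0 {ε r : ℝ} {x y : Y} (hε : ε ≤ T.εs) (h : FRel T.g ε x y) (hr : dist x y ≤ r) :
    FRel T.g r x y := by
  have := T.shrink hε h hr 0
  simpa using this

theorem shrinkU {ε r : ℝ} {x y : Y} (hε : ε ≤ T.εs) (h : FRel T.g.symm ε x y)
    (hr : dist x y ≤ r) (k : ℕ) :
    FRel T.g.symm (T.β ^ k * r) (T.g.symm^[k] x) (T.g.symm^[k] y) :=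
  T.symm.shrink hε h hr k

theorem shrinkU0 {ε r : ℝ} {x y : Y} (hε : ε ≤ T.εs) (h : FRel T.g.symm ε x y)
    (hr : dist x y ≤ r) : FRel T.g.symm r x y :=
  T.symm.shrink0 hε h hr

theorem expansive {ε : ℝ} {x y : Y} (hε : ε ≤ T.εs) (h1 : FRel T.g ε x y)
    (h2 : FRel T.g.symm ε x y) : x = y := by
  have hd : 0 ≤ dist x y := dist_nonneg
  have a1 := T.contrS x y (h1.mono hε) 1
  rw [pow_one] at a1
  have hU : FRel T.g.symm T.εs (T.g x) (T.g y) := by
    intro k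
    cases k with
    | zero => exact (h1 1).trans hε
    | succ k =>
      rw [Function.iterate_succ_apply, Function.iterate_succ_apply, Equiv.symm_apply_apply,
        Equiv.symm_apply_apply]
      exact (h2 k).trans hε
  have a2 := T.contrU _ _ hU 1
  rw [pow_one] at a2
  simp only [Function.iterate_one, Equiv.symm_apply_apply] at a1 a2
  have hα := T.α_pos
  have hβ := T.β_pos
  have b1 : T.α * dist x y ≤ 1 / 2 * dist x y := mul_le_mul_of_nonneg_right T.α_le hd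
  have b2 : T.β * dist (T.g x) (T.g y) ≤ 1 / 2 * dist (T.g x) (T.g y) :=
    mul_le_mul_of_nonneg_right T.β_le dist_nonneg
  have : dist x y ≤ 0 := by linarith
  exact dist_le_zero.mp this

theorem FRel_nonneg {f : Y → Y} {ε : ℝ} {x y : Y} (h : FRel f ε x y) : 0 ≤ ε :=
  dist_nonneg.trans (h 0)

theorem top_close (n N : ℕ) (hN : 2 * (N : ℝ) * T.α ^ n ≤ 1) (p : ℕ → Y)
    (hp : ∀ i < N, FRel T.g (2 * T.δ) (p i) (p (i + 1))) :
    FRel T.g T.δ (T.g^[n] (p 0)) (T.g^[n] (p N)) := by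
  intro k
  rw [← Function.iterate_add_apply, ← Function.iterate_add_apply]
  have hα0 := T.α_pos
  have hα1 : T.α ≤ 1 := by linarith [T.α_le]
  have hδ0 := T.δ_pos
  have hε := T.e36
  have hKδ := T.Kδ_pos
  have key : ∀ i ≤ N, dist (T.g^[k + n] (p 0)) (T.g^[k + n] (p i)) ≤ i * (T.α ^ n * (2 * T.δ)) := by
    intro i
    induction i with
    | zero => intro _; simp
    | succ i ih =>
      intro hi
      have h1 := ih (by omega)
      have h2 : FRel T.g T.εs (p i) (p (i + 1)) := (hp i (by omega)).mono (by linarith)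
      have h3 := T.contrS _ _ h2 (k + n)
      have h4 : dist (p i) (p (i + 1)) ≤ 2 * T.δ := (hp i (by omega)).dist_le
      have h5 : T.α ^ (k + n) * dist (p i) (p (i + 1)) ≤ T.α ^ n * (2 * T.δ) :=
        mul_le_mul (pow_le_pow_of_le_one hα0 hα1 (by omega)) h4 dist_nonneg (by positivity)
      have h6 := dist_triangle (T.g^[k + n] (p 0)) (T.g^[k + n] (p i)) (T.g^[k + n] (p (i + 1)))
      push_cast
      linarith
  refine (key N le_rfl).trans ?_
  have h3 : (N : ℝ) * (T.α ^ n * (2 * T.δ)) = (2 * N * T.α ^ n) * T.δ := by ring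
  rw [h3]
  have h4 : (2 * N * T.α ^ n) * T.δ ≤ 1 * T.δ := mul_le_mul_of_nonneg_right hN hδ0.le
  linarith

/-- The full ladder. -/
theorem ladder (n N J : ℕ) (hN : 2 * (N : ℝ) * T.α ^ n ≤ 1)
    (hJ : 36 * T.K * T.β ^ n * (J : ℝ) ≤ 1) (c y : ℕ → Y)
    (hc : ∀ i < N, FRel T.g T.δ (c i) (c (i + 1))) (hy0 : y 0 = T.g^[n] (c 0))
    (hy : ∀ l < J, FRel T.g.symm T.δ (y l) (y (l + 1))) :
    ∀ l ≤ J, ∃ c' y' : ℕ → Y, T.g^[n] (c' 0) = y l ∧ y' 0 = T.g^[n] (c N) ∧
      y' l = T.g^[n] (c' N) ∧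
      (∀ i < N, FRel T.g (T.δ + l * (36 * T.K * T.β ^ n * T.δ)) (c' i) (c' (i + 1))) ∧
      (∀ i ≤ N, FRel T.g.symm (l * (18 * T.K * T.β ^ n * T.δ)) (c i) (c' i)) ∧
      (∀ j < l, FRel T.g.symm (18 * (T.K * T.δ)) (y' j) (y' (j + 1))) ∧
      (∀ j ≤ l, FRel T.g T.δ (y j) (y' j)) := by
  have hK := T.one_le_K
  have hK0 : 0 < T.K := by linarith
  have hδ0 := T.δ_pos
  have hβ0 := T.β_pos
  have hε := T.e36
  have hKδ := T.Kδ_pos
  have hq0 : 0 ≤ 36 * T.K * T.β ^ n * T.δ := by positivity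
  have hbound : ∀ l : ℕ, l ≤ J → T.δ + (l : ℝ) * (36 * T.K * T.β ^ n * T.δ) ≤ 2 * T.δ := by
    intro l hl
    have e1 : (l : ℝ) ≤ J := by exact_mod_cast hl
    have e2 := mul_le_mul_of_nonneg_right e1 hq0
    have e3 := mul_le_mul_of_nonneg_right hJ hδ0.le
    linarith
  intro l
  induction l with
  | zero =>
    intro _
    refine ⟨c, fun _ => T.g^[n] (c N), hy0.symm, rfl, rfl, ?_, ?_, ?_, ?_⟩
    · simpa using hc
    · intro i _
      simp only [Nat.cast_zero, zero_mul]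
      exact FRel.refl le_rfl _
    · intro j hj; omega
    · intro j hj
      have : j = 0 := by omega
      subst this
      rw [hy0]
      exact T.top_close n N hN c (fun i hi => (hc i hi).mono (by linarith))
  | succ l ih =>
    intro hl
    obtain ⟨c', y', h1, h2, h3, h4, h5, h6, h7⟩ := ih (by omega)
    have hb := hbound l (by omega)
    have hb' := hbound (l + 1) hl
    have hB : FRel T.g.symm T.δ (T.g^[n] (c' 0)) (y (l + 1)) := by
      rw [h1]; exact hy l (by omega)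
    obtain ⟨c'', k1, k2, k3⟩ := T.push n N hN _ hb (by positivity) c' h4 _ hB
    have hlinks : ∀ i < N, FRel T.g (T.δ + ((l + 1 : ℕ) : ℝ) * (36 * T.K * T.β ^ n * T.δ))
        (c'' i) (c'' (i + 1)) := by
      intro i hi
      refine (k2 i hi).mono (le_of_eq ?_)
      push_cast
      ring
    refine ⟨c'', fun j => if j ≤ l then y' j else T.g^[n] (c'' N), k1, ?_, ?_, hlinks, ?_, ?_, ?_⟩
    · simp [h2]
    · simp
    · intro i hi
      have hU := k3 i hi
      have hU' : FRel T.g.symm (T.β ^ n * (18 * (T.K * T.δ))) (c' i) (c'' i) := by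
        have := T.shrinkU (ε := 18 * (T.K * T.δ)) (by linarith) hU hU.dist_le n
        rwa [eq_symm_iter_iter, eq_symm_iter_iter] at this
      refine ((h5 i hi).trans hU').mono (le_of_eq ?_)
      push_cast
      ring
    · intro j hj
      by_cases hj' : j + 1 ≤ l
      · have : j ≤ l := by omega
        simp only [this, hj', if_true]
        exact h6 j (by omega)
      · have hjl : j = l := by omega
        subst hjl
        simp only [le_refl, if_true, hj', if_false]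
        rw [h3]
        exact k3 N le_rfl
    · intro j hj
      by_cases hj' : j ≤ l
      · simp only [hj', if_true]
        exact h7 j hj'
      · have hjl : j = l + 1 := by omega
        subst hjl
        simp only [hj', if_false]
        rw [← k1]
        exact T.top_close n N hN c'' (fun i hi => (hlinks i hi).mono hb')

/-- `q` is a lift of the unstable chain `y`. -/
structure TopLift (J : ℕ) (y q : ℕ → Y) : Prop where
  link : ∀ j < J, FRel T.g.symm (18 * (T.K * T.δ)) (q j) (q (j + 1))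
  near : ∀ j ≤ J, FRel T.g (18 * (T.K * T.δ)) (y j) (q j)

/-- `q` is a lift of the stable chain `c`. -/
structure BotLift (N : ℕ) (c q : ℕ → Y) : Prop where
  link : ∀ j < N, FRel T.g (18 * (T.K * T.δ)) (q j) (q (j + 1))
  near : ∀ j ≤ N, FRel T.g.symm (18 * (T.K * T.δ)) (c j) (q j)

theorem TopLift.unique {J : ℕ} {y q q' : ℕ → Y} (h : T.TopLift J y q) (h' : T.TopLift J y q')
    (h0 : q 0 = q' 0) : ∀ j ≤ J, q j = q' j := by
  have hε := T.e36
  have hδ0 := T.δ_pos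
  intro j
  induction j with
  | zero => intro _; exact h0
  | succ j ih =>
    intro hj
    have h1 := ih (by omega)
    have h2 : FRel T.g.symm (36 * (T.K * T.δ)) (q (j + 1)) (q' (j + 1)) := by
      have a1 := (h.link j (by omega)).symm
      have a2 := h'.link j (by omega)
      rw [← h1] at a2
      exact (a1.trans a2).mono (by linarith)
    have h3 : FRel T.g (36 * (T.K * T.δ)) (q (j + 1)) (q' (j + 1)) :=
      ((h.near (j + 1) hj).symm.trans (h'.near (j + 1) hj)).mono (by linarith)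
    exact T.expansive (by linarith) h3 h2

theorem BotLift.unique {N : ℕ} {c q q' : ℕ → Y} (h : T.BotLift N c q) (h' : T.BotLift N c q')
    (h0 : q 0 = q' 0) : ∀ j ≤ N, q j = q' j :=
  TopLift.unique T.symm (J := N) (y := c) ⟨h.link, h.near⟩ ⟨h'.link, h'.near⟩ h0

/-- Valid chain lengths at total time `n`. -/
def Valid (n N J : ℕ) : Prop :=
  36 * T.K * T.α ^ n * (N : ℝ) ≤ 1 ∧ 36 * T.K * T.β ^ n * (J : ℝ) ≤ 1

/-- A stable chain. -/
def SChain (N : ℕ) (c : ℕ → Y) : Prop := ∀ i < N, FRel T.g T.δ (c i) (c (i + 1))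

/-- An unstable chain. -/
def UChain (J : ℕ) (y : ℕ → Y) : Prop := ∀ i < J, FRel T.g.symm T.δ (y i) (y (i + 1))

/-- Completing a ladder. -/
theorem exists_lifts (n N J : ℕ) (hv : T.Valid n N J) (c y : ℕ → Y) (hc : T.SChain N c)
    (hy : T.UChain J y) (hy0 : y 0 = T.g^[n] (c 0)) :
    ∃ c' y' : ℕ → Y, T.g^[n] (c' 0) = y J ∧ y' 0 = T.g^[n] (c N) ∧ y' J = T.g^[n] (c' N) ∧
      T.BotLift N c c' ∧ T.TopLift J y y' ∧ (∀ i < N, FRel T.g (2 * T.δ) (c' i) (c' (i + 1))) := by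
  have hK := T.one_le_K
  have hδ0 := T.δ_pos
  have hα0 := T.α_pos
  have hKδ := T.Kδ_pos
  have hδK := T.δ_le_Kδ
  obtain ⟨hv1, hv2⟩ := hv
  have hN : 2 * (N : ℝ) * T.α ^ n ≤ 1 := by
    have h1 : 0 ≤ T.α ^ n * (N : ℝ) := by positivity
    nlinarith
  obtain ⟨c', y', h1, h2, h3, h4, h5, h6, h7⟩ := T.ladder n N J hN hv2 c y hc hy0 hy J le_rfl
  have hl : T.δ + (J : ℝ) * (36 * T.K * T.β ^ n * T.δ) ≤ 2 * T.δ := by
    have e3 := mul_le_mul_of_nonneg_right hv2 hδ0.le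
    linarith
  refine ⟨c', y', h1, h2, h3, ⟨fun j hj => (h4 j hj).mono (by linarith),
    fun j hj => (h5 j hj).mono ?_⟩, ⟨h6, fun j hj => (h7 j hj).mono (by linarith)⟩,
    fun i hi => (h4 i hi).mono hl⟩
  have e3 := mul_le_mul_of_nonneg_right hv2 hδ0.le
  linarith

/-- The square relation at total time `n`. -/
def Sq (n : ℕ) (a s u x : Y) : Prop :=
  ∃ (N J : ℕ) (c y c' y' : ℕ → Y), T.Valid n N J ∧ T.SChain N c ∧ T.UChain J y ∧
    c 0 = a ∧ c N = s ∧ y 0 = T.g^[n] a ∧ y J = T.g^[n] u ∧ c' 0 = u ∧ c' N = x ∧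
    y' 0 = T.g^[n] s ∧ y' J = T.g^[n] x ∧ T.BotLift N c c' ∧ T.TopLift J y y'

theorem exists_Sq (n N J : ℕ) (hv : T.Valid n N J) (a s u : Y) (c y : ℕ → Y)
    (hc : T.SChain N c) (hy : T.UChain J y) (hc0 : c 0 = a) (hcN : c N = s)
    (hy0 : y 0 = T.g^[n] a) (hyJ : y J = T.g^[n] u) :
    ∃ x, T.Sq n a s u x ∧ ∃ c' y' : ℕ → Y, c' 0 = u ∧ c' N = x ∧
      y' 0 = T.g^[n] s ∧ y' J = T.g^[n] x ∧ T.BotLift N c c' ∧ T.TopLift J y y' ∧
      (∀ i < N, FRel T.g (2 * T.δ) (c' i) (c' (i + 1))) := by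
  obtain ⟨c', y', h1, h2, h3, h4, h5, h6⟩ := T.exists_lifts n N J hv c y hc hy (by rw [hy0, hc0])
  have hu : c' 0 = u := by
    rw [hyJ] at h1
    exact T.g.injective.iterate n h1
  rw [hcN] at h2
  exact ⟨c' N, ⟨N, J, c, y, c', y', hv, hc, hy, hc0, hcN, hy0, hyJ, hu, rfl, h2, h3, h4, h5⟩,
    c', y', hu, rfl, h2, h3, h4, h5, h6⟩

/-- Every lift of every valid unstable chain ends at the fourth corner. -/
theorem Sq.top {n : ℕ} {a s u x : Y} (h : T.Sq n a s u x) (J : ℕ) (y q : ℕ → Y)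
    (hv : 36 * T.K * T.β ^ n * (J : ℝ) ≤ 1) (hy : T.UChain J y) (hy0 : y 0 = T.g^[n] a)
    (hyJ : y J = T.g^[n] u) (hq : T.TopLift J y q) (hq0 : q 0 = T.g^[n] s) :
    q J = T.g^[n] x := by
  obtain ⟨N, J₁, c, y₁, c₁, q₁, hv₁, hc, hy₁, hc0, hcN, hy₁0, hy₁J, hc₁0, hc₁N, hq₁0, hq₁J,
    hbot, htop⟩ := h
  obtain ⟨x₂, -, c₂, q₂, h1, h2, h3, h4, h5, h6, -⟩ :=
    T.exists_Sq n N J ⟨hv₁.1, hv⟩ a s u c y hc hy hc0 hcN hy0 hyJ
  have e1 : x₂ = x := by
    rw [← h2, ← hc₁N]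
    exact BotLift.unique T h5 hbot (by rw [h1, hc₁0]) N le_rfl
  rw [TopLift.unique T hq h6 (by rw [hq0, h3]) J le_rfl, h4, e1]

/-- Symmetry under time reversal. -/
theorem Sq_symm {n : ℕ} {a s u x : Y} (h : T.Sq n a s u x) :
    T.symm.Sq n (T.g^[n] a) (T.g^[n] u) (T.g^[n] s) (T.g^[n] x) := by
  obtain ⟨N, J, c, y, c', q, hv, hc, hy, hc0, hcN, hy0, hyJ, hc'0, hc'N, hq0, hqJ,
    hbot, htop⟩ := h
  have e : ∀ z : Y, T.symm.g^[n] (T.g^[n] z) = z := fun z => eq_symm_iter_iter T.g n z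
  refine ⟨J, N, y, c, q, c', ⟨hv.2, hv.1⟩, hy, hc, hy0, hyJ, ?_, ?_, hq0, hqJ, ?_, ?_,
    ⟨htop.link, htop.near⟩, ⟨hbot.link, hbot.near⟩⟩
  · rw [e, hc0]
  · rw [e, hcN]
  · rw [e, hc'0]
  · rw [e, hc'N]

theorem Sq_of_symm {n : ℕ} {a s u x : Y}
    (h : T.symm.Sq n (T.g^[n] a) (T.g^[n] u) (T.g^[n] s) (T.g^[n] x)) : T.Sq n a s u x := by
  have h1 := T.symm.Sq_symm h
  have e : ∀ z : Y, T.symm.g^[n] (T.g^[n] z) = z := fun z => eq_symm_iter_iter T.g n z
  rw [e, e, e, e] at h1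
  exact h1

/-- Every lift of every valid stable chain ends at the fourth corner. -/
theorem Sq.bot {n : ℕ} {a s u x : Y} (h : T.Sq n a s u x) (N : ℕ) (c q : ℕ → Y)
    (hv : 36 * T.K * T.α ^ n * (N : ℝ) ≤ 1) (hc : T.SChain N c) (hc0 : c 0 = a)
    (hcN : c N = s) (hq : T.BotLift N c q) (hq0 : q 0 = u) :
    q N = x := by
  have e : ∀ z : Y, T.symm.g^[n] (T.g^[n] z) = z := fun z => eq_symm_iter_iter T.g n z
  have h1 := Sq.top T.symm (T.Sq_symm h) N c q hv hc (by rw [e, hc0]) (by rw [e, hcN])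
    ⟨hq.link, hq.near⟩ (by rw [e, hq0])
  rw [e] at h1
  exact h1

/-- Same bottom time, different top times. -/
theorem Sq.eq_bot {n n' : ℕ} (hn : n ≤ n') {a s u x x' : Y} (h : T.Sq n a s u x)
    (h' : T.Sq n' a s u x') : x = x' := by
  obtain ⟨N, J, c, y, c', q, hv, hc, hy, hc0, hcN, hy0, hyJ, hc'0, hc'N, hq0, hqJ,
    hbot, htop⟩ := h
  have hα0 := T.α_pos
  have hα1 : T.α ≤ 1 := by linarith [T.α_le]
  have hK := T.one_le_K
  rw [← hc'N]
  apply Sq.bot T h' N c c' _ hc hc0 hcN hbot hc'0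
  refine le_trans ?_ hv.1
  apply mul_le_mul_of_nonneg_right _ (by positivity)
  apply mul_le_mul_of_nonneg_left _ (by linarith)
  exact pow_le_pow_of_le_one hα0 hα1 hn

theorem Sq.unique {n : ℕ} {a s u x x' : Y} (h : T.Sq n a s u x)
    (h' : T.Sq n a s u x') : x = x' := Sq.eq_bot T le_rfl h h'

/-- Same top time, different bottom times. -/
theorem Sq.eq_top {n j : ℕ} {a s u x x' : Y} (h : T.Sq n a s u x)
    (h' : T.Sq (n + j) (T.g.symm^[j] a) (T.g.symm^[j] s) (T.g.symm^[j] u) x') :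
    x' = T.g.symm^[j] x := by
  have h1 := T.Sq_symm h
  have h2 := T.Sq_symm h'
  have e : ∀ z : Y, T.g^[n + j] (T.g.symm^[j] z) = T.g^[n] z := fun z => by
    rw [iter_symm_iter_of_le T.g (n + j) j (by omega), Nat.add_sub_cancel]
  rw [e, e, e] at h2
  have h3 := Sq.eq_bot T.symm (by omega : n ≤ n + j) h1 h2
  apply T.g.injective.iterate (n + j)
  rw [← h3, e]

end CSys

end Pool.Agent.H721R2
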