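import Pool.Agent.H721R2.Box
import Pool.Agent.H721R2.Lad

set_option autoImplicit false

open Filter Topology

namespace Pool.Agent.H721R2

namespace HypSys

variable {X E : Type*} [MetricSpace X] [NormedAddCommGroup E] [NormedSpace ℝ E]

/-- Existence of periodic points. -/
theorem exists_periodic [CompactSpace X] [Nonempty X] (S : HypSys X E) :
    ∃ q : ℕ, 1 ≤ q ∧ ∃ p : X, S.g^[q] p = p := by
  have hK := S.one_le_K
  have hK0 : 0 < S.K := by linarith
  obtain ⟨T, hTg, -⟩ := S.exists_csys (1 / 2) (1 / 2) (by have := S.a_le; linarith)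
    (by have := S.b_le; linarith) le_rfl le_rfl ⌈4 * S.Ls⌉₊ ⌈4 * S.Lu⌉₊ (Nat.le_ceil _)
    (Nat.le_ceil _) 1 one_pos
  have hεs : 0 < T.εs := by
    have := T.δ_le_εs
    have := T.δ_pos
    linarith
  obtain ⟨ε₀, hε₀, hsh⟩ := S.shadowing
  set ε := min ε₀ (T.εs / (16 * S.K)) with hε
  have hε0 : 0 < ε := by positivity
  have hε1 : ε ≤ ε₀ := min_le_left _ _
  have hε2 : 16 * S.K * ε ≤ T.εs := by
    have : ε ≤ T.εs / (16 * S.K) := min_le_right _ _
    rw [le_div_iff₀ (by positivity)] at this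
    linarith
  obtain ⟨x⟩ := ‹Nonempty X›
  obtain ⟨a, φ, hφ, hlim⟩ := CompactSpace.tendsto_subseq (fun n => S.g^[n] x)
  obtain ⟨N, hN⟩ := Metric.cauchySeq_iff.mp hlim.cauchySeq ε hε0
  have hd := hN N le_rfl (N + 1) (by omega)
  have hlt : φ N < φ (N + 1) := hφ (Nat.lt_succ_self N)
  set q := φ (N + 1) - φ N with hq
  have hq1 : 1 ≤ q := by omega
  set y := S.g^[φ N] x with hy
  have hyq : dist y (S.g^[q] y) ≤ ε := by
    rw [hy, ← Function.iterate_add_apply]
    have : q + φ N = φ (N + 1) := by omega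
    rw [this]
    exact le_of_lt hd
  refine ⟨q, hq1, ?_⟩
  have hq0 : (0 : ℤ) < q := by exact_mod_cast hq1
  let z : ℤ → X := fun n => S.g^[(n % q).toNat] y
  have hz : ∀ n, dist (S.g (z n)) (z (n + 1)) ≤ ε := by
    intro n
    have h0 : 0 ≤ n % q := Int.emod_nonneg n hq0.ne'
    have h1 : n % q < q := Int.emod_lt_of_pos n hq0
    show dist (S.g (S.g^[(n % q).toNat] y)) (S.g^[((n + 1) % q).toNat] y) ≤ ε
    rw [← Function.iterate_succ_apply' S.g]
    by_cases h2 : n % q + 1 < q
    · have h3 : (n + 1) % q = n % q + 1 := by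
        rw [Int.add_emod]
        have h5 : (1 : ℤ) % q = 1 := Int.emod_eq_of_lt (by norm_num) (by omega)
        rw [h5]
        exact Int.emod_eq_of_lt (by omega) h2
      rw [h3]
      have h4 : (n % q + 1).toNat = (n % q).toNat + 1 := by omega
      rw [h4, dist_self]
      exact hε0.le
    · have h3 : n % q = q - 1 := by omega
      have h4 : (n + 1) % q = 0 := by
        have : n + 1 = q * (n / q) + q := by
          have := Int.mul_ediv_add_emod n q
          omega
        rw [this]
        simp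
      rw [h4, h3]
      have h5 : ((q : ℤ) - 1).toNat.succ = q := by omega
      rw [h5]
      simp only [Int.toNat_zero, Function.iterate_zero, id_eq]
      rw [dist_comm]
      exact hyq
  obtain ⟨w, hw1, hw2⟩ := hsh ε hε1 z hz
  have hzq : ∀ n, z (n + q) = z n := by
    intro n
    show S.g^[((n + q) % q).toNat] y = S.g^[(n % q).toNat] y
    rw [Int.add_emod_right]
  have hww : ∀ n, dist (w n) (w (n + q)) ≤ 16 * S.K * ε := by
    intro n
    have h1 := hw2 n
    have h2 := hw2 (n + q)
    rw [hzq] at h2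
    have h3 := dist_triangle (w n) (z n) (w (n + q))
    rw [dist_comm (z n)] at h3
    linarith
  have hw' : ∀ n, w (n + 1 + q) = S.g (w (n + q)) := by
    intro n
    have := hw1 (n + q)
    rw [← this]
    congr 1
    ring
  have e1 : ∀ k : ℕ, S.g^[k] (w 0) = w k := fun k => (S.orbit_nat w hw1 k).symm
  have e2 : ∀ k : ℕ, S.g^[k] (w q) = w (k + q) := fun k => by
    have := S.orbit_nat (fun n => w (n + q)) hw' k
    simp only [zero_add] at this
    exact this.symm
  have e3 : ∀ k : ℕ, S.g.symm^[k] (w 0) = w (-k) := fun k => (S.orbit_neg w hw1 k).symm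
  have e4 : ∀ k : ℕ, S.g.symm^[k] (w q) = w (-k + q) := fun k => by
    have := S.orbit_neg (fun n => w (n + q)) hw' k
    simp only [zero_add] at this
    exact this.symm
  have hS : FRel T.g (16 * S.K * ε) (w 0) (w q) := by
    intro k
    rw [hTg]
    show dist (S.g^[k] (w 0)) (S.g^[k] (w q)) ≤ _
    rw [e1, e2]
    exact hww k
  have hU : FRel T.g.symm (16 * S.K * ε) (w 0) (w q) := by
    intro k
    rw [hTg]
    show dist (S.g.symm^[k] (w 0)) (S.g.symm^[k] (w q)) ≤ _
    rw [e3, e4]
    exact hww (-k)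
  have heq := T.expansive hε2 hS hU
  refine ⟨w 0, ?_⟩
  rw [e1 q]
  exact heq.symm

end HypSys

end Pool.Agent.H721R2
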