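import Mathlib

set_option autoImplicit false

open Set Filter Topology Metric

namespace Pool.Agent.H721R2

/-- A map with uniform sheets is a covering map. -/
theorem isCoveringMap_of_sheets {Z X : Type*} [TopologicalSpace Z] [PseudoMetricSpace X]
    (π : Z → X) (N N' : Z → Z → Prop) (η : ℝ) (hη : 0 < η)
    (c0 : ∀ z z', N z z' → N' z z')
    (c1 : ∀ z y, dist (π z) y < η → ∃ z', π z' = y ∧ N z z')
    (c2 : ∀ z z' z'', N' z z' → N' z z'' → π z' = π z'' → z' = z'')
    (c3 : ∀ z z' z'', N z z' → N z' z'' → N' z z'')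
    (c3' : ∀ z z', N z z' → N' z' z)
    (c4 : ∀ z, 𝓝 z = comap π (𝓝 (π z)) ⊓ 𝓟 {z' | N z z'}) : IsCoveringMap π := by
  have hcont : Continuous π := by
    rw [continuous_iff_continuousAt]
    intro z
    have : 𝓝 z ≤ comap π (𝓝 (π z)) := by rw [c4 z]; exact inf_le_left
    exact tendsto_iff_comap.mpr this
  have hNmem : ∀ z, {z' | N z z'} ∈ 𝓝 z := fun z => by
    rw [c4 z]
    exact mem_inf_of_right (mem_principal_self _)
  have hNrefl : ∀ z, N z z := fun z => mem_of_mem_nhds (hNmem z)
  have hex : ∀ z y, ∃ z', dist (π z) y < η → π z' = y ∧ N z z' := by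
    intro z y
    by_cases h : dist (π z) y < η
    · obtain ⟨z', hz'⟩ := c1 z y h
      exact ⟨z', fun _ => hz'⟩
    · exact ⟨z, fun h' => absurd h' h⟩
  choose L hL using hex
  intro x
  have hdisc : DiscreteTopology (π ⁻¹' {x}) := by
    rw [discreteTopology_subtype_iff']
    intro z hz
    obtain ⟨U, hU1, hU2, hU3⟩ := _root_.mem_nhds_iff.mp (hNmem z)
    refine ⟨U, hU2, ?_⟩
    apply Subset.antisymm
    · rintro z' ⟨h1, h2⟩
      have h3 : π z' = π z := by
        have e1 : π z' = x := h2
        have e2 : π z = x := hz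
        rw [e1, e2]
      exact c2 z z' z (c0 _ _ (hU1 h1)) (c0 _ _ (hNrefl z)) h3
    · rintro _ rfl
      exact ⟨hU3, hz⟩
  refine ⟨hdisc, ball x η, mem_ball_self hη, isOpen_ball, isOpen_ball.preimage hcont, ?_⟩
  have hd : ∀ z ∈ π ⁻¹' ball x η, dist (π z) x < η := fun z hz => hz
  have hd' : ∀ z ∈ π ⁻¹' {x}, ∀ y ∈ ball x η, dist (π z) y < η := fun z hz y hy => by
    have e1 : π z = x := hz
    rw [e1, dist_comm]; exact hy
  let H : π ⁻¹' ball x η ≃ₜ ball x η × π ⁻¹' {x} :=
    { toFun := fun z => (⟨π z.1, z.2⟩, ⟨L z.1 x, (hL z.1 x (hd _ z.2)).1⟩)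
      invFun := fun w => ⟨L w.2.1 w.1.1, by
        have := (hL w.2.1 w.1.1 (hd' _ w.2.2 _ w.1.2)).1
        show π _ ∈ ball x η
        rw [this]
        exact w.1.2⟩
      left_inv := by
        rintro ⟨z, hz⟩
        apply Subtype.ext
        obtain ⟨h1, h2⟩ := hL z x (hd _ hz)
        have h3 := hL (L z x) (π z) (by rw [h1, dist_comm]; exact hd _ hz)
        exact c2 (L z x) _ _ (c0 _ _ h3.2) (c3' _ _ h2) h3.1
      right_inv := by
        rintro ⟨⟨y, hy⟩, ⟨z, hz⟩⟩
        have h1 := hL z y (hd' _ hz _ hy)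
        have h2 : dist (π (L z y)) x < η := by rw [h1.1]; exact hy
        have h3 := hL (L z y) x h2
        have e1 : π z = x := hz
        apply Prod.ext
        · exact Subtype.ext h1.1
        · apply Subtype.ext
          exact c2 (L z y) _ _ (c0 _ _ h3.2) (c3' _ _ h1.2) (by rw [h3.1, e1])
      continuous_toFun := by
        rw [continuous_prodMk]
        constructor
        · exact (hcont.comp continuous_subtype_val).subtype_mk _
        · rw [continuous_iff_continuousAt]
          rintro ⟨z, hz⟩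
          apply tendsto_const_nhds.congr'
          have h1 : ∀ᶠ b : π ⁻¹' ball x η in 𝓝 ⟨z, hz⟩, N z b.1 :=
            continuous_subtype_val.continuousAt.eventually (hNmem z)
          filter_upwards [h1] with b hb
          apply Subtype.ext
          have h2 := hL z x (hd _ hz)
          have h3 := hL b.1 x (hd _ b.2)
          exact c2 z _ _ (c0 _ _ h2.2) (c3 _ _ _ hb h3.2) (by rw [h2.1, h3.1])
      continuous_invFun := by
        rw [continuous_iff_continuousAt]
        rintro ⟨⟨y, hy⟩, ⟨z, hz⟩⟩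
        apply tendsto_subtype_rng.mpr
        show Tendsto (fun w : ball x η × π ⁻¹' {x} => L w.2.1 w.1.1) (𝓝 (⟨y, hy⟩, ⟨z, hz⟩))
          (𝓝 (L z y))
        have h1 := hL z y (hd' _ hz _ hy)
        rw [c4 (L z y), tendsto_inf]
        constructor
        · rw [tendsto_comap_iff]
          have h2 : (π ∘ fun w : ball x η × π ⁻¹' {x} => L w.2.1 w.1.1) =
              fun w : ball x η × π ⁻¹' {x} => w.1.1 := by
            funext w
            exact (hL w.2.1 w.1.1 (hd' _ w.2.2 _ w.1.2)).1
          rw [h2, h1.1]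
          exact (continuous_subtype_val.comp continuous_fst).continuousAt
        · rw [tendsto_principal]
          have h2 : ∀ᶠ w : ball x η × π ⁻¹' {x} in 𝓝 (⟨y, hy⟩, ⟨z, hz⟩), w.2 = ⟨z, hz⟩ := by
            have : ∀ᶠ v : π ⁻¹' {x} in 𝓝 ⟨z, hz⟩, v = ⟨z, hz⟩ := by
              rw [nhds_discrete]
              exact mem_pure.mpr rfl
            have h9 : ContinuousAt (fun w : ball x η × π ⁻¹' {x} => w.2) (⟨y, hy⟩, ⟨z, hz⟩) :=
              continuous_snd.continuousAt
            exact h9.eventually this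
          have h3 : ∀ᶠ w : ball x η × π ⁻¹' {x} in 𝓝 (⟨y, hy⟩, ⟨z, hz⟩),
              dist (π (L z y)) w.1.1 < η := by
            have h4 : Continuous (fun w : ball x η × π ⁻¹' {x} => dist (π (L z y)) w.1.1) := by
              fun_prop
            have h5 : dist (π (L z y)) y < η := by rw [h1.1, dist_self]; exact hη
            exact h4.continuousAt.eventually (gt_mem_nhds h5)
          filter_upwards [h2, h3] with w hw1 hw2
          have h4 := hL (L z y) w.1.1 hw2
          have h5 := hL z w.1.1 (hd' _ hz _ w.1.2)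
          have h6 : L (L z y) w.1.1 = L z w.1.1 :=
            c2 z _ _ (c3 _ _ _ h1.2 h4.2) (c0 _ _ h5.2) (by rw [h4.1, h5.1])
          have h7 : w.2.1 = z := congrArg Subtype.val hw1
          show N (L z y) (L w.2.1 w.1.1)
          rw [h7, ← h6]
          exact h4.2 }
  exact ⟨H, fun _ => rfl⟩

end Pool.Agent.H721R2
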