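import Mathlib

set_option autoImplicit false

open Set Filter Topology Metric

namespace Pool.Agent.H721R2

/-- piecewise linear map: identity up to `r`, `[r,a] → [r,b]`, `[a,c] → [b,c]`, identity
beyond `c`. -/
noncomputable def pl (r a b c t : ℝ) : ℝ :=
  if t ≤ r then t else if t ≤ a then r + (b - r) / (a - r) * (t - r)
  else if t ≤ c then b + (c - b) / (c - a) * (t - a) else t

theorem pl_cont {r a b c : ℝ} (h1 : r < a) (h2 : a < c) : Continuous (pl r a b c) := by
  unfold pl
  have e1 : 0 < a - r := by linarith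
  have e2 : 0 < c - a := by linarith
  apply Continuous.if_le continuous_id _ continuous_id continuous_const
  · intro x hx
    simp only [id] at hx
    subst hx
    rw [if_pos h1.le]
    simp
  · apply Continuous.if_le (by fun_prop) _ continuous_id continuous_const
    · intro x hx
      simp only [id] at hx
      subst hx
      rw [if_pos h2.le]
      field_simp
      ring
    · apply Continuous.if_le (by fun_prop) continuous_id continuous_id continuous_const
      intro x hx
      simp only [id] at hx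
      subst hx
      simp only [id]
      field_simp
      ring

theorem pl_inv {r a b c : ℝ} (h1 : r < a) (h2 : a < c) (h3 : r < b) (h4 : b < c) (t : ℝ) :
    pl r b a c (pl r a b c t) = t := by
  have e1 : 0 < a - r := by linarith
  have e2 : 0 < c - a := by linarith
  have e3 : 0 < b - r := by linarith
  have e4 : 0 < c - b := by linarith
  by_cases c1 : t ≤ r
  · simp [pl, c1]
  push Not at c1
  by_cases c2 : t ≤ a
  · have hv : pl r a b c t = r + (b - r) / (a - r) * (t - r) := by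
      simp [pl, c1.not_ge, c2]
    have l1 : r < r + (b - r) / (a - r) * (t - r) := by
      have : 0 < (b - r) / (a - r) * (t - r) := by
        apply mul_pos (by positivity); linarith
      linarith
    have l2 : r + (b - r) / (a - r) * (t - r) ≤ b := by
      have : (b - r) / (a - r) * (t - r) ≤ (b - r) / (a - r) * (a - r) :=
        mul_le_mul_of_nonneg_left (by linarith) (by positivity)
      rw [div_mul_cancel₀ _ e1.ne'] at this
      linarith
    rw [hv]
    simp only [pl, l1.not_ge, l2, if_false, if_true]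
    field_simp
    ring
  push Not at c2
  by_cases c3 : t ≤ c
  · have hv : pl r a b c t = b + (c - b) / (c - a) * (t - a) := by
      simp [pl, c1.not_ge, c2.not_ge, c3]
    have l1 : b < b + (c - b) / (c - a) * (t - a) := by
      have : 0 < (c - b) / (c - a) * (t - a) := by
        apply mul_pos (by positivity); linarith
      linarith
    have l2 : b + (c - b) / (c - a) * (t - a) ≤ c := by
      have : (c - b) / (c - a) * (t - a) ≤ (c - b) / (c - a) * (c - a) :=
        mul_le_mul_of_nonneg_left (by linarith) (by positivity)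
      rw [div_mul_cancel₀ _ e2.ne'] at this
      linarith
    have l3 : ¬ (b + (c - b) / (c - a) * (t - a) ≤ r) := by linarith
    rw [hv]
    simp only [pl, l1.not_ge, l2, l3, if_false, if_true]
    field_simp
    ring
  · push Not at c3
    have k1 : ¬ t ≤ r := by linarith
    have k2 : ¬ t ≤ a := by linarith
    have k3 : ¬ t ≤ c := by linarith
    have k4 : ¬ t ≤ b := by linarith
    simp [pl, k1, k2, k3, k4]

theorem pl_pos {r a b c : ℝ} (h0 : 0 ≤ r) (h1 : r < a) (h2 : a < c) (h3 : r < b) (h4 : b < c)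
    {t : ℝ} (ht : 0 < t) : 0 < pl r a b c t := by
  have e1 : 0 < a - r := by linarith
  have e2 : 0 < c - a := by linarith
  have e3 : 0 < b - r := by linarith
  have e4 : 0 < c - b := by linarith
  unfold pl
  split_ifs with c1 c2 c3
  · exact ht
  · push Not at c1
    have : 0 < (b - r) / (a - r) * (t - r) := by
      apply mul_pos (by positivity); linarith
    linarith
  · push Not at c2
    have : 0 < (c - b) / (c - a) * (t - a) := by
      apply mul_pos (by positivity); linarith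
    linarith
  · exact ht

theorem pl_le {r a b c : ℝ} (h1 : r < a) (h3 : r < b) {t : ℝ} (ht : t ≤ a) :
    pl r a b c t ≤ b := by
  have e1 : 0 < a - r := by linarith
  have e3 : 0 < b - r := by linarith
  unfold pl
  split_ifs with c1
  · linarith
  · have : (b - r) / (a - r) * (t - r) ≤ (b - r) / (a - r) * (a - r) :=
      mul_le_mul_of_nonneg_left (by linarith) (by positivity)
    rw [div_mul_cancel₀ _ e1.ne'] at this
    linarith

theorem pl_lt {r a b c : ℝ} (h1 : r < a) (h2 : a < c) (h3 : r < b) (h4 : b < c) {t : ℝ}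
    (ht : t < c) : pl r a b c t < c := by
  have e1 : 0 < a - r := by linarith
  have e2 : 0 < c - a := by linarith
  have e3 : 0 < b - r := by linarith
  have e4 : 0 < c - b := by linarith
  by_cases c2 : t ≤ a
  · exact lt_of_le_of_lt (pl_le h1 h3 c2) h4
  · have c1 : ¬ t ≤ r := by push Not at c2; linarith
    simp only [pl, c1, c2, ht.le, if_true, if_false]
    have : (c - b) / (c - a) * (t - a) < (c - b) / (c - a) * (c - a) :=
      mul_lt_mul_of_pos_left (by linarith) (by positivity)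
    rw [div_mul_cancel₀ _ e2.ne'] at this
    linarith

section radial

variable {E : Type*} [NormedAddCommGroup E] [NormedSpace ℝ E]

noncomputable def radf (φ : ℝ → ℝ) (x : E) : E := (φ ‖x‖ / ‖x‖) • x

theorem radf_norm {φ : ℝ → ℝ} (h0 : φ 0 = 0) (hpos : ∀ t, 0 < t → 0 < φ t) (x : E) :
    ‖radf φ x‖ = φ ‖x‖ := by
  unfold radf
  by_cases hx : x = 0
  · subst hx; simp [h0]
  · have hn : 0 < ‖x‖ := norm_pos_iff.mpr hx
    rw [norm_smul, Real.norm_eq_abs, abs_of_pos (div_pos (hpos _ hn) hn), div_mul_cancel₀ _ hn.ne']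

theorem radf_inv {φ ψ : ℝ → ℝ} (h0 : φ 0 = 0) (hpos : ∀ t, 0 < t → 0 < φ t)
    (hinv : ∀ t, ψ (φ t) = t) (x : E) : radf ψ (radf φ x) = x := by
  have hn := radf_norm h0 hpos x
  unfold radf at hn ⊢
  rw [hn, hinv, smul_smul]
  by_cases hx : x = 0
  · subst hx; simp
  · have hn : 0 < ‖x‖ := norm_pos_iff.mpr hx
    have := (hpos _ hn).ne'
    have h1 : ‖x‖ / φ ‖x‖ * (φ ‖x‖ / ‖x‖) = 1 := by field_simp
    rw [h1, one_smul]

theorem radf_cont {φ : ℝ → ℝ} (h0 : φ 0 = 0) (hpos : ∀ t, 0 < t → 0 < φ t)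
    (hc : Continuous φ) : Continuous (radf φ : E → E) := by
  rw [continuous_iff_continuousAt]
  intro x
  by_cases hx : x = 0
  · subst hx
    have h1 : radf φ (0 : E) = 0 := by simp [radf]
    unfold ContinuousAt
    rw [h1, tendsto_zero_iff_norm_tendsto_zero]
    have h2 : (fun x : E => ‖radf φ x‖) = fun x => φ ‖x‖ := by
      funext x; exact radf_norm h0 hpos x
    rw [h2]
    have h3 : Continuous (fun x : E => φ ‖x‖) := hc.comp continuous_norm
    have := h3.tendsto 0
    rwa [norm_zero, h0] at this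
  · have hn : ‖x‖ ≠ 0 := norm_ne_zero_iff.mpr hx
    apply ContinuousAt.smul _ continuousAt_id
    exact ((hc.comp continuous_norm).continuousAt).div continuous_norm.continuousAt hn

/-- Radial homeomorphisms. -/
theorem exists_radial {r a b c : ℝ} (h0 : 0 ≤ r) (h1 : r < a) (h2 : a < c) (h3 : r < b)
    (h4 : b < c) : ∃ τ : E ≃ₜ E, (∀ x, ‖x‖ ≤ r → τ x = x) ∧ (∀ x, c ≤ ‖x‖ → τ x = x) ∧
      (∀ x, ‖x‖ ≤ a → ‖τ x‖ ≤ b) ∧ (∀ x, ‖x‖ < c → ‖τ x‖ < c) ∧
      (∀ x, ‖x‖ < c → ‖τ.symm x‖ < c) := by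
  have z1 : pl r a b c 0 = 0 := by simp [pl, h0]
  have z2 : pl r b a c 0 = 0 := by simp [pl, h0]
  have p1 : ∀ t, 0 < t → 0 < pl r a b c t := fun t ht => pl_pos h0 h1 h2 h3 h4 ht
  have p2 : ∀ t, 0 < t → 0 < pl r b a c t := fun t ht => pl_pos h0 h3 h4 h1 h2 ht
  refine ⟨{
    toFun := radf (pl r a b c)
    invFun := radf (pl r b a c)
    left_inv := radf_inv z1 p1 (pl_inv h1 h2 h3 h4)
    right_inv := radf_inv z2 p2 (pl_inv h3 h4 h1 h2)
    continuous_toFun := radf_cont z1 p1 (pl_cont h1 h2)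
    continuous_invFun := radf_cont z2 p2 (pl_cont h3 h4) }, ?_, ?_, ?_, ?_, ?_⟩
  · intro x hx
    show radf _ x = x
    have : pl r a b c ‖x‖ = ‖x‖ := by simp [pl, hx]
    unfold radf
    rw [this]
    by_cases hx0 : x = 0
    · subst hx0; simp
    · rw [div_self (norm_ne_zero_iff.mpr hx0), one_smul]
  · intro x hx
    show radf _ x = x
    have : pl r a b c ‖x‖ = ‖x‖ := by
      rcases hx.lt_or_eq with h | h
      · have k1 : ¬ ‖x‖ ≤ r := by linarith
        have k2 : ¬ ‖x‖ ≤ a := by linarith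
        have k3 : ¬ ‖x‖ ≤ c := by linarith
        simp [pl, k1, k2, k3]
      · have k1 : ¬ ‖x‖ ≤ r := by linarith
        have k2 : ¬ ‖x‖ ≤ a := by linarith
        have k3 : ‖x‖ ≤ c := by linarith
        simp only [pl, k1, k2, k3, if_true, if_false]
        rw [← h]
        have : c - a ≠ 0 := by linarith
        field_simp
        ring
    unfold radf
    rw [this]
    by_cases hx0 : x = 0
    · subst hx0; simp
    · rw [div_self (norm_ne_zero_iff.mpr hx0), one_smul]
  · intro x hx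
    show ‖radf _ x‖ ≤ b
    rw [radf_norm z1 p1]
    exact pl_le h1 h3 hx
  · intro x hx
    show ‖radf _ x‖ < c
    rw [radf_norm z1 p1]
    exact pl_lt h1 h2 h3 h4 hx
  · intro x hx
    show ‖radf _ x‖ < c
    rw [radf_norm z2 p2]
    exact pl_lt h3 h4 h1 h2 hx

variable [ProperSpace E] {Z : Type*} [TopologicalSpace Z] [T2Space Z]

omit [NormedSpace ℝ E] in
theorem ext_cont {h : E → Z} (hh : IsOpenEmbedding h) (τ : E ≃ₜ E) (c : ℝ)
    (hτ : ∀ x, c ≤ ‖x‖ → τ x = x) : Continuous (Function.extend h (h ∘ τ) id) := by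
  rw [continuous_iff_continuousAt]
  intro z
  by_cases hz : z ∈ range h
  · obtain ⟨x, rfl⟩ := hz
    rw [← hh.continuousAt_iff]
    have : Function.extend h (h ∘ τ) id ∘ h = h ∘ τ := by
      funext y
      exact hh.injective.extend_apply _ _ y
    rw [this]
    exact (hh.continuous.comp τ.continuous).continuousAt
  · have hK : IsClosed (h '' closedBall 0 c) :=
      ((isCompact_closedBall 0 c).image hh.continuous).isClosed
    have hz' : (h '' closedBall 0 c)ᶜ ∈ 𝓝 z := by
      apply hK.isOpen_compl.mem_nhds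
      rintro ⟨x, -, rfl⟩
      exact hz ⟨x, rfl⟩
    have : Function.extend h (h ∘ τ) id =ᶠ[𝓝 z] id := by
      filter_upwards [hz'] with w hw
      by_cases hw' : w ∈ range h
      · obtain ⟨x, rfl⟩ := hw'
        rw [hh.injective.extend_apply]
        have hx : c ≤ ‖x‖ := by
          by_contra hlt
          push Not at hlt
          exact hw ⟨x, by simpa using hlt.le, rfl⟩
        show h (τ x) = h x
        rw [hτ x hx]
      · rw [Function.extend_apply' _ _ _ (by simpa using hw')]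
    exact continuousAt_id.congr this.symm

/-- Extension of compactly supported homeomorphisms. -/
theorem exists_ext {h : E → Z} (hh : IsOpenEmbedding h) (τ : E ≃ₜ E) (c : ℝ)
    (hτ : ∀ x, c ≤ ‖x‖ → τ x = x) : ∃ T : Z ≃ₜ Z, (∀ x, T (h x) = h (τ x)) ∧
      (∀ x, T.symm (h x) = h (τ.symm x)) ∧ (∀ z, z ∉ range h → T z = z) := by
  have hτ' : ∀ x, c ≤ ‖x‖ → τ.symm x = x := fun x hx => by
    rw [Homeomorph.symm_apply_eq, hτ x hx]
  have e1 : ∀ x, Function.extend h (h ∘ τ) id (h x) = h (τ x) := fun x =>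
    hh.injective.extend_apply _ _ x
  have e2 : ∀ x, Function.extend h (h ∘ τ.symm) id (h x) = h (τ.symm x) := fun x =>
    hh.injective.extend_apply _ _ x
  have e3 : ∀ z, z ∉ range h → Function.extend h (h ∘ τ) id z = z := fun z hz =>
    Function.extend_apply' _ _ _ (by simpa using hz)
  have e4 : ∀ z, z ∉ range h → Function.extend h (h ∘ τ.symm) id z = z := fun z hz =>
    Function.extend_apply' _ _ _ (by simpa using hz)
  refine ⟨{
    toFun := Function.extend h (h ∘ τ) id
    invFun := Function.extend h (h ∘ τ.symm) id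
    left_inv := ?_
    right_inv := ?_
    continuous_toFun := ext_cont hh τ c hτ
    continuous_invFun := ext_cont hh τ.symm c hτ' }, e1, e2, e3⟩
  · intro z
    by_cases hz : z ∈ range h
    · obtain ⟨x, rfl⟩ := hz
      rw [e1, e2, Homeomorph.symm_apply_apply]
    · rw [e3 z hz, e4 z hz]
  · intro z
    by_cases hz : z ∈ range h
    · obtain ⟨x, rfl⟩ := hz
      rw [e2, e1, Homeomorph.apply_symm_apply]
    · rw [e4 z hz, e3 z hz]

/-- One step of Brown's construction. -/
theorem brown_step {z₀ : Z} (hcell : ∀ C : Set Z, IsCompact C → ∃ h : E → Z, IsOpenEmbedding h ∧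
      h 0 = z₀ ∧ C ⊆ range h)
    {h : E → Z} (hh : IsOpenEmbedding h) (hh0 : h 0 = z₀) (r : ℝ) (hr : 0 < r) (C : Set Z)
    (hC : IsCompact C) : ∃ h' : E → Z, IsOpenEmbedding h' ∧ h' 0 = z₀ ∧
      (∀ x, ‖x‖ ≤ r → h' x = h x) ∧ C ⊆ h' '' ball 0 (r + 1) := by
  set C' := C ∪ h '' closedBall 0 (r + 1) with hC'
  have hC'c : IsCompact C' := hC.union ((isCompact_closedBall 0 _).image hh.continuous)
  obtain ⟨h₂, hh₂, hh₂0, hC'r⟩ := hcell C' hC'c
  -- the radius `R`
  have hpre : IsCompact (h₂ ⁻¹' C') := (hh₂.isInducing.isCompact_preimage_iff hC'r).mpr hC'c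
  obtain ⟨R₀, hR₀⟩ := hpre.isBounded.subset_closedBall 0
  -- the radius `r'`
  have hopen1 : IsOpen (h '' ball 0 (r + 1)) := hh.isOpenMap _ isOpen_ball
  have hn1 : h₂ ⁻¹' (h '' ball 0 (r + 1)) ∈ 𝓝 (0 : E) := by
    apply (hopen1.preimage hh₂.continuous).mem_nhds
    exact ⟨0, mem_ball_self (by linarith), by rw [hh0, hh₂0]⟩
  obtain ⟨r', hr', hr'1⟩ := Metric.nhds_basis_closedBall.mem_iff.mp hn1
  have hopen2 : IsOpen (h₂ '' ball 0 (r' / 2)) := hh₂.isOpenMap _ isOpen_ball
  have hn2 : h ⁻¹' (h₂ '' ball 0 (r' / 2)) ∈ 𝓝 (0 : E) := by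
    apply (hopen2.preimage hh.continuous).mem_nhds
    exact ⟨0, mem_ball_self (by positivity), by rw [hh0, hh₂0]⟩
  obtain ⟨ε', hε', hε'1⟩ := Metric.nhds_basis_closedBall.mem_iff.mp hn2
  set ε := min ε' (r / 2) with hε
  have hε0 : 0 < ε := lt_min hε' (by positivity)
  have hεr : ε < r + 1 := lt_of_le_of_lt (min_le_right _ _) (by linarith)
  set R := max R₀ (r' + 1) with hR
  have hRr : r' < R := lt_of_lt_of_le (by linarith) (le_max_right _ _)
  obtain ⟨τ, τ1, τ2, τ3, τ4, τ5⟩ := exists_radial (E := E) (r := r' / 2) (a := R) (b := r')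
    (c := R + 1) (by positivity) (by linarith) (by linarith) (by linarith) (by linarith)
  obtain ⟨σ, σ1, σ2, σ3, σ4, σ5⟩ := exists_radial (E := E) (r := 0) (a := r) (b := ε)
    (c := r + 1) le_rfl hr (by linarith) hε0 hεr
  obtain ⟨T, hT1, hT2, hT3⟩ := exists_ext hh₂ τ (R + 1) τ2
  obtain ⟨S, hS1, hS2, hS3⟩ := exists_ext hh σ (r + 1) σ2
  have key : ∀ x, ‖x‖ ≤ r → S.symm (T.symm (S (h x))) = h x := by
    intro x hx
    have h1 : ‖σ x‖ ≤ ε := σ3 x hx
    have h2 : σ x ∈ closedBall (0 : E) ε' := by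
      rw [mem_closedBall_zero_iff]
      exact h1.trans (min_le_left _ _)
    obtain ⟨y, hy, hyx⟩ := hε'1 h2
    have h3 : τ.symm y = y := by
      rw [Homeomorph.symm_apply_eq]
      rw [mem_ball_zero_iff] at hy
      exact (τ1 y hy.le).symm
    rw [hS1, ← hyx, hT2, h3, hyx, hS2, Homeomorph.symm_apply_apply]
  refine ⟨fun x => S.symm (T.symm (S (h x))), ?_, ?_, key, ?_⟩
  · exact S.symm.isOpenEmbedding.comp (T.symm.isOpenEmbedding.comp (S.isOpenEmbedding.comp hh))
  · show S.symm (T.symm (S (h 0))) = z₀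
    rw [key 0 (by rw [norm_zero]; exact hr.le), hh0]
  · intro z hz
    have h1 : S z ∈ C' := by
      by_cases hzr : z ∈ range h
      · obtain ⟨x, rfl⟩ := hzr
        rw [hS1]
        by_cases hx : r + 1 ≤ ‖x‖
        · rw [σ2 x hx]; exact Or.inl hz
        · push Not at hx
          right
          exact ⟨σ x, by rw [mem_closedBall_zero_iff]; exact (σ4 x hx).le, rfl⟩
      · rw [hS3 z hzr]; exact Or.inl hz
    obtain ⟨y, hy⟩ := hC'r h1
    have h2 : ‖y‖ ≤ R := by
      have : y ∈ h₂ ⁻¹' C' := by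
        show h₂ y ∈ C'
        rw [hy]; exact h1
      have := hR₀ this
      rw [mem_closedBall_zero_iff] at this
      exact this.trans (le_max_left _ _)
    have h3 : τ y ∈ closedBall (0 : E) r' := by
      rw [mem_closedBall_zero_iff]
      exact τ3 y h2
    obtain ⟨x₂, hx₂, hx₂'⟩ := hr'1 h3
    rw [mem_ball_zero_iff] at hx₂
    refine ⟨σ.symm x₂, ?_, ?_⟩
    · rw [mem_ball_zero_iff]
      exact σ5 x₂ hx₂
    · show S.symm (T.symm (S (h (σ.symm x₂)))) = z
      rw [hS1, Homeomorph.apply_symm_apply, hx₂', hT2, Homeomorph.symm_apply_apply, hy,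
        Homeomorph.symm_apply_apply]

/-- Brown's theorem on monotone unions of open cells (in the form needed here). -/
theorem brown {z₀ : Z} (hcell : ∀ C : Set Z, IsCompact C → ∃ h : E → Z, IsOpenEmbedding h ∧
      h 0 = z₀ ∧ C ⊆ range h)
    (C : ℕ → Set Z) (hC : ∀ n, IsCompact (C n)) (hCU : ∀ z, ∃ n, z ∈ C n) :
    Nonempty (E ≃ₜ Z) := by
  obtain ⟨h₀, hh₀, hh₀0, -⟩ := hcell ∅ isCompact_empty
  have hstep : ∀ (n : ℕ) (h : {h : E → Z // IsOpenEmbedding h ∧ h 0 = z₀}),
      ∃ h' : {h : E → Z // IsOpenEmbedding h ∧ h 0 = z₀},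
        (∀ x, ‖x‖ ≤ (n : ℝ) + 1 → h'.1 x = h.1 x) ∧ C n ⊆ h'.1 '' ball 0 ((n : ℝ) + 1 + 1) := by
    intro n h
    obtain ⟨h', a1, a2, a3, a4⟩ := brown_step hcell h.2.1 h.2.2 ((n : ℝ) + 1) (by positivity)
      (C n) (hC n)
    exact ⟨⟨h', a1, a2⟩, a3, a4⟩
  choose F hF1 hF2 using hstep
  let h : ℕ → {h : E → Z // IsOpenEmbedding h ∧ h 0 = z₀} := fun n =>
    Nat.rec ⟨h₀, hh₀, hh₀0⟩ (fun n h => F n h) n
  have hs : ∀ (n : ℕ) (x : E), ‖x‖ ≤ (n : ℝ) + 1 → (h (n + 1)).1 x = (h n).1 x := fun n x hx =>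
    hF1 n (h n) x hx
  have hc : ∀ n : ℕ, C n ⊆ (h (n + 1)).1 '' ball 0 ((n : ℝ) + 1 + 1) := fun n => hF2 n (h n)
  have hstab : ∀ (x : E) (n m : ℕ), ‖x‖ ≤ (n : ℝ) + 1 → n ≤ m → (h m).1 x = (h n).1 x := by
    intro x n m hx hnm
    induction m, hnm using Nat.le_induction with
    | base => rfl
    | succ m hm ih =>
      rw [hs m x (hx.trans (by have : (n : ℝ) ≤ m := by exact_mod_cast hm
                               linarith)), ih]
  let G : E → Z := fun x => (h ⌈‖x‖⌉₊).1 x
  have hG : ∀ (x : E) (n : ℕ), ‖x‖ ≤ (n : ℝ) + 1 → G x = (h n).1 x := by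
    intro x n hx
    show (h ⌈‖x‖⌉₊).1 x = (h n).1 x
    rcases le_total n ⌈‖x‖⌉₊ with h1 | h1
    · exact hstab x n _ hx h1
    · exact (hstab x _ n (by have := Nat.le_ceil ‖x‖; linarith) h1).symm
  have hnhds : ∀ x, map G (𝓝 x) = 𝓝 (G x) := by
    intro x
    obtain ⟨n, hn⟩ := exists_nat_gt ‖x‖
    have h1 : G =ᶠ[𝓝 x] (h n).1 := by
      have : ball (0 : E) n ∈ 𝓝 x := isOpen_ball.mem_nhds (by rwa [mem_ball_zero_iff])
      filter_upwards [this] with y hy
      rw [mem_ball_zero_iff] at hy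
      exact hG y n (by linarith)
    rw [Filter.map_congr h1, hG x n (by linarith)]
    exact (h n).2.1.map_nhds_eq x
  have hGc : Continuous G := continuous_iff_continuousAt.mpr fun x => (hnhds x).le
  have hGo : IsOpenMap G := IsOpenMap.of_nhds_le fun x => (hnhds x).ge
  have hGi : Function.Injective G := by
    intro x y hxy
    obtain ⟨n, hn⟩ := exists_nat_gt (max ‖x‖ ‖y‖)
    have hx : ‖x‖ ≤ (n : ℝ) + 1 := by linarith [le_max_left ‖x‖ ‖y‖]
    have hy : ‖y‖ ≤ (n : ℝ) + 1 := by linarith [le_max_right ‖x‖ ‖y‖]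
    rw [hG x n hx, hG y n hy] at hxy
    exact (h n).2.1.injective hxy
  have hGs : Function.Surjective G := by
    intro z
    obtain ⟨n, hn⟩ := hCU z
    obtain ⟨x, hx, hxz⟩ := hc n hn
    rw [mem_ball_zero_iff] at hx
    refine ⟨x, ?_⟩
    rw [hG x (n + 1) (by push_cast; linarith)]
    exact hxz
  exact ⟨(Equiv.ofBijective G ⟨hGi, hGs⟩).toHomeomorphOfContinuousOpen hGc hGo⟩

end radial

end Pool.Agent.H721R2
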