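import Pool.Agent.H721R2.Embed

set_option autoImplicit false
set_option linter.unusedSectionVars false

open scoped Manifold ContDiff Topology
open Set Filter

namespace Pool.Agent.H721R2

/-- The `N`-th iterate of a homeomorphism. -/
def iterHomeo {M : Type*} [TopologicalSpace M] (f : M ≃ₜ M) (N : ℕ) : M ≃ₜ M where
  toFun := f^[N]
  invFun := f.symm^[N]
  left_inv := iter_left f N
  right_inv := iter_right f N
  continuous_toFun := f.continuous.iterate N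
  continuous_invFun := f.symm.continuous.iterate N

section global

variable {E₀ : Type*} [NormedAddCommGroup E₀] [NormedSpace ℝ E₀] [FiniteDimensional ℝ E₀]
  {M : Type*} [MetricSpace M] [CompactSpace M] [ChartedSpace E₀ M] [IsManifold 𝓘(ℝ, E₀) 1 M]
  {F : Type*} [NormedAddCommGroup F] [NormedSpace ℝ F]

theorem exists_hypSys {e : M → F} (hiso : ∀ x y, dist x y = ‖e x - e y‖)
    (he : ContMDiff 𝓘(ℝ, E₀) 𝓘(ℝ, F) 1 e) (hinj : ∀ x, Function.Injective (dm E₀ e x))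
    {f : M ≃ₜ M} {Es Eu : M → Submodule ℝ E₀} {C a b Ls Lu : ℝ}
    (h : EAnosov e f Es Eu C a b Ls Lu) (K : ℝ) (hK : 1 ≤ K)
    (hang : ∀ x, ∀ s ∈ Es x, ∀ u ∈ Eu x,
      ‖dm E₀ e x s‖ ≤ K * ‖dm E₀ e x (s + u)‖ ∧ ‖dm E₀ e x u‖ ≤ K * ‖dm E₀ e x (s + u)‖)
    (N : ℕ) (hKa : K * (C * a ^ N) ≤ 1 / 16) (hKb : K * (C * b ^ N) ≤ 1 / 16) :
    ∃ S : HypSys M F, S.g = iterHomeo f N ∧ S.a = C * a ^ N ∧ S.b = C * b ^ N ∧
      S.Ls = C * Ls ^ N ∧ S.Lu = C * Lu ^ N ∧ S.K = K := by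
  have hC := h.C_pos
  have hC0 : 0 < C := by linarith
  have hsm := iter_smooth f h.smooth N
  have hsm' := iter_smooth f.symm h.smooth' N
  have hleft : ∀ x, ∃ L : F →ₗ[ℝ] E₀, ∀ v, L (dm E₀ e x v) = v := by
    intro x
    obtain ⟨L, hL⟩ := LinearMap.exists_leftInverse_of_injective (dm E₀ e x).toLinearMap
      (LinearMap.ker_eq_bot.mpr (hinj x))
    exact ⟨L, fun v => LinearMap.congr_fun hL v⟩
  choose L hL using hleft
  let D : M → F →ₗ[ℝ] F := fun x =>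
    (dm E₀ e (f^[N] x)).toLinearMap ∘ₗ (dg E₀ (f^[N]) x).toLinearMap ∘ₗ L x
  let D' : M → F →ₗ[ℝ] F := fun x =>
    (dm E₀ e (f.symm^[N] x)).toLinearMap ∘ₗ (dg E₀ (f.symm^[N]) x).toLinearMap ∘ₗ L x
  have hD : ∀ x v, D x (dm E₀ e x v) = dm E₀ e (f^[N] x) (dg E₀ (f^[N]) x v) := by
    intro x v
    show dm E₀ e (f^[N] x) (dg E₀ (f^[N]) x (L x (dm E₀ e x v))) = _
    rw [hL]
  have hD' : ∀ x v, D' x (dm E₀ e x v) = dm E₀ e (f.symm^[N] x) (dg E₀ (f.symm^[N]) x v) := by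
    intro x v
    show dm E₀ e (f.symm^[N] x) (dg E₀ (f.symm^[N]) x (L x (dm E₀ e x v))) = _
    rw [hL]
  let Vs : M → Submodule ℝ F := fun x => (Es x).map (dm E₀ e x).toLinearMap
  let Vu : M → Submodule ℝ F := fun x => (Eu x).map (dm E₀ e x).toLinearMap
  have hVs : ∀ x w, w ∈ Vs x ↔ ∃ v ∈ Es x, dm E₀ e x v = w := fun x w => Iff.rfl
  have hVu : ∀ x w, w ∈ Vu x ↔ ∃ v ∈ Eu x, dm E₀ e x v = w := fun x w => Iff.rfl
  have hdist : ∀ x y, ‖e y - e x‖ = dist x y := fun x y => by rw [hiso, norm_sub_rev]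
  have hC1 : ∀ L : ℝ, 1 ≤ L → 1 ≤ C * L ^ N := by
    intro L hL
    have := one_le_pow₀ hL (n := N)
    nlinarith
  refine ⟨{
    e := e
    isom := hiso
    g := iterHomeo f N
    Vs := Vs
    Vu := Vu
    D := D
    D' := D'
    a := C * a ^ N
    b := C * b ^ N
    Ls := C * Ls ^ N
    Lu := C * Lu ^ N
    K := K
    a_nonneg := mul_nonneg hC0.le (pow_nonneg h.a_pos.le _)
    b_nonneg := mul_nonneg hC0.le (pow_nonneg h.b_pos.le _)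
    one_le_Ls := hC1 _ h.Ls_le
    one_le_Lu := hC1 _ h.Lu_le
    one_le_K := hK
    Ka := hKa
    Kb := hKb
    mapS := ?_
    mapU := ?_
    mapS' := ?_
    mapU' := ?_
    invS := ?_
    invU := ?_
    invS' := ?_
    invU' := ?_
    contrS := ?_
    contrU := ?_
    boundS := ?_
    boundU := ?_
    angle := ?_
    A1 := ?_
    A1' := ?_
    A2 := ?_
    A3 := ?_
    A3' := ?_ }, rfl, rfl, rfl, rfl, rfl, rfl⟩
  · rintro x w ⟨v, hv, rfl⟩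
    exact ⟨_, h.mapS N x v hv, (hD x v).symm⟩
  · rintro x w ⟨v, hv, rfl⟩
    exact ⟨_, h.mapU N x v hv, (hD x v).symm⟩
  · rintro x w ⟨v, hv, rfl⟩
    exact ⟨_, h.mapS' N x v hv, (hD' x v).symm⟩
  · rintro x w ⟨v, hv, rfl⟩
    exact ⟨_, h.mapU' N x v hv, (hD' x v).symm⟩
  · rintro x w ⟨v, hv, rfl⟩
    change D' (f^[N] x) (D x (dm E₀ e x v)) = dm E₀ e x v
    rw [hD, hD', dg_inv _ _ hsm hsm' (iter_left f N), iter_left]
  · rintro x w ⟨v, hv, rfl⟩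
    change D' (f^[N] x) (D x (dm E₀ e x v)) = dm E₀ e x v
    rw [hD, hD', dg_inv _ _ hsm hsm' (iter_left f N), iter_left]
  · rintro x w ⟨v, hv, rfl⟩
    change D (f.symm^[N] x) (D' x (dm E₀ e x v)) = dm E₀ e x v
    rw [hD', hD, dg_inv _ _ hsm' hsm (iter_right f N), iter_right]
  · rintro x w ⟨v, hv, rfl⟩
    change D (f.symm^[N] x) (D' x (dm E₀ e x v)) = dm E₀ e x v
    rw [hD', hD, dg_inv _ _ hsm' hsm (iter_right f N), iter_right]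
  · rintro x w ⟨v, hv, rfl⟩
    change ‖D x (dm E₀ e x v)‖ ≤ C * a ^ N * ‖dm E₀ e x v‖
    rw [hD]; exact h.hS N x v hv
  · rintro x w ⟨v, hv, rfl⟩
    change ‖D' x (dm E₀ e x v)‖ ≤ C * b ^ N * ‖dm E₀ e x v‖
    rw [hD']; exact h.hU' N x v hv
  · rintro x w ⟨v, hv, rfl⟩
    change ‖D' x (dm E₀ e x v)‖ ≤ C * Ls ^ N * ‖dm E₀ e x v‖
    rw [hD']; exact h.hS' N x v hv
  · rintro x w ⟨v, hv, rfl⟩
    change ‖D x (dm E₀ e x v)‖ ≤ C * Lu ^ N * ‖dm E₀ e x v‖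
    rw [hD]; exact h.hU N x v hv
  · rintro x w ⟨v, hv, rfl⟩ w' ⟨v', hv', rfl⟩
    have := hang x v hv v' hv'
    rw [map_add] at this
    exact this
  · intro η hη
    have hP : ∃ r > 0, ∀ x y, dist x y < r → ∃ v : E₀,
        ‖e y - e x - dm E₀ e x v‖ ≤ η * ‖e y - e x‖ ∧
        ‖e (f^[N] y) - e (f^[N] x) - dm E₀ e (f^[N] x) (dg E₀ (f^[N]) x v)‖ ≤
          η * ‖e y - e x‖ := by
      apply exists_uniform_radius
      intro x₀
      obtain ⟨-, h1⟩ := local_all e he hinj (e ∘ f^[N]) (he.comp hsm) x₀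
      obtain ⟨W, hW, r, hr, h2, -, -⟩ := h1 η hη
      refine ⟨W, hW, fun x hx y hy => ?_⟩
      obtain ⟨v, h3, h4⟩ := h2 x hx y hy
      rw [dm_comp e he _ hsm] at h4
      exact ⟨v, h3, h4⟩
    obtain ⟨r, hr, hP⟩ := hP
    refine ⟨r, hr, fun x y hxy => ?_⟩
    obtain ⟨v, h1, h2⟩ := hP x y hxy
    obtain ⟨s, hs, u, hu, hsu⟩ := h.decomp x v
    refine ⟨dm E₀ e x s, ⟨s, hs, rfl⟩, dm E₀ e x u, ⟨u, hu, rfl⟩, ?_, ?_⟩
    · rw [← map_add, hsu, ← hdist]; exact h1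
    · rw [← map_add, hsu, hD, ← hdist]; exact h2
  · intro η hη
    have hP : ∃ r > 0, ∀ x y, dist x y < r → ∃ v : E₀,
        ‖e y - e x - dm E₀ e x v‖ ≤ η * ‖e y - e x‖ ∧
        ‖e (f.symm^[N] y) - e (f.symm^[N] x) -
          dm E₀ e (f.symm^[N] x) (dg E₀ (f.symm^[N]) x v)‖ ≤ η * ‖e y - e x‖ := by
      apply exists_uniform_radius
      intro x₀
      obtain ⟨-, h1⟩ := local_all e he hinj (e ∘ f.symm^[N]) (he.comp hsm') x₀
      obtain ⟨W, hW, r, hr, h2, -, -⟩ := h1 η hη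
      refine ⟨W, hW, fun x hx y hy => ?_⟩
      obtain ⟨v, h3, h4⟩ := h2 x hx y hy
      rw [dm_comp e he _ hsm'] at h4
      exact ⟨v, h3, h4⟩
    obtain ⟨r, hr, hP⟩ := hP
    refine ⟨r, hr, fun x y hxy => ?_⟩
    obtain ⟨v, h1, h2⟩ := hP x y hxy
    obtain ⟨s, hs, u, hu, hsu⟩ := h.decomp x v
    refine ⟨dm E₀ e x s, ⟨s, hs, rfl⟩, dm E₀ e x u, ⟨u, hu, rfl⟩, ?_, ?_⟩
    · rw [← map_add, hsu, ← hdist]; exact h1
    · rw [← map_add, hsu, hD', ← hdist]; exact h2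
  · intro η hη
    have hP : ∃ r > 0, ∀ x : M, ∀ v : E₀, ‖dm E₀ e x v‖ < r →
        ∃ y, ‖e y - e x - dm E₀ e x v‖ ≤ η * ‖dm E₀ e x v‖ := by
      apply exists_uniform_small (fun r x => ∀ v : E₀, ‖dm E₀ e x v‖ < r →
        ∃ y, ‖e y - e x - dm E₀ e x v‖ ≤ η * ‖dm E₀ e x v‖)
      · intro C C' x hCC' hx v hv
        exact hx v (by linarith)
      · intro x₀
        obtain ⟨-, h1⟩ := local_all e he hinj e he x₀
        obtain ⟨W, hW, r, hr, -, h2, -⟩ := h1 η hη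
        refine ⟨r, hr, ?_⟩
        filter_upwards [hW] with x hx
        exact h2 x hx
    obtain ⟨r, hr, hP⟩ := hP
    refine ⟨r, hr, ?_⟩
    rintro x w ⟨v, hv, rfl⟩ w' ⟨v', hv', rfl⟩ hlt
    change ‖dm E₀ e x v + dm E₀ e x v'‖ < r at hlt
    change ∃ y, ‖e y - e x - (dm E₀ e x v + dm E₀ e x v')‖ ≤ η * ‖dm E₀ e x v + dm E₀ e x v'‖
    rw [← map_add] at hlt ⊢
    exact hP x _ hlt
  · intro η hη
    obtain ⟨r, hr, hP⟩ := h.contS he hinj η hη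
    refine ⟨r, hr, ?_⟩
    rintro x y hxy w ⟨v, hv, rfl⟩
    obtain ⟨v', hv', h1⟩ := hP x y hxy v hv
    exact ⟨_, ⟨v', hv', rfl⟩, h1⟩
  · intro η hη
    obtain ⟨r, hr, hP⟩ := h.symm.contS he hinj η hη
    refine ⟨r, hr, ?_⟩
    rintro x y hxy w ⟨v, hv, rfl⟩
    obtain ⟨v', hv', h1⟩ := hP x y hxy v hv
    exact ⟨_, ⟨v', hv', rfl⟩, h1⟩

/-- choice of the exponent -/
theorem exists_good_N (C a b Ls Lu ρ K : ℝ) (hC : 1 ≤ C) (ha0 : 0 < a) (ha1 : a < 1)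
    (hb0 : 0 < b) (hb1 : b < 1) (hLs : 1 ≤ Ls) (hLu : 1 ≤ Lu) (_hρ : 1 ≤ ρ)
    (h1 : Ls * a ^ ρ < 1) (h2 : Lu ^ (ρ - 1) * b ^ ρ < 1) (hK : 1 ≤ K) :
    ∃ N : ℕ, 1 ≤ N ∧ K * (C * a ^ N) ≤ 1 / 16 ∧ K * (C * b ^ N) ≤ 1 / 16 ∧
      2 * (C * a ^ N) ≤ 1 / 2 ∧ 2 * (C * b ^ N) ≤ 1 / 2 ∧
      (5 * C * Ls ^ N) * (2 * (C * a ^ N)) ^ ρ < 1 ∧
      (5 * C * Lu ^ N) ^ (ρ - 1) * (2 * (C * b ^ N)) ^ ρ < 1 := by
  have hC0 : 0 < C := by linarith
  have hK0 : 0 < K := by linarith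
  have t1 : Tendsto (fun n : ℕ => K * (C * a ^ n)) atTop (𝓝 0) := by
    have := ((tendsto_pow_atTop_nhds_zero_of_lt_one ha0.le ha1).const_mul C).const_mul K
    simpa using this
  have t2 : Tendsto (fun n : ℕ => K * (C * b ^ n)) atTop (𝓝 0) := by
    have := ((tendsto_pow_atTop_nhds_zero_of_lt_one hb0.le hb1).const_mul C).const_mul K
    simpa using this
  have t3 : Tendsto (fun n : ℕ => 2 * (C * a ^ n)) atTop (𝓝 0) := by
    have := ((tendsto_pow_atTop_nhds_zero_of_lt_one ha0.le ha1).const_mul C).const_mul 2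
    simpa using this
  have t4 : Tendsto (fun n : ℕ => 2 * (C * b ^ n)) atTop (𝓝 0) := by
    have := ((tendsto_pow_atTop_nhds_zero_of_lt_one hb0.le hb1).const_mul C).const_mul 2
    simpa using this
  have t5 : Tendsto (fun n : ℕ => (5 * C * (2 * C) ^ ρ) * (Ls * a ^ ρ) ^ n) atTop (𝓝 0) := by
    have := (tendsto_pow_atTop_nhds_zero_of_lt_one (by positivity) h1).const_mul
      (5 * C * (2 * C) ^ ρ)
    simpa using this
  have t6 : Tendsto (fun n : ℕ => ((5 * C) ^ (ρ - 1) * (2 * C) ^ ρ) *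
      (Lu ^ (ρ - 1) * b ^ ρ) ^ n) atTop (𝓝 0) := by
    have := (tendsto_pow_atTop_nhds_zero_of_lt_one (by positivity) h2).const_mul
      ((5 * C) ^ (ρ - 1) * (2 * C) ^ ρ)
    simpa using this
  obtain ⟨N, ⟨⟨⟨⟨⟨h3, h4⟩, h5⟩, h6⟩, h7⟩, h8⟩, h9⟩ := ((((((((tendsto_order.mp t1).2 (1 / 16)
    (by norm_num)).and ((tendsto_order.mp t2).2 (1 / 16) (by norm_num))).and
    ((tendsto_order.mp t3).2 (1 / 2) (by norm_num))).and
    ((tendsto_order.mp t4).2 (1 / 2) (by norm_num))).and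
    ((tendsto_order.mp t5).2 1 one_pos)).and ((tendsto_order.mp t6).2 1 one_pos)).and
    (eventually_ge_atTop 1)).exists
  have hpow : ∀ z : ℝ, 0 < z → (z ^ N) ^ ρ = (z ^ ρ) ^ N := by
    intro z hz
    rw [← Real.rpow_natCast z N, ← Real.rpow_natCast (z ^ ρ) N, ← Real.rpow_mul hz.le,
      ← Real.rpow_mul hz.le, mul_comm]
  have hpow' : ∀ z : ℝ, 0 < z → (z ^ N) ^ (ρ - 1) = (z ^ (ρ - 1)) ^ N := by
    intro z hz
    rw [← Real.rpow_natCast z N, ← Real.rpow_natCast (z ^ (ρ - 1)) N, ← Real.rpow_mul hz.le,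
      ← Real.rpow_mul hz.le, mul_comm]
  refine ⟨N, h9, h3.le, h4.le, h5.le, h6.le, ?_, ?_⟩
  · have e1 : (2 * (C * a ^ N)) ^ ρ = (2 * C) ^ ρ * (a ^ ρ) ^ N := by
      rw [← mul_assoc, Real.mul_rpow (by positivity) (by positivity), hpow a ha0]
    rw [e1]
    calc 5 * C * Ls ^ N * ((2 * C) ^ ρ * (a ^ ρ) ^ N)
        = (5 * C * (2 * C) ^ ρ) * (Ls * a ^ ρ) ^ N := by rw [mul_pow]; ring
      _ < 1 := h7
  · have e1 : (2 * (C * b ^ N)) ^ ρ = (2 * C) ^ ρ * (b ^ ρ) ^ N := by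
      rw [← mul_assoc, Real.mul_rpow (by positivity) (by positivity), hpow b hb0]
    have e2 : (5 * C * Lu ^ N) ^ (ρ - 1) = (5 * C) ^ (ρ - 1) * (Lu ^ (ρ - 1)) ^ N := by
      rw [Real.mul_rpow (by positivity) (by positivity), hpow' Lu (by linarith)]
    rw [e1, e2]
    calc (5 * C) ^ (ρ - 1) * (Lu ^ (ρ - 1)) ^ N * ((2 * C) ^ ρ * (b ^ ρ) ^ N)
        = ((5 * C) ^ (ρ - 1) * (2 * C) ^ ρ) * (Lu ^ (ρ - 1) * b ^ ρ) ^ N := by
          rw [mul_pow]; ring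
      _ < 1 := h8

/-- Pinching theorem for Anosov data in an ambient space. -/
theorem EAnosov.transitive [PreconnectedSpace M] {e : M → F}
    (hiso : ∀ x y, dist x y = ‖e x - e y‖)
    (he : ContMDiff 𝓘(ℝ, E₀) 𝓘(ℝ, F) 1 e) (hinj : ∀ x, Function.Injective (dm E₀ e x))
    {f : M ≃ₜ M} {Es Eu : M → Submodule ℝ E₀} {C a b Ls Lu : ℝ}
    (h : EAnosov e f Es Eu C a b Ls Lu) (ρ : ℝ) (hρ : 1 ≤ ρ)
    (h1 : Ls * a ^ ρ < 1) (h2 : Lu ^ (ρ - 1) * b ^ ρ < 1)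
    (U V : Set M) (hU : IsOpen U) (hUn : U.Nonempty) (hV : IsOpen V) (hVn : V.Nonempty) :
    ∃ n : ℕ, (f^[n] '' U ∩ V).Nonempty := by
  obtain ⟨K, hK, hang⟩ := h.angle he hinj
  have hC := h.C_pos
  have hC0 : 0 < C := by linarith
  have ha0 := h.a_pos
  have hb0 := h.b_pos
  have hLs := h.Ls_le
  have hLu := h.Lu_le
  obtain ⟨N, hN1, hKa, hKb, h3, h4, h5, h6⟩ := exists_good_N C a b Ls Lu ρ K hC h.a_pos h.a_lt
    h.b_pos h.b_lt h.Ls_le h.Lu_le hρ h1 h2 hK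
  obtain ⟨S, hg, hSa, hSb, hSLs, hSLu, hSK⟩ := exists_hypSys hiso he hinj h K hK hang N hKa hKb
  have haN : 0 < C * a ^ N := by positivity
  have hbN : 0 < C * b ^ N := by positivity
  have hLsN : 1 ≤ C * Ls ^ N := by
    have := one_le_pow₀ hLs (n := N)
    nlinarith
  have hLuN : 1 ≤ C * Lu ^ N := by
    have := one_le_pow₀ hLu (n := N)
    nlinarith
  set ms := ⌈4 * (C * Ls ^ N)⌉₊ with hms
  set mu := ⌈4 * (C * Lu ^ N)⌉₊ with hmu
  have hms1 : 4 * (C * Ls ^ N) ≤ ms := Nat.le_ceil _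
  have hmu1 : 4 * (C * Lu ^ N) ≤ mu := Nat.le_ceil _
  have hms2 : (ms : ℝ) ≤ 5 * C * Ls ^ N := by
    have := Nat.ceil_lt_add_one (by positivity : 0 ≤ 4 * (C * Ls ^ N))
    linarith
  have hmu2 : (mu : ℝ) ≤ 5 * C * Lu ^ N := by
    have := Nat.ceil_lt_add_one (by positivity : 0 ≤ 4 * (C * Lu ^ N))
    linarith
  have hgr := HypSys.growth_of_lt (2 * (C * a ^ N)) (2 * (C * b ^ N)) ms mu K ρ (by positivity)
    (by linarith) (by positivity) (by linarith) (by linarith) (by linarith) (by linarith) hρ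
    (by
      refine lt_of_le_of_lt ?_ h5
      exact mul_le_mul_of_nonneg_right hms2 (by positivity))
    (by
      refine lt_of_le_of_lt ?_ h6
      apply mul_le_mul_of_nonneg_right _ (by positivity)
      exact Real.rpow_le_rpow (by positivity) hmu2 (by linarith))
  obtain ⟨n, hn⟩ := S.transitive_of_growth (2 * (C * a ^ N)) (2 * (C * b ^ N))
    (by rw [hSa]; linarith) (by rw [hSb]; linarith) h3 h4 ms mu (by rw [hSLs]; exact hms1)
    (by rw [hSLu]; exact hmu1) (by rw [hSK]; exact hgr) U V hU hUn hV hVn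
  refine ⟨N * n, ?_⟩
  rw [hg] at hn
  rw [Function.iterate_mul]
  exact hn

end global

end Pool.Agent.H721R2
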