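import Pool.Agent.H721R2.Shadow

set_option autoImplicit false

namespace Pool.Agent.H721R2

namespace HypSys

variable {X E : Type*} [MetricSpace X] [NormedAddCommGroup E] [NormedSpace ℝ E]

open Filter Topology

/-- Points that stay close in the future are separated by an almost stable vector. -/
theorem coneS (S : HypSys X E) (η : ℝ) (hη : 0 < η) (hη1 : η ≤ 1) : ∃ ε₁ > 0, ∀ x y : X,
    S.SRel ε₁ x y → ∃ s ∈ S.Vs x, ∃ u ∈ S.Vu x,
      ‖S.e y - S.e x - (s + u)‖ ≤ η * dist x y ∧
      ‖S.e (S.g y) - S.e (S.g x) - S.D x (s + u)‖ ≤ η * dist x y ∧ ‖u‖ ≤ η * dist x y := by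
  have hK := S.one_le_K
  have hLu := S.one_le_Lu
  set K := S.K with hKdef
  set Lu := S.Lu with hLudef
  have hK0 : 0 < K := by linarith
  have hLu0 : 0 < Lu := by linarith
  set L := 2 * Lu * K with hL
  have hL0 : 0 < L := by positivity
  -- κ = K η' (1+L) ≤ η/4
  set η' := min (η / 4) (η / (4 * K * (1 + L))) with hη'
  have hη'0 : 0 < η' := lt_min (by positivity) (by positivity)
  have hη'1 : η' ≤ η / 4 := min_le_left _ _
  have hκ : K * η' * (1 + L) ≤ η / 4 := by
    have : η' ≤ η / (4 * K * (1 + L)) := min_le_right _ _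
    rw [le_div_iff₀ (by positivity)] at this
    nlinarith
  obtain ⟨r, hr, A1⟩ := S.A1 η' hη'0
  refine ⟨r / 2, by positivity, ?_⟩
  -- basic bounds
  have basic : ∀ x y : X, ∀ s ∈ S.Vs x, ∀ u ∈ S.Vu x,
      ‖S.e y - S.e x - (s + u)‖ ≤ η' * dist x y →
      ‖s‖ ≤ 5 / 4 * K * dist x y ∧ ‖u‖ ≤ 5 / 4 * K * dist x y := by
    intro x y s hs u hu h
    have h1 : ‖s + u‖ ≤ 5 / 4 * dist x y := by
      have h2 : ‖S.e y - S.e x‖ = dist x y := by rw [← S.isom, dist_comm]
      have h3 := norm_sub_le (S.e y - S.e x) (S.e y - S.e x - (s + u))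
      rw [sub_sub_cancel] at h3
      have : 0 ≤ dist x y := dist_nonneg
      nlinarith
    obtain ⟨h4, h5⟩ := S.angle x s hs u hu
    constructor
    · calc ‖s‖ ≤ K * ‖s + u‖ := h4
        _ ≤ K * (5 / 4 * dist x y) := mul_le_mul_of_nonneg_left h1 hK0.le
        _ = _ := by ring
    · calc ‖u‖ ≤ K * ‖s + u‖ := h5
        _ ≤ K * (5 / 4 * dist x y) := mul_le_mul_of_nonneg_left h1 hK0.le
        _ = _ := by ring
  have main : ∀ k : ℕ, ∀ x y : X, S.SRel (r / 2) x y → ∀ s ∈ S.Vs x, ∀ u ∈ S.Vu x,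
      ‖S.e y - S.e x - (s + u)‖ ≤ η' * dist x y →
      ‖S.e (S.g y) - S.e (S.g x) - S.D x (s + u)‖ ≤ η' * dist x y →
      η / 2 * dist x y < ‖u‖ → 2 ^ k * ‖u‖ ≤ K * r := by
    intro k
    induction k with
    | zero =>
      intro x y hxy s hs u hu h1 _ _
      have h3 := (basic x y s hs u hu h1).2
      have h4 := hxy.dist_le
      have : 5 / 4 * K * dist x y ≤ 5 / 4 * K * (r / 2) :=
        mul_le_mul_of_nonneg_left h4 (by positivity)
      have h5 : 0 ≤ K * r := by positivity
      rw [pow_zero, one_mul]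
      nlinarith
    | succ k ih =>
      intro x y hxy s hs u hu h1 h2 h3
      have hd0 : 0 ≤ dist x y := dist_nonneg
      have hxy1 := hxy.map
      have hlt : dist (S.g x) (S.g y) < r := lt_of_le_of_lt hxy1.dist_le (by linarith)
      obtain ⟨s1, hs1, u1, hu1, h4, h5⟩ := A1 _ _ hlt
      obtain ⟨hbs, hbu⟩ := basic x y s hs u hu h1
      -- |w1| ≤ L |w|
      have hDs : ‖S.D x s‖ ≤ S.a * ‖s‖ := S.contrS _ _ hs
      have hDu : ‖S.D x u‖ ≤ Lu * ‖u‖ := S.boundU _ _ hu
      have ha0 := S.a_nonneg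
      have haK : S.a * K ≤ 1 / 16 := by rw [mul_comm]; exact S.Ka
      have hDs' : ‖S.D x s‖ ≤ 5 / 64 * dist x y := by
        calc ‖S.D x s‖ ≤ S.a * ‖s‖ := hDs
          _ ≤ S.a * (5 / 4 * K * dist x y) := mul_le_mul_of_nonneg_left hbs ha0
          _ = 5 / 4 * (S.a * K) * dist x y := by ring
          _ ≤ 5 / 4 * (1 / 16) * dist x y := by
              apply mul_le_mul_of_nonneg_right _ hd0
              linarith
          _ = _ := by ring
      have hDu' : ‖S.D x u‖ ≤ 5 / 4 * (Lu * K) * dist x y := by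
        calc ‖S.D x u‖ ≤ Lu * ‖u‖ := hDu
          _ ≤ Lu * (5 / 4 * K * dist x y) := mul_le_mul_of_nonneg_left hbu hLu0.le
          _ = _ := by ring
      have hLK : 1 ≤ Lu * K := by nlinarith
      have hw1 : dist (S.g x) (S.g y) ≤ L * dist x y := by
        have e1 : dist (S.g x) (S.g y) = ‖S.e (S.g y) - S.e (S.g x)‖ := by
          rw [dist_comm, S.isom]
        have e2 : S.e (S.g y) - S.e (S.g x) =
            (S.e (S.g y) - S.e (S.g x) - S.D x (s + u)) + (S.D x s + S.D x u) := by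
          rw [map_add]; abel
        rw [e1, e2]
        have := norm_add_le (S.e (S.g y) - S.e (S.g x) - S.D x (s + u)) (S.D x s + S.D x u)
        have := norm_add_le (S.D x s) (S.D x u)
        have h6 : η' * dist x y ≤ 1 / 4 * dist x y :=
          mul_le_mul_of_nonneg_right (by linarith) hd0
        have h7 : 1 * dist x y ≤ (Lu * K) * dist x y := mul_le_mul_of_nonneg_right hLK hd0
        have h8 : L * dist x y = 2 * ((Lu * K) * dist x y) := by rw [hL]; ring
        rw [h8]
        nlinarith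
      -- comparison of decompositions
      have hcmp : ‖(s1 - S.D x s) + (u1 - S.D x u)‖ ≤ η' * (1 + L) * dist x y := by
        have e1 : (s1 - S.D x s) + (u1 - S.D x u) =
            (S.e (S.g y) - S.e (S.g x) - S.D x (s + u)) -
            (S.e (S.g y) - S.e (S.g x) - (s1 + u1)) := by
          rw [map_add]; abel
        rw [e1]
        have := norm_sub_le (S.e (S.g y) - S.e (S.g x) - S.D x (s + u))
          (S.e (S.g y) - S.e (S.g x) - (s1 + u1))
        have h6 : η' * dist (S.g x) (S.g y) ≤ η' * (L * dist x y) :=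
          mul_le_mul_of_nonneg_left hw1 hη'0.le
        nlinarith
      have ang := S.angle _ _ (Submodule.sub_mem _ hs1 (S.mapS _ _ hs)) _
        (Submodule.sub_mem _ hu1 (S.mapU _ _ hu))
      have hκd : K * (η' * (1 + L) * dist x y) ≤ η / 4 * dist x y := by
        have : K * (η' * (1 + L) * dist x y) = K * η' * (1 + L) * dist x y := by ring
        rw [this]
        exact mul_le_mul_of_nonneg_right hκ hd0
      have hs1' : ‖s1 - S.D x s‖ ≤ η / 4 * dist x y :=
        (ang.1.trans (mul_le_mul_of_nonneg_left hcmp hK0.le)).trans hκd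
      have hu1' : ‖u1 - S.D x u‖ ≤ η / 4 * dist x y :=
        (ang.2.trans (mul_le_mul_of_nonneg_left hcmp hK0.le)).trans hκd
      -- expansion of u
      have hexp : 16 * ‖u‖ ≤ ‖S.D x u‖ := by
        have h6 := S.contrU _ _ (S.mapU _ _ hu)
        rw [S.invU _ _ hu] at h6
        have h7 : S.b ≤ 1 / 16 := by
          have := S.Kb
          have hb := S.b_nonneg
          nlinarith
        have h8 : S.b * ‖S.D x u‖ ≤ 1 / 16 * ‖S.D x u‖ :=
          mul_le_mul_of_nonneg_right h7 (norm_nonneg _)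
        linarith
      have hu1low : 15 * ‖u‖ ≤ ‖u1‖ := by
        have h6 : ‖S.D x u‖ ≤ ‖u1‖ + ‖u1 - S.D x u‖ := by
          have := norm_sub_le u1 (u1 - S.D x u)
          rwa [sub_sub_cancel] at this
        have h7 := norm_nonneg u
        linarith
      have hs1up : ‖s1‖ ≤ 5 / 64 * dist x y + η / 4 * dist x y := by
        have h6 : ‖s1‖ ≤ ‖S.D x s‖ + ‖s1 - S.D x s‖ := by
          have := norm_add_le (S.D x s) (s1 - S.D x s)
          rwa [add_sub_cancel] at this
        linarith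
      have hw1up : dist (S.g x) (S.g y) ≤ 4 / 3 * (‖s1‖ + ‖u1‖) := by
        have e1 : dist (S.g x) (S.g y) = ‖S.e (S.g y) - S.e (S.g x)‖ := by
          rw [dist_comm, S.isom]
        have h6 := norm_add_le (S.e (S.g y) - S.e (S.g x) - (s1 + u1)) (s1 + u1)
        rw [sub_add_cancel, ← e1] at h6
        have h7 := norm_add_le s1 u1
        have h8 : η' * dist (S.g x) (S.g y) ≤ 1 / 4 * dist (S.g x) (S.g y) :=
          mul_le_mul_of_nonneg_right (by linarith) dist_nonneg
        linarith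
      have hcond : η / 2 * dist (S.g x) (S.g y) < ‖u1‖ := by
        have hupos : 0 < ‖u‖ := lt_of_le_of_lt (by positivity) h3
        have h6 : η / 2 * dist (S.g x) (S.g y) ≤ η / 2 * (4 / 3 * (‖s1‖ + ‖u1‖)) :=
          mul_le_mul_of_nonneg_left hw1up (by positivity)
        have h7 : η * ‖u1‖ ≤ 1 * ‖u1‖ := mul_le_mul_of_nonneg_right hη1 (norm_nonneg _)
        have h8 : η * ‖s1‖ ≤ η * (5 / 64 * dist x y + η / 4 * dist x y) :=
          mul_le_mul_of_nonneg_left hs1up hη.le
        have h9 : η * (5 / 64 * dist x y + η / 4 * dist x y) ≤ 2 / 3 * (η * dist x y) := by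
          have h91 : η * (η * dist x y) ≤ 1 * (η * dist x y) :=
            mul_le_mul_of_nonneg_right hη1 (by positivity)
          have h10 : 0 ≤ η * dist x y := by positivity
          have h92 : η * (5 / 64 * dist x y + η / 4 * dist x y) =
            5 / 64 * (η * dist x y) + 1 / 4 * (η * (η * dist x y)) := by ring
          rw [h92]
          linarith
        have h11 : η * dist x y < 2 * ‖u‖ := by
          have : η / 2 * dist x y = 1 / 2 * (η * dist x y) := by ring
          linarith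
        have h12 : η / 2 * (4 / 3 * (‖s1‖ + ‖u1‖)) = 2 / 3 * (η * ‖s1‖) + 2 / 3 * (η * ‖u1‖) := by
          ring
        rw [h12] at h6
        linarith
      have := ih _ _ hxy1 s1 hs1 u1 hu1 h4 h5 hcond
      rw [pow_succ]
      have h2k : (0 : ℝ) < 2 ^ k := by positivity
      have h6 : 2 ^ k * (2 * ‖u‖) ≤ 2 ^ k * ‖u1‖ := by
        apply mul_le_mul_of_nonneg_left _ h2k.le
        have := norm_nonneg u
        linarith
      calc 2 ^ k * 2 * ‖u‖ = 2 ^ k * (2 * ‖u‖) := by ring
        _ ≤ 2 ^ k * ‖u1‖ := h6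
        _ ≤ K * r := this
  intro x y hxy
  have hd0 : 0 ≤ dist x y := dist_nonneg
  have hlt : dist x y < r := lt_of_le_of_lt hxy.dist_le (by linarith)
  obtain ⟨s, hs, u, hu, h1, h2⟩ := A1 _ _ hlt
  refine ⟨s, hs, u, hu, ?_, ?_, ?_⟩
  · exact h1.trans (mul_le_mul_of_nonneg_right (by linarith) hd0)
  · exact h2.trans (mul_le_mul_of_nonneg_right (by linarith) hd0)
  · by_contra hcon
    push Not at hcon
    have hc : η / 2 * dist x y < ‖u‖ := lt_of_le_of_lt
      (mul_le_mul_of_nonneg_right (by linarith) hd0) hcon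
    have hupos : 0 < ‖u‖ := lt_of_le_of_lt (by positivity) hc
    have hall := fun k => main k x y hxy s hs u hu h1 h2 hc
    obtain ⟨k, hk⟩ := pow_unbounded_of_one_lt (K * r / ‖u‖) (by norm_num : (1 : ℝ) < 2)
    rw [div_lt_iff₀ hupos] at hk
    linarith [hall k]

/-- Contraction along the stable relation. -/
theorem contraction (S : HypSys X E) (c : ℝ) (hc : S.a < c) : ∃ ε₁ > 0, ∀ x y : X,
    S.SRel ε₁ x y → dist (S.g x) (S.g y) ≤ c * dist x y := by
  have hLu := S.one_le_Lu
  set η := min 1 ((c - S.a) / (2 + S.Lu)) with hη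
  have hη0 : 0 < η := lt_min one_pos (div_pos (by linarith) (by linarith))
  have hη1 : η ≤ 1 := min_le_left _ _
  have hη2 : η * (2 + S.Lu) ≤ c - S.a := by
    have : η ≤ (c - S.a) / (2 + S.Lu) := min_le_right _ _
    rwa [le_div_iff₀ (by linarith)] at this
  obtain ⟨ε₁, hε₁, h⟩ := S.coneS η hη0 hη1
  refine ⟨ε₁, hε₁, fun x y hxy => ?_⟩
  obtain ⟨s, hs, u, hu, h1, h2, h3⟩ := h x y hxy
  have hd0 : 0 ≤ dist x y := dist_nonneg
  have e1 : dist (S.g x) (S.g y) = ‖S.e (S.g y) - S.e (S.g x)‖ := by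
    rw [dist_comm, S.isom]
  have e0 : dist x y = ‖S.e y - S.e x‖ := by rw [dist_comm, S.isom]
  have h4 := S.contrS _ _ hs
  have h5 := S.boundU _ _ hu
  have h6 := norm_add_le (S.e (S.g y) - S.e (S.g x) - S.D x (s + u)) (S.D x (s + u))
  rw [sub_add_cancel, ← e1] at h6
  have hmap : S.D x (s + u) = S.D x s + S.D x u := map_add _ _ _
  rw [hmap] at h6 h2
  have h7 := norm_add_le (S.D x s) (S.D x u)
  have h8 : ‖s‖ ≤ (1 + 2 * η) * dist x y := by
    have e2 : s = (S.e y - S.e x) - (S.e y - S.e x - (s + u)) - u := by abel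
    have := norm_sub_le ((S.e y - S.e x) - (S.e y - S.e x - (s + u))) u
    have := norm_sub_le (S.e y - S.e x) (S.e y - S.e x - (s + u))
    rw [← e2] at *
    linarith
  have h9 : S.a * ‖s‖ ≤ S.a * ((1 + 2 * η) * dist x y) :=
    mul_le_mul_of_nonneg_left h8 S.a_nonneg
  have h10 : S.Lu * ‖u‖ ≤ S.Lu * (η * dist x y) := mul_le_mul_of_nonneg_left h3 (by linarith)
  have h11 : S.a ≤ 1 / 2 := by
    have := S.Ka
    have := S.one_le_K
    have := S.a_nonneg
    nlinarith
  have h12 : S.a * (η * dist x y) ≤ 1 / 2 * (η * dist x y) :=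
    mul_le_mul_of_nonneg_right h11 (by positivity)
  have h13 : η * (2 + S.Lu) * dist x y ≤ (c - S.a) * dist x y :=
    mul_le_mul_of_nonneg_right hη2 hd0
  have h14 : S.a * ((1 + 2 * η) * dist x y) = S.a * dist x y + 2 * (S.a * (η * dist x y)) := by
    ring
  have h15 : η * (2 + S.Lu) * dist x y = 2 * (η * dist x y) + S.Lu * (η * dist x y) := by ring
  have h16 : (c - S.a) * dist x y = c * dist x y - S.a * dist x y := by ring
  rw [h14] at h9
  rw [h15, h16] at h13
  linarith

/-- Lower bound along the stable relation. -/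
theorem contraction_lower (S : HypSys X E) : ∃ ε₁ > 0, ∀ x y : X,
    S.SRel ε₁ x y → dist x y ≤ 2 * S.Ls * dist (S.g x) (S.g y) := by
  have hLu := S.one_le_Lu
  have hLs := S.one_le_Ls
  set M := S.Ls * (S.Lu + 1) + 2 with hM
  have hM0 : 1 ≤ M := by nlinarith
  set η := 1 / (2 * M) with hη
  have hη0 : 0 < η := by positivity
  have hη1 : η ≤ 1 := by
    rw [hη, div_le_one (by positivity)]
    linarith
  have hη2 : η * M = 1 / 2 := by rw [hη]; field_simp
  obtain ⟨ε₁, hε₁, h⟩ := S.coneS η hη0 hη1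
  refine ⟨ε₁, hε₁, fun x y hxy => ?_⟩
  obtain ⟨s, hs, u, hu, h1, h2, h3⟩ := h x y hxy
  have hd0 : 0 ≤ dist x y := dist_nonneg
  have e1 : dist (S.g x) (S.g y) = ‖S.e (S.g y) - S.e (S.g x)‖ := by
    rw [dist_comm, S.isom]
  have e0 : dist x y = ‖S.e y - S.e x‖ := by rw [dist_comm, S.isom]
  have h4 := S.boundS _ _ (S.mapS _ _ hs)
  rw [S.invS _ _ hs] at h4
  have h5 := S.boundU _ _ hu
  have h6 : ‖S.D x s‖ ≤ dist (S.g x) (S.g y) + η * dist x y + ‖S.D x u‖ := by
    have e2 : S.D x s = (S.e (S.g y) - S.e (S.g x)) -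
        (S.e (S.g y) - S.e (S.g x) - S.D x (s + u)) - S.D x u := by rw [map_add]; abel
    have h7 := norm_sub_le ((S.e (S.g y) - S.e (S.g x)) -
        (S.e (S.g y) - S.e (S.g x) - S.D x (s + u))) (S.D x u)
    have h8 := norm_sub_le (S.e (S.g y) - S.e (S.g x))
        (S.e (S.g y) - S.e (S.g x) - S.D x (s + u))
    rw [← e2] at h7
    linarith
  have h7 : dist x y ≤ ‖s‖ + ‖u‖ + η * dist x y := by
    have h8 := norm_add_le (S.e y - S.e x - (s + u)) (s + u)
    rw [sub_add_cancel, ← e0] at h8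
    have h9 := norm_add_le s u
    linarith
  have h10 : S.Lu * ‖u‖ ≤ S.Lu * (η * dist x y) := mul_le_mul_of_nonneg_left h3 (by linarith)
  have h11 : S.Ls * ‖S.D x s‖ ≤ S.Ls * (dist (S.g x) (S.g y) + η * dist x y +
      S.Lu * (η * dist x y)) := mul_le_mul_of_nonneg_left (by linarith) (by linarith)
  have h12 : dist x y ≤ S.Ls * dist (S.g x) (S.g y) + η * M * dist x y := by
    rw [hM]
    nlinarith
  rw [hη2] at h12
  linarith

end HypSys

end Pool.Agent.H721R2
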