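import Pool.Agent.H721R2.CovSys

set_option autoImplicit false

open Set Filter Topology Metric

namespace Pool.Agent.H721R2

theorem Chain.pad {X : Type*} {R : X → X → Prop} (hR : ∀ x, R x x) {N M : ℕ} {x y : X}
    (h : Chain R N x y) (hNM : N ≤ M) : Chain R M x y := by
  obtain ⟨k, rfl⟩ := Nat.exists_eq_add_of_le hNM
  exact h.trans ⟨fun _ => y, rfl, rfl, fun i _ => hR y⟩

namespace Cov

variable {X : Type*} [MetricSpace X] {L : LC X} {x₀ : X}

theorem mk_cast {x x' : X} (h : x' = x) (c : Path.Homotopic.Quotient x₀ x) :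
    (⟨x', c.cast rfl h⟩ : Cov L x₀) = ⟨x, c⟩ := by
  subst h
  rw [Path.Homotopic.Quotient.cast_rfl_rfl]

theorem cast_trans_cast {x x' y y' : X} (h : x' = x) (h' : y' = y)
    (c : Path.Homotopic.Quotient x₀ x) (q : Path.Homotopic.Quotient x y) :
    (c.cast rfl h).trans (q.cast h h') = (c.trans q).cast rfl h' := by
  subst h
  subst h'
  rw [Path.Homotopic.Quotient.cast_rfl_rfl, Path.Homotopic.Quotient.cast_rfl_rfl,
    Path.Homotopic.Quotient.cast_rfl_rfl]

/-- Every path gives a chain of small steps in the cover. -/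
theorem chain_of_path (l : ℝ) (hl : 0 < l)
    (hL : ∀ (x y : X), dist x y < L.r → ∀ p : Path x y,
      (∀ t, p t ∈ ball x l) → Path.Homotopic.Quotient.mk p = L.w x y)
    {x y : X} (p : Path x y) (ε : ℝ) (hε : 0 < ε) :
    ∃ N : ℕ, ∀ c : Path.Homotopic.Quotient x₀ x,
      Chain (fun a b : Cov L x₀ => dist a b < ε) N ⟨x, c⟩
        ⟨y, c.trans (Path.Homotopic.Quotient.mk p)⟩ := by
  have huc := CompactSpace.uniformContinuous_of_continuous p.continuous
  obtain ⟨e, he, h1⟩ := Metric.uniformContinuous_iff.mp huc (min ε (min l L.r))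
    (lt_min hε (lt_min hl L.r_pos))
  obtain ⟨N, hN⟩ := exists_nat_one_div_lt he
  have hN0 : (0 : ℝ) < (N : ℝ) + 1 := by positivity
  let t : ℕ → unitInterval := fun i => ⟨min 1 ((i : ℝ) / ((N : ℝ) + 1)), by
    refine ⟨le_min zero_le_one (by positivity), min_le_left _ _⟩⟩
  have ht0 : t 0 = 0 := by
    apply Subtype.ext
    simp [t]
  have htN : t (N + 1) = 1 := by
    apply Subtype.ext
    show min 1 (((N + 1 : ℕ) : ℝ) / ((N : ℝ) + 1)) = 1
    push_cast
    rw [div_self hN0.ne', min_self]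
  have htt : ∀ i, t i ≤ t (i + 1) ∧ ((t (i + 1) : ℝ) - t i) < e := by
    intro i
    have h2 : ((i + 1 : ℕ) : ℝ) / ((N : ℝ) + 1) = (i : ℝ) / ((N : ℝ) + 1) + 1 / ((N : ℝ) + 1) := by
      push_cast; ring
    have h3 : 0 < 1 / ((N : ℝ) + 1) := by positivity
    constructor
    · show min 1 ((i : ℝ) / ((N : ℝ) + 1)) ≤ min 1 (((i + 1 : ℕ) : ℝ) / ((N : ℝ) + 1))
      apply min_le_min le_rfl
      rw [h2]; linarith
    · show min 1 (((i + 1 : ℕ) : ℝ) / ((N : ℝ) + 1)) - min 1 ((i : ℝ) / ((N : ℝ) + 1)) < e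
      rw [h2]
      rcases le_total 1 ((i : ℝ) / ((N : ℝ) + 1)) with h | h
      · rw [min_eq_left h, min_eq_left (by linarith)]
        linarith
      · rw [min_eq_right h]
        have := min_le_right 1 ((i : ℝ) / ((N : ℝ) + 1) + 1 / ((N : ℝ) + 1))
        linarith
  refine ⟨N + 1, fun c => ?_⟩
  let A : unitInterval → Cov L x₀ := fun s =>
    ⟨p s, (c.cast rfl p.source).trans (Path.Homotopic.Quotient.mk (p.subpath 0 s))⟩
  have hA0 : A 0 = ⟨x, c⟩ := by
    show (⟨p 0, (c.cast rfl p.source).trans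
      (Path.Homotopic.Quotient.mk (p.subpath 0 0))⟩ : Cov L x₀) = _
    rw [Path.subpath_self]
    have : (c.cast rfl p.source).trans (Path.Homotopic.Quotient.mk (Path.refl (p 0))) =
        c.cast rfl p.source := Path.Homotopic.Quotient.trans_refl _
    rw [this]
    exact mk_cast p.source c
  have hA1 : A 1 = ⟨y, c.trans (Path.Homotopic.Quotient.mk p)⟩ := by
    show (⟨p 1, (c.cast rfl p.source).trans
      (Path.Homotopic.Quotient.mk (p.subpath 0 1))⟩ : Cov L x₀) = _
    rw [Path.subpath_zero_one]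
    have : (c.cast rfl p.source).trans (Path.Homotopic.Quotient.mk
        (p.cast p.source p.target)) =
        (c.trans (Path.Homotopic.Quotient.mk p)).cast rfl p.target :=
      cast_trans_cast p.source p.target c (Path.Homotopic.Quotient.mk p)
    rw [this]
    exact mk_cast p.target _
  have hstep : ∀ s u : unitInterval, s ≤ u → ((u : ℝ) - s) < e → dist (A s) (A u) < ε := by
    intro s u hsu hlt
    have hd : ∀ v : unitInterval, s ≤ v → v ≤ u → dist (p v) (p s) < min ε (min l L.r) := by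
      intro v hv hv'
      apply h1
      rw [Subtype.dist_eq, Real.dist_eq, abs_of_nonneg]
      · have : (v : ℝ) ≤ u := hv'
        linarith
      · have : (s : ℝ) ≤ v := hv
        linarith
    have hd1 := hd u hsu le_rfl
    have hr : dist (p s) (p u) < L.r := by
      rw [dist_comm]
      exact lt_of_lt_of_le hd1 ((min_le_right _ _).trans (min_le_right _ _))
    have hw : Path.Homotopic.Quotient.mk (p.subpath s u) = L.w (p s) (p u) := by
      apply hL _ _ hr
      intro v
      have hv : p.subpath s u v ∈ range (p.subpath s u) := ⟨v, rfl⟩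
      rw [Path.range_subpath_of_le _ _ _ hsu] at hv
      obtain ⟨v', ⟨hv1, hv2⟩, hv3⟩ := hv
      rw [← hv3]
      exact lt_of_lt_of_le (hd v' hv1 hv2) ((min_le_right _ _).trans (min_le_left _ _))
    have hnear : Near (A s) (A u) := by
      refine ⟨hr, ?_⟩
      show (c.cast rfl p.source).trans (Path.Homotopic.Quotient.mk (p.subpath 0 u)) =
        ((c.cast rfl p.source).trans (Path.Homotopic.Quotient.mk (p.subpath 0 s))).trans
          (L.w (p s) (p u))
      rw [← hw, Path.Homotopic.Quotient.trans_assoc, ← Path.Homotopic.Quotient.mk_trans]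
      congr 1
      exact (Path.Homotopic.Quotient.eq.mpr ⟨Path.Homotopy.subpathTransSubpath p 0 s u⟩).symm
    rw [dist_of_near hnear]
    show dist (p s) (p u) < ε
    rw [dist_comm]
    exact lt_of_lt_of_le hd1 (min_le_left _ _)
  refine ⟨fun i => A (t i), ?_, ?_, fun i _ => hstep _ _ (htt i).1 (htt i).2⟩
  · show A (t 0) = _
    rw [ht0, hA0]
  · show A (t (N + 1)) = _
    rw [htN, hA1]

/-- Finite sets of loops: uniform chains. -/
theorem chain_of_finite (l : ℝ) (hl : 0 < l)
    (hL : ∀ (x y : X), dist x y < L.r → ∀ p : Path x y,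
      (∀ t, p t ∈ ball x l) → Path.Homotopic.Quotient.mk p = L.w x y)
    (S : Set (FundamentalGroup X x₀)) (hS : S.Finite) (ε : ℝ) (hε : 0 < ε) :
    ∃ N : ℕ, ∀ s ∈ S, ∀ c : Path.Homotopic.Quotient x₀ x₀,
      Chain (fun a b : Cov L x₀ => dist a b < ε) N ⟨x₀, c⟩
        ⟨x₀, c.trans s⟩ := by
  have hR : ∀ a : Cov L x₀, dist a a < ε := fun a => by rw [dist_self]; exact hε
  induction S, hS using Set.Finite.induction_on with
  | empty => exact ⟨0, fun s hs => absurd hs (Set.notMem_empty s)⟩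
  | @insert a S _ _ ih =>
    obtain ⟨N, hN⟩ := ih
    obtain ⟨p, hp⟩ : ∃ p : Path x₀ x₀, Path.Homotopic.Quotient.mk p = a :=
      Path.Homotopic.Quotient.mk_surjective a
    obtain ⟨N', hN'⟩ := chain_of_path (x₀ := x₀) l hl hL p ε hε
    refine ⟨max N N', fun s hs c => ?_⟩
    rcases Set.mem_insert_iff.mp hs with rfl | h
    · have := hN' c
      rw [hp] at this
      exact this.pad hR (le_max_right _ _)
    · exact (hN s h c).pad hR (le_max_left _ _)

open Pointwise in
theorem chain_of_pow (S : Set (FundamentalGroup X x₀)) (ε : ℝ) (N : ℕ)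
    (hN : ∀ s ∈ S, ∀ c : Path.Homotopic.Quotient x₀ x₀,
      Chain (fun a b : Cov L x₀ => dist a b < ε) N ⟨x₀, c⟩ ⟨x₀, c.trans s⟩)
    (n : ℕ) : ∀ γ ∈ S ^ n, Chain (fun a b : Cov L x₀ => dist a b < ε) (n * N)
      ⟨x₀, Path.Homotopic.Quotient.refl x₀⟩ ⟨x₀, γ⟩ := by
  induction n with
  | zero =>
    intro γ hγ
    rw [pow_zero, Set.mem_one] at hγ
    rw [hγ, zero_mul]
    exact Chain.refl _
  | succ n ih =>
    intro γ hγ
    rw [pow_succ'] at hγ
    obtain ⟨s, hs, γ', hγ', rfl⟩ := Set.mem_mul.mp hγ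
    have h1 := (ih γ' hγ').trans (hN s hs γ')
    rw [← Nat.succ_mul] at h1
    exact h1

end Cov

end Pool.Agent.H721R2
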