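import Pool.Agent.H721R2.Cover

set_option autoImplicit false

open Set Filter Topology Metric

namespace Pool.Agent.H721R2

namespace Cov

variable {X : Type*} [MetricSpace X] {L : LC X} {x₀ : X}

/-- The chain system lifts to the cover. -/
theorem exists_covSys (φ : X ≃ₜ X) (bt : Path.Homotopic.Quotient x₀ (φ x₀)) (T : CSys X)
    (hT : T.g = φ.toEquiv) (r₁ : ℝ) (hr₁ : r₁ ≤ L.r)
    (hnat : ∀ x y : X, dist x y < r₁ → dist (φ x) (φ y) < L.r ∧
      (L.w x y).map (φ : C(X, X)) = L.w (φ x) (φ y))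
    (hε : T.εs < r₁) (hms : T.ms * T.δ < L.r) (hmu : T.mu * T.δ < L.r) :
    ∃ T' : CSys (Cov L x₀), T'.g = gt φ bt ∧ T'.K = T.K ∧ T'.δ = T.δ ∧ T'.α = T.α ∧ T'.β = T.β ∧
      T'.ms = T.ms ∧ T'.mu = T.mu := by
  have hK := T.one_le_K
  have hK0 : 0 < T.K := by linarith
  have hδ0 := T.δ_pos
  have hKδ : T.δ ≤ T.K * T.δ := by nlinarith
  have hεb : 36 * (T.K * T.δ) + 2 * T.δ ≤ T.εs := by
    have := T.hδ
    linarith
  have hεr : T.εs < L.r := by linarith
  have hδr1 : T.δ < r₁ := by linarith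
  have hδr : T.δ < L.r := by linarith
  have hcS := T.contrS
  have hcU := T.contrU
  have hlp := T.lp
  have hsS := T.subS
  have hsU := T.subU
  rw [hT] at hcS hcU hlp hsS hsU
  change ∀ x y : X, FRel φ T.εs x y → ∀ k : ℕ, dist (φ^[k] x) (φ^[k] y) ≤ T.α ^ k * dist x y
    at hcS
  change ∀ x y : X, FRel φ.symm T.εs x y → ∀ k : ℕ,
    dist (φ.symm^[k] x) (φ.symm^[k] y) ≤ T.β ^ k * dist x y at hcU
  change ∀ x y : X, dist x y ≤ 2 * T.δ →
    ∃ z, FRel φ (9 * T.K * dist x y) x z ∧ FRel φ.symm (9 * T.K * dist x y) z y at hlp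
  change ∀ x y : X, FRel φ T.δ x y → Chain (FRel φ T.δ) T.ms (φ.symm x) (φ.symm y) at hsS
  change ∀ x y : X, FRel φ.symm T.δ x y → Chain (FRel φ.symm T.δ) T.mu (φ x) (φ y) at hsU
  refine ⟨{
    g := gt φ bt
    K := T.K
    δ := T.δ
    α := T.α
    β := T.β
    εs := T.εs
    ms := T.ms
    mu := T.mu
    one_le_K := T.one_le_K
    δ_pos := T.δ_pos
    α_pos := T.α_pos
    β_pos := T.β_pos
    α_le := T.α_le
    β_le := T.β_le
    hδ := T.hδ
    contrS := ?_
    contrU := ?_
    lp := ?_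
    subS := ?_
    subU := ?_ }, rfl, rfl, rfl, rfl, rfl, rfl, rfl⟩
  · intro a b hab k
    obtain ⟨h1, h2⟩ := frel_down φ bt hεr hab
    have h3 : Near ((gt φ bt)^[k] a) ((gt φ bt)^[k] b) :=
      near_of_dist_lt (lt_of_le_of_lt (hab k) hεr)
    rw [dist_of_near h3, dist_of_near h1, gt_iter_pt, gt_iter_pt]
    exact hcS _ _ h2 k
  · intro a b hab k
    obtain ⟨h1, h2⟩ := frel_symm_down φ bt hεr hab
    have h3 : Near ((gt φ bt).symm^[k] a) ((gt φ bt).symm^[k] b) :=
      near_of_dist_lt (lt_of_le_of_lt (hab k) hεr)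
    rw [dist_of_near h3, dist_of_near h1, gt_symm_iter_pt, gt_symm_iter_pt]
    exact hcU _ _ h2 k
  · intro a b hab
    have hn : Near a b := near_of_dist_lt (by
      have : 0 ≤ T.K * T.δ := by positivity
      linarith)
    rw [dist_of_near hn] at hab ⊢
    obtain ⟨z, hz1, hz2⟩ := hlp _ _ hab
    have h9 : 9 * T.K * dist a.pt b.pt ≤ 18 * (T.K * T.δ) := by
      have : 9 * T.K * dist a.pt b.pt ≤ 9 * T.K * (2 * T.δ) :=
        mul_le_mul_of_nonneg_left hab (by positivity)
      linarith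
    have h9r : 9 * T.K * dist a.pt b.pt < r₁ := by
      have : 0 ≤ T.K * T.δ := by positivity
      linarith
    have hn1 : Near a (a.lift z) := near_lift a z (lt_of_le_of_lt (hz1.dist_le) (by linarith))
    have hn2 : Near (a.lift z) b := by
      apply hn1.symm.trans hn
      exact lt_of_le_of_lt (hz2.dist_le) (by linarith)
    exact ⟨a.lift z, frel_lift φ bt r₁ hnat h9r hn1 hz1,
      frel_symm_lift φ bt r₁ hr₁ hnat h9r hn2 hz2⟩
  · intro a b hab
    obtain ⟨h1, h2⟩ := frel_down φ bt hδr hab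
    obtain ⟨c, hc0, hc1, hc⟩ := hsS _ _ h2
    obtain ⟨ct, ct0, ctS⟩ : ∃ ct : ℕ → Cov L x₀, ct 0 = (gt φ bt).symm a ∧
        ∀ i, ct (i + 1) = (ct i).lift (c (i + 1)) :=
      ⟨fun i => Nat.rec ((gt φ bt).symm a) (fun i d => d.lift (c (i + 1))) i, rfl, fun i => rfl⟩
    have ctpt : ∀ i, (ct i).pt = c i := by
      intro i
      cases i with
      | zero => rw [ct0, gt_symm_pt, hc0]
      | succ i => rw [ctS]; rfl
    have hrel : ∀ i < T.ms, FRel (gt φ bt) T.δ (ct i) (ct (i + 1)) := by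
      intro i hi
      have hci := hc i hi
      have hn : Near (ct i) (ct (i + 1)) := by
        rw [ctS]
        apply near_lift
        rw [ctpt]
        exact lt_of_le_of_lt hci.dist_le hδr
      apply frel_lift φ bt r₁ hnat hδr1 hn
      rw [ctpt, ctpt]
      exact hci
    have hnear : ∀ i ≤ T.ms, Near a (gt φ bt (ct i)) ∧ dist a.pt (φ (c i)) ≤ i * T.δ := by
      intro i
      induction i with
      | zero =>
        intro _
        rw [ct0, Equiv.apply_symm_apply, hc0, Homeomorph.apply_symm_apply]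
        refine ⟨Near.refl a, ?_⟩
        rw [dist_self]; simp
      | succ i ih =>
        intro hi
        obtain ⟨h3, h4⟩ := ih (by omega)
        have h5 := hrel i (by omega) 1
        have h6 := hc i (by omega) 1
        simp only [Function.iterate_one] at h5 h6
        have h7 : dist a.pt (φ (c (i + 1))) ≤ ((i + 1 : ℕ) : ℝ) * T.δ := by
          have := dist_triangle a.pt (φ (c i)) (φ (c (i + 1)))
          push_cast
          linarith
        refine ⟨h3.trans (near_of_dist_lt (lt_of_le_of_lt h5 hδr)) ?_, h7⟩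
        rw [gt_pt, ctpt]
        have h8 : ((i + 1 : ℕ) : ℝ) ≤ T.ms := by exact_mod_cast hi
        have h9 := mul_le_mul_of_nonneg_right h8 hδ0.le
        linarith
    refine ⟨ct, ct0, ?_, hrel⟩
    have h3 := (hnear _ le_rfl).1
    have h4 : (gt φ bt (ct T.ms)).pt = b.pt := by
      rw [gt_pt, ctpt, hc1, Homeomorph.apply_symm_apply]
    have h5 : Near (gt φ bt (ct T.ms)) b := by
      apply h3.symm.trans h1
      rw [h4, dist_self]; exact L.r_pos
    have h6 := h5.eq h4
    rw [← h6, Equiv.symm_apply_apply]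
  · intro a b hab
    obtain ⟨h1, h2⟩ := frel_symm_down φ bt hδr hab
    obtain ⟨c, hc0, hc1, hc⟩ := hsU _ _ h2
    obtain ⟨ct, ct0, ctS⟩ : ∃ ct : ℕ → Cov L x₀, ct 0 = gt φ bt a ∧
        ∀ i, ct (i + 1) = (ct i).lift (c (i + 1)) :=
      ⟨fun i => Nat.rec (gt φ bt a) (fun i d => d.lift (c (i + 1))) i, rfl, fun i => rfl⟩
    have ctpt : ∀ i, (ct i).pt = c i := by
      intro i
      cases i with
      | zero => rw [ct0, gt_pt, hc0]
      | succ i => rw [ctS]; rfl
    have hrel : ∀ i < T.mu, FRel (gt φ bt).symm T.δ (ct i) (ct (i + 1)) := by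
      intro i hi
      have hci := hc i hi
      have hn : Near (ct i) (ct (i + 1)) := by
        rw [ctS]
        apply near_lift
        rw [ctpt]
        exact lt_of_le_of_lt hci.dist_le hδr
      apply frel_symm_lift φ bt r₁ hr₁ hnat hδr1 hn
      rw [ctpt, ctpt]
      exact hci
    have hnear : ∀ i ≤ T.mu, Near a ((gt φ bt).symm (ct i)) ∧
        dist a.pt (φ.symm (c i)) ≤ i * T.δ := by
      intro i
      induction i with
      | zero =>
        intro _
        rw [ct0, Equiv.symm_apply_apply, hc0, Homeomorph.symm_apply_apply]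
        refine ⟨Near.refl a, ?_⟩
        rw [dist_self]; simp
      | succ i ih =>
        intro hi
        obtain ⟨h3, h4⟩ := ih (by omega)
        have h5 := hrel i (by omega) 1
        have h6 := hc i (by omega) 1
        simp only [Function.iterate_one] at h5 h6
        have h7 : dist a.pt (φ.symm (c (i + 1))) ≤ ((i + 1 : ℕ) : ℝ) * T.δ := by
          have := dist_triangle a.pt (φ.symm (c i)) (φ.symm (c (i + 1)))
          push_cast
          linarith
        refine ⟨h3.trans (near_of_dist_lt (lt_of_le_of_lt h5 hδr)) ?_, h7⟩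
        rw [gt_symm_pt, ctpt]
        have h8 : ((i + 1 : ℕ) : ℝ) ≤ T.mu := by exact_mod_cast hi
        have h9 := mul_le_mul_of_nonneg_right h8 hδ0.le
        linarith
    refine ⟨ct, ct0, ?_, hrel⟩
    have h3 := (hnear _ le_rfl).1
    have h4 : ((gt φ bt).symm (ct T.mu)).pt = b.pt := by
      rw [gt_symm_pt, ctpt, hc1, Homeomorph.symm_apply_apply]
    have h5 : Near ((gt φ bt).symm (ct T.mu)) b := by
      apply h3.symm.trans h1
      rw [h4, dist_self]; exact L.r_pos
    have h6 := h5.eq h4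
    rw [← h6, Equiv.apply_symm_apply]

end Cov

end Pool.Agent.H721R2
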