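import Mathlib

set_option autoImplicit false

open Set Filter Topology Metric

namespace Pool.Agent.H721R2

/-- Local path classes on a metric space: a class `w x y` for all pairs of points, multiplicative
for pairs at distance less than `r`. -/
structure LC (X : Type*) [MetricSpace X] where
  r : ℝ
  r_pos : 0 < r
  w : ∀ x y : X, Path.Homotopic.Quotient x y
  comp : ∀ x y z : X, dist x y < r → dist y z < r → dist x z < r →
    (w x y).trans (w y z) = w x z

namespace LC

variable {X : Type*} [MetricSpace X] (L : LC X)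

theorem self (x : X) : L.w x x = Path.Homotopic.Quotient.refl x := by
  have h0 : dist x x < L.r := by rw [dist_self]; exact L.r_pos
  have h := L.comp x x x h0 h0 h0
  have h2 : ((L.w x x).symm).trans ((L.w x x).trans (L.w x x)) =
      (L.w x x).symm.trans (L.w x x) := by rw [h]
  rw [← Path.Homotopic.Quotient.trans_assoc, Path.Homotopic.Quotient.symm_trans,
    Path.Homotopic.Quotient.refl_trans] at h2
  exact h2

theorem w_symm {x y : X} (h : dist x y < L.r) : L.w y x = (L.w x y).symm := by
  have h0 : dist x x < L.r := by rw [dist_self]; exact L.r_pos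
  have h1 := L.comp x y x h (by rwa [dist_comm]) h0
  rw [L.self] at h1
  have h2 : ((L.w x y).symm).trans ((L.w x y).trans (L.w y x)) =
      (L.w x y).symm.trans (Path.Homotopic.Quotient.refl x) := by rw [h1]
  rw [← Path.Homotopic.Quotient.trans_assoc, Path.Homotopic.Quotient.symm_trans,
    Path.Homotopic.Quotient.refl_trans, Path.Homotopic.Quotient.trans_refl] at h2
  exact h2

end LC

section

variable {X : Type*} [MetricSpace X] [CompactSpace X]

/-- uniform version of semilocal simple connectedness -/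
theorem exists_unif_slsc
    (hs : ∀ x : X, ∃ V ∈ 𝓝 x, ∀ (y z : X) (p q : Path y z), (∀ t, p t ∈ V) → (∀ t, q t ∈ V) →
      p.Homotopic q) :
    ∃ l > 0, ∀ x : X, ∀ (y z : X) (p q : Path y z), (∀ t, p t ∈ ball x l) →
      (∀ t, q t ∈ ball x l) → p.Homotopic q := by
  choose V hV hVp using hs
  obtain ⟨l, hl, h⟩ := lebesgue_number_lemma_of_metric (s := (univ : Set X)) isCompact_univ
    (c := fun x => interior (V x)) (fun x => isOpen_interior)
    (fun x _ => mem_iUnion.mpr ⟨x, mem_interior_iff_mem_nhds.mpr (hV x)⟩)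
  refine ⟨l, hl, fun x y z p q hp hq => ?_⟩
  obtain ⟨i, hi⟩ := h x trivial
  exact hVp i y z p q (fun t => interior_subset (hi (hp t))) (fun t => interior_subset (hi (hq t)))

theorem exists_unif_path [LocallyPathConnectedSpace X] (ε : ℝ) (hε : 0 < ε) :
    ∃ δ > 0, ∀ x y : X, dist x y < δ → ∃ p : Path x y, ∀ t, p t ∈ ball x ε := by
  have hb : ∀ x : X, ∃ V : Set X, IsPathConnected V ∧ V ∈ 𝓝 x ∧ V ⊆ ball x (ε / 2) := by
    intro x
    obtain ⟨V, ⟨hV1, hV2⟩, hV3⟩ := (LocallyPathConnectedSpace.path_connected_basis x).mem_iff.mp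
      (ball_mem_nhds x (half_pos hε))
    exact ⟨V, hV2, hV1, hV3⟩
  choose V hVp hVn hVb using hb
  obtain ⟨l, hl, h⟩ := lebesgue_number_lemma_of_metric (s := (univ : Set X)) isCompact_univ
    (c := fun x => interior (V x)) (fun x => isOpen_interior)
    (fun x _ => mem_iUnion.mpr ⟨x, mem_interior_iff_mem_nhds.mpr (hVn x)⟩)
  refine ⟨l, hl, fun x y hxy => ?_⟩
  obtain ⟨i, hi⟩ := h x trivial
  have hx : x ∈ V i := interior_subset (hi (mem_ball_self hl))
  have hy : y ∈ V i := interior_subset (hi (by rwa [mem_ball, dist_comm]))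
  obtain ⟨p, hp⟩ := (hVp i).joinedIn x hx y hy
  refine ⟨p, fun t => ?_⟩
  have h1 := hVb i (hp t)
  have h2 := hVb i hx
  rw [mem_ball] at h1 h2 ⊢
  have := dist_triangle_right (p t) x i
  linarith

/-- The bundle of data: local classes together with their characteristic property. -/
theorem exists_LC [LocallyPathConnectedSpace X] [PathConnectedSpace X]
    (hs : ∀ x : X, ∃ V ∈ 𝓝 x, ∀ (y z : X) (p q : Path y z), (∀ t, p t ∈ V) → (∀ t, q t ∈ V) →
      p.Homotopic q) :
    ∃ (L : LC X) (l : ℝ), 0 < l ∧ L.r ≤ l ∧ ∀ (x y : X), dist x y < L.r → ∀ p : Path x y,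
      (∀ t, p t ∈ ball x l) → Path.Homotopic.Quotient.mk p = L.w x y := by
  obtain ⟨l, hl, hsl⟩ := exists_unif_slsc hs
  obtain ⟨δ, hδ, hp⟩ := exists_unif_path (X := X) (l / 4) (by positivity)
  set r := min δ (l / 4) with hr
  have hr0 : 0 < r := lt_min hδ (by positivity)
  have hrδ : r ≤ δ := min_le_left _ _
  have hrl : r ≤ l / 4 := min_le_right _ _
  have hex : ∀ x y : X, ∃ p : Path x y, dist x y < r → ∀ t, p t ∈ ball x (l / 4) := by
    intro x y
    by_cases h : dist x y < r
    · obtain ⟨p, h1⟩ := hp x y (lt_of_lt_of_le h hrδ)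
      exact ⟨p, fun _ => h1⟩
    · exact ⟨PathConnectedSpace.somePath x y, fun h' => absurd h' h⟩
  choose P hP using hex
  have key : ∀ x y z : X, dist x y < r → dist x z < l / 2 → ∀ p : Path x y,
      (∀ t, p t ∈ ball z l) → Path.Homotopic.Quotient.mk p =
        Path.Homotopic.Quotient.mk (P x y) := by
    intro x y z hxy hxz p hpz
    rw [Path.Homotopic.Quotient.eq]
    apply hsl z x y p (P x y) hpz
    intro t
    have h1 := hP x y hxy t
    rw [mem_ball] at h1 ⊢
    have := dist_triangle (P x y t) x z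
    linarith
  refine ⟨⟨r, hr0, fun x y => Path.Homotopic.Quotient.mk (P x y), ?_⟩, l, hl, by
    show r ≤ l; linarith, ?_⟩
  · intro x y z hxy hyz hxz
    rw [← Path.Homotopic.Quotient.mk_trans]
    apply key x z x hxz (by rw [dist_self]; positivity)
    intro t
    rw [Path.trans_apply]
    split_ifs with h
    · exact ball_subset_ball (by linarith) (hP x y hxy _)
    · have h1 := hP y z hyz ⟨2 * (t : ℝ) - 1, unitInterval.two_mul_sub_one_mem_iff.mpr
        ⟨(not_le.mp h).le, t.2.2⟩⟩
      rw [mem_ball] at h1 ⊢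
      have h2 := dist_triangle ((P y z) ⟨2 * (t : ℝ) - 1, unitInterval.two_mul_sub_one_mem_iff.mpr
        ⟨(not_le.mp h).le, t.2.2⟩⟩) y x
      rw [dist_comm y x] at h2
      linarith
  · intro x y hxy p hpx
    exact key x y x hxy (by rw [dist_self]; positivity) p hpx

/-- Naturality of the local classes. -/
theorem exists_nat [LocallyPathConnectedSpace X] (L : LC X) (l : ℝ) (hl : 0 < l)
    (hL : ∀ (x y : X), dist x y < L.r → ∀ p : Path x y,
      (∀ t, p t ∈ ball x l) → Path.Homotopic.Quotient.mk p = L.w x y) (g : C(X, X)) :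
    ∃ r₁ > 0, r₁ ≤ L.r ∧ ∀ x y : X, dist x y < r₁ → dist (g x) (g y) < L.r ∧
      (L.w x y).map g = L.w (g x) (g y) := by
  have huc := CompactSpace.uniformContinuous_of_continuous g.continuous
  obtain ⟨e1, he1, h1⟩ := Metric.uniformContinuous_iff.mp huc (min l L.r) (lt_min hl L.r_pos)
  obtain ⟨e2, he2, h2⟩ := exists_unif_path (X := X) (min e1 l) (lt_min he1 hl)
  refine ⟨min (min e1 e2) L.r, lt_min (lt_min he1 he2) L.r_pos, min_le_right _ _,
    fun x y hxy => ?_⟩
  have hxy1 : dist x y < e1 := lt_of_lt_of_le hxy ((min_le_left _ _).trans (min_le_left _ _))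
  have hxy2 : dist x y < e2 := lt_of_lt_of_le hxy ((min_le_left _ _).trans (min_le_right _ _))
  have hxy3 : dist x y < L.r := lt_of_lt_of_le hxy (min_le_right _ _)
  have hg := h1 hxy1
  have hg2 : dist (g x) (g y) < L.r := lt_of_lt_of_le hg (min_le_right _ _)
  refine ⟨hg2, ?_⟩
  obtain ⟨p, hp⟩ := h2 x y hxy2
  rw [← hL x y hxy3 p (fun t => ball_subset_ball (min_le_right _ _) (hp t))]
  have h3 : (Path.Homotopic.Quotient.mk p).map g =
      Path.Homotopic.Quotient.mk (p.map g.continuous) := rfl
  rw [h3]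
  apply hL _ _ hg2
  intro t
  have h4 : dist (p t) x < e1 := lt_of_lt_of_le (hp t) (min_le_left _ _)
  have h5 := h1 h4
  rw [mem_ball]
  exact lt_of_lt_of_le h5 (min_le_left _ _)

end

end Pool.Agent.H721R2
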