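import Pool.Agent.H721R2.CSys
import Pool.Agent.H721R2.LocPath

set_option autoImplicit false

open Set Filter Topology Metric

namespace Pool.Agent.H721R2

section maps

variable {X : Type*} [TopologicalSpace X]

theorem quot_map_mk (g : C(X, X)) {x y : X} (p : Path x y) :
    (Path.Homotopic.Quotient.mk p).map g = Path.Homotopic.Quotient.mk (p.map g.continuous) := rfl

theorem quot_map_trans (g : C(X, X)) {x y z : X} (p : Path.Homotopic.Quotient x y)
    (q : Path.Homotopic.Quotient y z) : (p.trans q).map g = (p.map g).trans (q.map g) := by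
  induction p using Path.Homotopic.Quotient.ind with
  | mk p =>
  induction q using Path.Homotopic.Quotient.ind with
  | mk q =>
  rw [← Path.Homotopic.Quotient.mk_trans, quot_map_mk, quot_map_mk, quot_map_mk,
    ← Path.Homotopic.Quotient.mk_trans, Path.map_trans]

theorem quot_map_surj (g : X ≃ₜ X) (x y : X) :
    Function.Surjective (fun c : Path.Homotopic.Quotient x y => c.map (g : C(X, X))) := by
  intro q
  induction q using Path.Homotopic.Quotient.ind with
  | mk q =>
  let p : Path x y :=
    { toFun := fun t => g.symm (q t)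
      continuous_toFun := g.symm.continuous.comp q.continuous
      source' := by
        have := q.source
        simp only [this]
        exact g.symm_apply_apply x
      target' := by
        have := q.target
        simp only [this]
        exact g.symm_apply_apply y }
  refine ⟨Path.Homotopic.Quotient.mk p, ?_⟩
  show Path.Homotopic.Quotient.mk _ = _
  congr 1
  ext t
  show g (g.symm (q t)) = q t
  exact g.apply_symm_apply _

theorem quot_map_inj (g : X ≃ₜ X) (x y : X) :
    Function.Injective (fun c : Path.Homotopic.Quotient x y => c.map (g : C(X, X))) := by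
  have key : ∀ c : Path.Homotopic.Quotient x y,
      ((c.map (g : C(X, X))).map (g.symm : C(X, X))).cast (g.symm_apply_apply x).symm
        (g.symm_apply_apply y).symm = c := by
    intro c
    induction c using Path.Homotopic.Quotient.ind with
    | mk p =>
    rw [quot_map_mk, quot_map_mk]
    show Path.Homotopic.Quotient.mk _ = _
    congr 1
    ext t
    show g.symm (g (p t)) = p t
    exact g.symm_apply_apply _
  intro c c' h
  have h1 : c.map (g : C(X, X)) = c'.map (g : C(X, X)) := h
  rw [← key c, ← key c', h1]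

theorem quot_trans_left_cancel {x y z : X} (p : Path.Homotopic.Quotient x y)
    {q q' : Path.Homotopic.Quotient y z} (h : p.trans q = p.trans q') : q = q' := by
  have h1 : p.symm.trans (p.trans q) = p.symm.trans (p.trans q') := by rw [h]
  rwa [← Path.Homotopic.Quotient.trans_assoc, ← Path.Homotopic.Quotient.trans_assoc,
    Path.Homotopic.Quotient.symm_trans, Path.Homotopic.Quotient.refl_trans,
    Path.Homotopic.Quotient.refl_trans] at h1

theorem quot_trans_right_cancel {x y z : X} {p p' : Path.Homotopic.Quotient x y}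
    (q : Path.Homotopic.Quotient y z) (h : p.trans q = p'.trans q) : p = p' := by
  have h1 : (p.trans q).trans q.symm = (p'.trans q).trans q.symm := by rw [h]
  rwa [Path.Homotopic.Quotient.trans_assoc, Path.Homotopic.Quotient.trans_assoc,
    Path.Homotopic.Quotient.trans_symm, Path.Homotopic.Quotient.trans_refl,
    Path.Homotopic.Quotient.trans_refl] at h1

end maps

variable {X : Type*} [MetricSpace X]

/-- Points of the universal cover: a point together with a class of paths from `x₀`. -/
@[ext]
structure Cov (L : LC X) (x₀ : X) where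
  pt : X
  cls : Path.Homotopic.Quotient x₀ pt

namespace Cov

variable {L : LC X} {x₀ : X}

/-- The two lifts lie on the same local sheet. -/
def Near (a b : Cov L x₀) : Prop :=
  dist a.pt b.pt < L.r ∧ b.cls = a.cls.trans (L.w a.pt b.pt)

theorem Near.refl (a : Cov L x₀) : Near a a :=
  ⟨by rw [dist_self]; exact L.r_pos, by rw [L.self, Path.Homotopic.Quotient.trans_refl]⟩

theorem Near.symm {a b : Cov L x₀} (h : Near a b) : Near b a := by
  refine ⟨by rw [dist_comm]; exact h.1, ?_⟩
  rw [h.2, L.w_symm h.1, Path.Homotopic.Quotient.trans_assoc,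
    Path.Homotopic.Quotient.trans_symm, Path.Homotopic.Quotient.trans_refl]

theorem Near.trans {a b c : Cov L x₀} (h : Near a b) (h' : Near b c)
    (hd : dist a.pt c.pt < L.r) : Near a c := by
  refine ⟨hd, ?_⟩
  rw [h'.2, h.2, Path.Homotopic.Quotient.trans_assoc, L.comp _ _ _ h.1 h'.1 hd]

theorem Near.eq {a b : Cov L x₀} (h : Near a b) (hpt : a.pt = b.pt) : a = b := by
  obtain ⟨x, c⟩ := a
  obtain ⟨y, c'⟩ := b
  obtain rfl : x = y := hpt
  have h2 := h.2
  simp only at h2
  rw [L.self, Path.Homotopic.Quotient.trans_refl] at h2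
  rw [h2]

open Classical in
noncomputable instance : MetricSpace (Cov L x₀) where
  dist a b := if Near a b then dist a.pt b.pt else L.r
  dist_self a := by rw [if_pos (Near.refl a), dist_self]
  dist_comm a b := by
    by_cases h : Near a b
    · rw [if_pos h, if_pos h.symm, dist_comm]
    · rw [if_neg h, if_neg (fun h' => h h'.symm)]
  dist_triangle a b c := by
    have hr := L.r_pos
    by_cases h1 : Near a b
    · by_cases h2 : Near b c
      · rw [if_pos h1, if_pos h2]
        have htr := dist_triangle a.pt b.pt c.pt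
        by_cases h3 : dist a.pt c.pt < L.r
        · rw [if_pos (h1.trans h2 h3)]
          exact htr
        · rw [if_neg (fun h => h3 h.1)]
          linarith
      · rw [if_neg h2, if_pos h1]
        split_ifs with h
        · have := h.1
          have := dist_nonneg (x := a.pt) (y := b.pt)
          linarith
        · have := dist_nonneg (x := a.pt) (y := b.pt)
          linarith
    · rw [if_neg h1]
      have h4 : (0 : ℝ) ≤ if Near b c then dist b.pt c.pt else L.r := by
        split_ifs
        · exact dist_nonneg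
        · exact hr.le
      split_ifs at h4 ⊢ with h h' h'
      · have := h.1; linarith
      · have := h.1; linarith
      · linarith
      · linarith
  eq_of_dist_eq_zero {a b} h := by
    by_cases h1 : Near a b
    · rw [if_pos h1] at h
      exact h1.eq (eq_of_dist_eq_zero h)
    · rw [if_neg h1] at h
      exact absurd h L.r_pos.ne'

theorem dist_of_near {a b : Cov L x₀} (h : Near a b) : dist a b = dist a.pt b.pt := if_pos h

theorem dist_of_not_near {a b : Cov L x₀} (h : ¬ Near a b) : dist a b = L.r := if_neg h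

theorem near_of_dist_lt {a b : Cov L x₀} (h : dist a b < L.r) : Near a b := by
  by_contra h1
  rw [dist_of_not_near h1] at h
  exact lt_irrefl _ h

theorem eq_of_dist_lt {a b : Cov L x₀} (h : dist a b < L.r) (hpt : a.pt = b.pt) : a = b :=
  (near_of_dist_lt h).eq hpt

/-- the lift of a nearby point -/
noncomputable def lift (a : Cov L x₀) (y : X) : Cov L x₀ := ⟨y, a.cls.trans (L.w a.pt y)⟩

theorem near_lift (a : Cov L x₀) (y : X) (h : dist a.pt y < L.r) : Near a (a.lift y) := ⟨h, rfl⟩

/-- The lift of a homeomorphism. -/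
noncomputable def gfun (g : X ≃ₜ X) (bt : Path.Homotopic.Quotient x₀ (g x₀)) (a : Cov L x₀) :
    Cov L x₀ := ⟨g a.pt, bt.trans (a.cls.map (g : C(X, X)))⟩

theorem gfun_bij (g : X ≃ₜ X) (bt : Path.Homotopic.Quotient x₀ (g x₀)) :
    Function.Bijective (gfun (L := L) g bt) := by
  constructor
  · rintro ⟨x, c⟩ ⟨y, c'⟩ h
    have h1 : g x = g y := congrArg Cov.pt h
    obtain rfl : x = y := g.injective h1
    have h2 : bt.trans (c.map (g : C(X, X))) = bt.trans (c'.map (g : C(X, X))) := by
      simpa [gfun] using h
    have h3 := quot_map_inj g _ _ (quot_trans_left_cancel bt h2)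
    rw [h3]
  · rintro ⟨y, c'⟩
    obtain ⟨x, rfl⟩ := g.surjective y
    obtain ⟨c, hc⟩ := quot_map_surj g x₀ x (bt.symm.trans c')
    refine ⟨⟨x, c⟩, ?_⟩
    have h1 : c.map (g : C(X, X)) = bt.symm.trans c' := hc
    show (⟨g x, bt.trans (c.map (g : C(X, X)))⟩ : Cov L x₀) = ⟨g x, c'⟩
    rw [h1, ← Path.Homotopic.Quotient.trans_assoc, Path.Homotopic.Quotient.trans_symm,
      Path.Homotopic.Quotient.refl_trans]

/-- The lift of a homeomorphism, as an equivalence. -/
noncomputable def gt (g : X ≃ₜ X) (bt : Path.Homotopic.Quotient x₀ (g x₀)) :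
    Cov L x₀ ≃ Cov L x₀ := Equiv.ofBijective _ (gfun_bij g bt)

theorem gt_pt (g : X ≃ₜ X) (bt : Path.Homotopic.Quotient x₀ (g x₀)) (a : Cov L x₀) :
    (gt g bt a).pt = g a.pt := rfl

theorem gt_cls (g : X ≃ₜ X) (bt : Path.Homotopic.Quotient x₀ (g x₀)) (a : Cov L x₀) :
    (gt g bt a).cls = bt.trans (a.cls.map (g : C(X, X))) := rfl

theorem gt_symm_pt (g : X ≃ₜ X) (bt : Path.Homotopic.Quotient x₀ (g x₀)) (a : Cov L x₀) :
    ((gt g bt).symm a).pt = g.symm a.pt := by
  obtain ⟨b, rfl⟩ := (gt g bt).surjective a
  rw [Equiv.symm_apply_apply, gt_pt, Homeomorph.symm_apply_apply]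

theorem gt_iter_pt (g : X ≃ₜ X) (bt : Path.Homotopic.Quotient x₀ (g x₀)) (k : ℕ) (a : Cov L x₀) :
    ((gt g bt)^[k] a).pt = g^[k] a.pt := by
  induction k with
  | zero => rfl
  | succ k ih => rw [Function.iterate_succ_apply', Function.iterate_succ_apply', gt_pt, ih]

theorem gt_symm_iter_pt (g : X ≃ₜ X) (bt : Path.Homotopic.Quotient x₀ (g x₀)) (k : ℕ)
    (a : Cov L x₀) : ((gt g bt).symm^[k] a).pt = g.symm^[k] a.pt := by
  induction k with
  | zero => rfl
  | succ k ih => rw [Function.iterate_succ_apply', Function.iterate_succ_apply', gt_symm_pt, ih]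

section near

variable (g : X ≃ₜ X) (bt : Path.Homotopic.Quotient x₀ (g x₀)) (r₁ : ℝ) (hr₁ : r₁ ≤ L.r)
  (hnat : ∀ x y : X, dist x y < r₁ → dist (g x) (g y) < L.r ∧
      (L.w x y).map (g : C(X, X)) = L.w (g x) (g y))

include hnat in
theorem near_map {a b : Cov L x₀} (h : Near a b) (hd : dist a.pt b.pt < r₁) :
    Near (gt g bt a) (gt g bt b) := by
  obtain ⟨h1, h2⟩ := hnat _ _ hd
  refine ⟨h1, ?_⟩
  show bt.trans (b.cls.map (g : C(X, X))) =
    (bt.trans (a.cls.map (g : C(X, X)))).trans (L.w (g a.pt) (g b.pt))
  rw [← h2, Path.Homotopic.Quotient.trans_assoc]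
  have h3 : b.cls.map (g : C(X, X)) = (a.cls.map (g : C(X, X))).trans
      ((L.w a.pt b.pt).map (g : C(X, X))) := by
    rw [← quot_map_trans]
    exact congrArg _ h.2
  exact congrArg _ h3

include hnat hr₁ in
theorem near_symm {a b : Cov L x₀} (h : Near a b) (hd : dist (g.symm a.pt) (g.symm b.pt) < r₁) :
    Near ((gt g bt).symm a) ((gt g bt).symm b) := by
  obtain ⟨a', rfl⟩ := (gt g bt).surjective a
  obtain ⟨b', rfl⟩ := (gt g bt).surjective b
  rw [Equiv.symm_apply_apply, Equiv.symm_apply_apply]
  rw [gt_pt, gt_pt, Homeomorph.symm_apply_apply, Homeomorph.symm_apply_apply] at hd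
  have h1 : Near a' (a'.lift b'.pt) := near_lift a' b'.pt (by linarith)
  have h2 := near_map g bt r₁ hnat h1 hd
  have h3 : gt g bt (a'.lift b'.pt) = gt g bt b' := by
    have h4 : Near (gt g bt (a'.lift b'.pt)) (gt g bt b') := by
      apply h2.symm.trans h
      show dist (g b'.pt) (g b'.pt) < L.r
      rw [dist_self]; exact L.r_pos
    exact h4.eq rfl
  have h5 := (gt g bt).injective h3
  rwa [h5] at h1

include hnat in
theorem frel_lift {ε : ℝ} (hε : ε < r₁) {a b : Cov L x₀} (h : Near a b)
    (hf : FRel g ε a.pt b.pt) : FRel (gt (L := L) g bt) ε a b := by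
  have key : ∀ k : ℕ, Near ((gt g bt)^[k] a) ((gt g bt)^[k] b) := by
    intro k
    induction k with
    | zero => exact h
    | succ k ih =>
      rw [Function.iterate_succ_apply', Function.iterate_succ_apply']
      apply near_map g bt r₁ hnat ih
      rw [gt_iter_pt, gt_iter_pt]
      exact lt_of_le_of_lt (hf k) hε
  intro k
  rw [dist_of_near (key k), gt_iter_pt, gt_iter_pt]
  exact hf k

include hnat hr₁ in
theorem frel_symm_lift {ε : ℝ} (hε : ε < r₁) {a b : Cov L x₀} (h : Near a b)
    (hf : FRel g.symm ε a.pt b.pt) : FRel (gt (L := L) g bt).symm ε a b := by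
  have key : ∀ k : ℕ, Near ((gt g bt).symm^[k] a) ((gt g bt).symm^[k] b) := by
    intro k
    induction k with
    | zero => exact h
    | succ k ih =>
      rw [Function.iterate_succ_apply', Function.iterate_succ_apply']
      apply near_symm g bt r₁ hr₁ hnat ih
      rw [gt_symm_iter_pt, gt_symm_iter_pt, ← Function.iterate_succ_apply' g.symm,
        ← Function.iterate_succ_apply' g.symm]
      exact lt_of_le_of_lt (hf (k + 1)) hε
  intro k
  rw [dist_of_near (key k), gt_symm_iter_pt, gt_symm_iter_pt]
  exact hf k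

theorem frel_down {ε : ℝ} (hε : ε < L.r) {a b : Cov L x₀}
    (hf : FRel (gt (L := L) g bt) ε a b) : Near a b ∧ FRel g ε a.pt b.pt := by
  have h : ∀ k, Near ((gt g bt)^[k] a) ((gt g bt)^[k] b) := fun k =>
    near_of_dist_lt (lt_of_le_of_lt (hf k) hε)
  refine ⟨h 0, fun k => ?_⟩
  have := hf k
  rwa [dist_of_near (h k), gt_iter_pt, gt_iter_pt] at this

theorem frel_symm_down {ε : ℝ} (hε : ε < L.r) {a b : Cov L x₀}
    (hf : FRel (gt (L := L) g bt).symm ε a b) : Near a b ∧ FRel g.symm ε a.pt b.pt := by
  have h : ∀ k, Near ((gt g bt).symm^[k] a) ((gt g bt).symm^[k] b) := fun k =>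
    near_of_dist_lt (lt_of_le_of_lt (hf k) hε)
  refine ⟨h 0, fun k => ?_⟩
  have := hf k
  rwa [dist_of_near (h k), gt_symm_iter_pt, gt_symm_iter_pt] at this

end near

end Cov

end Pool.Agent.H721R2
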