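import Pool.Agent.H721R2.LeafSp
import Pool.Agent.H721R2.Brown

set_option autoImplicit false

open Filter Topology

namespace Pool.Agent.H721R2

/-- Around every point in the source of a partial homeomorphism to a normed space there is an
open cell. -/
theorem exists_cell {E Z : Type*} [NormedAddCommGroup E] [NormedSpace ℝ E] [TopologicalSpace Z]
    (Φ : OpenPartialHomeomorph Z E) (z₀ : Z) (hz : z₀ ∈ Φ.source) :
    ∃ e : E → Z, IsOpenEmbedding e ∧ e 0 = z₀ := by
  obtain ⟨r, hr, hball⟩ := Metric.isOpen_iff.mp Φ.open_target (Φ z₀) (Φ.map_source hz)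
  let B := OpenPartialHomeomorph.univBall (Φ z₀) r
  have hsrc : (B.trans Φ.symm).source = Set.univ := by
    rw [OpenPartialHomeomorph.trans_source]
    apply Set.eq_univ_of_forall
    intro x
    refine ⟨by simp [B], ?_⟩
    show B x ∈ Φ.target
    apply hball
    have : B x ∈ B.target := B.map_source (by simp [B])
    rwa [OpenPartialHomeomorph.univBall_target _ hr] at this
  refine ⟨B.trans Φ.symm, (B.trans Φ.symm).isOpenEmbedding hsrc, ?_⟩
  show Φ.symm (B 0) = z₀
  have : B 0 = Φ z₀ := by simp [B]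
  rw [this, Φ.left_inv hz]

namespace QSys

variable {Y : Type*} [MetricSpace Y] {T : QSys Y} {p : Y}

theorem WU_map {a u : Y} (h : T.WU a u) : T.WU (T.g a) (T.g u) := by
  obtain ⟨j, h⟩ := h
  refine ⟨j + 1, ?_⟩
  unfold LU
  rw [Function.iterate_succ_apply, Function.iterate_succ_apply, Equiv.symm_apply_apply,
    Equiv.symm_apply_apply]
  exact h

theorem WS_map_symm {a s : Y} (h : T.WS a s) : T.WS (T.g.symm a) (T.g.symm s) := by
  obtain ⟨j, h⟩ := h
  refine ⟨j + 1, ?_⟩
  unfold LS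
  rw [Function.iterate_succ_apply, Function.iterate_succ_apply, Equiv.apply_symm_apply,
    Equiv.apply_symm_apply]
  exact h

theorem WU_map_symm {a u : Y} (h : T.WU a u) : T.WU (T.g.symm a) (T.g.symm u) := by
  obtain ⟨j, h⟩ := h
  exact ⟨j, by have := h.iter 1
               rw [← Function.iterate_add_apply, ← Function.iterate_add_apply, add_comm,
                 Function.iterate_add_apply, Function.iterate_add_apply] at this
               exact this⟩

theorem WS_map {a s : Y} (h : T.WS a s) : T.WS (T.g a) (T.g s) :=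
  WU_map_symm (T := T.symm) h

/-- The expanding map of the leaf space. -/
def Leaf.ex (hp : T.g p = p) (z : Leaf T p) : Leaf T p where
  u := T.g z.u
  s := T.g.symm z.s
  hu := by
    have := WU_map z.hu
    rwa [hp] at this
  hs := by
    have := WS_map_symm z.hs
    rwa [T.g.symm_apply_eq.mpr hp.symm] at this

/-- The contracting map of the leaf space. -/
def Leaf.co (hp : T.g p = p) (z : Leaf T p) : Leaf T p where
  u := T.g.symm z.u
  s := T.g z.s
  hu := by
    have := WU_map_symm z.hu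
    rwa [T.g.symm_apply_eq.mpr hp.symm] at this
  hs := by
    have := WS_map z.hs
    rwa [hp] at this

variable [CompactSpace Y]

theorem Leaf.ex_cont (hp : T.g p = p) : Continuous (Leaf.ex hp : Leaf T p → Leaf T p) := by
  rw [Metric.continuous_iff]
  intro b ε hε
  obtain ⟨η1, hη1, h1⟩ := T.near_iter 1 (ε / 2) (by positivity)
  obtain ⟨η2, hη2, h2⟩ := T.near_iter_symm 1 (ε / 2) (by positivity)
  refine ⟨min η1 η2, lt_min hη1 hη2, fun a ha => ?_⟩
  obtain ⟨hu, hs⟩ := (leaf_dist a b (le_min hη1.le hη2.le)).mp ha.le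
  have : dist (Leaf.ex hp a) (Leaf.ex hp b) ≤ ε / 2 := by
    rw [leaf_dist _ _ (by positivity)]
    exact ⟨h1 _ _ (hu.mono (min_le_left _ _)), h2 _ _ (hs.mono (min_le_right _ _))⟩
  linarith

theorem Leaf.co_cont (hp : T.g p = p) : Continuous (Leaf.co hp : Leaf T p → Leaf T p) := by
  rw [Metric.continuous_iff]
  intro b ε hε
  refine ⟨ε / 2, by positivity, fun a ha => ?_⟩
  obtain ⟨hu, hs⟩ := (leaf_dist a b (by positivity)).mp ha.le
  have : dist (Leaf.co hp a) (Leaf.co hp b) ≤ ε / 2 := by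
    rw [leaf_dist _ _ (by positivity)]
    exact ⟨hu.iter 1, hs.iter 1⟩
  linarith

/-- The expanding homeomorphism. -/
def Leaf.H (hp : T.g p = p) : Leaf T p ≃ₜ Leaf T p where
  toFun := Leaf.ex hp
  invFun := Leaf.co hp
  left_inv := fun _ => Leaf.ext (T.g.symm_apply_apply _) (T.g.apply_symm_apply _)
  right_inv := fun _ => Leaf.ext (T.g.apply_symm_apply _) (T.g.symm_apply_apply _)
  continuous_toFun := Leaf.ex_cont hp
  continuous_invFun := Leaf.co_cont hp

/-- The base point. -/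
def Leaf.base (T : QSys Y) (p : Y) : Leaf T p := ⟨p, p, WU.refl T p, WS.refl T p⟩

theorem Leaf.H_base (hp : T.g p = p) : Leaf.H hp (Leaf.base T p) = Leaf.base T p :=
  Leaf.ext hp (T.g.symm_apply_eq.mpr hp.symm)

theorem Leaf.co_iter (hp : T.g p = p) (k : ℕ) (z : Leaf T p) :
    ((Leaf.H hp).symm^[k] z).u = T.g.symm^[k] z.u ∧ ((Leaf.H hp).symm^[k] z).s = T.g^[k] z.s := by
  induction k with
  | zero => exact ⟨rfl, rfl⟩
  | succ k ih =>
    rw [Function.iterate_succ_apply', Function.iterate_succ_apply', Function.iterate_succ_apply']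
    obtain ⟨h1, h2⟩ := ih
    exact ⟨by rw [← h1]; rfl, by rw [← h2]; rfl⟩

omit [MetricSpace Y] [CompactSpace Y] in
theorem iter_fix {f : Y → Y} (hp : f p = p) (k : ℕ) : f^[k] p = p := Function.iterate_fixed hp k

theorem Leaf.contract (hp : T.g p = p) (k : ℕ) (z : Leaf T p)
    (hz : dist z (Leaf.base T p) ≤ T.δ) :
    dist ((Leaf.H hp).symm^[k] z) (Leaf.base T p) ≤ (1 / 2) ^ k * T.δ := by
  have hδ := T.δ_pos
  have hα := T.α_pos
  have hβ := T.β_pos
  have hp' : T.g.symm p = p := T.g.symm_apply_eq.mpr hp.symm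
  obtain ⟨hu, hs⟩ := (leaf_dist _ _ hδ.le).mp hz
  rw [leaf_dist _ _ (by positivity)]
  obtain ⟨e1, e2⟩ := Leaf.co_iter hp k z
  rw [e1, e2]
  constructor
  · have h1 := T.toCSys.shrinkU T.toCSys.δ_le_εs hu hu.dist_le k
    have h2 : T.g.symm^[k] (Leaf.base T p).u = (Leaf.base T p).u := iter_fix hp' k
    rw [h2] at h1
    exact h1.mono (mul_le_mul_of_nonneg_right (pow_le_pow_left₀ hβ T.β_le k) hδ.le)
  · have h1 := T.toCSys.shrink T.toCSys.δ_le_εs hs hs.dist_le k
    have h2 : T.g^[k] (Leaf.base T p).s = (Leaf.base T p).s := iter_fix hp k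
    rw [h2] at h1
    exact h1.mono (mul_le_mul_of_nonneg_right (pow_le_pow_left₀ hα T.α_le k) hδ.le)

theorem Leaf.reach (hp : T.g p = p) (z : Leaf T p) :
    ∃ k : ℕ, dist ((Leaf.H hp).symm^[k] z) (Leaf.base T p) < T.δ := by
  have hδ := T.δ_pos
  have hp' : T.g.symm p = p := T.g.symm_apply_eq.mpr hp.symm
  obtain ⟨j1, h1⟩ := z.hu
  obtain ⟨j2, h2⟩ := z.hs
  have h1' := LU.mono T (le_max_left j1 j2) h1
  have h2' := LS.mono T (le_max_right j1 j2) h2
  set j := max j1 j2
  have h3 : dist ((Leaf.H hp).symm^[j] z) (Leaf.base T p) ≤ T.δ := by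
    rw [leaf_dist _ _ hδ.le]
    obtain ⟨e1, e2⟩ := Leaf.co_iter hp j z
    rw [e1, e2]
    unfold LU at h1'
    unfold LS at h2'
    rw [iter_fix hp' j] at h1'
    rw [iter_fix hp j] at h2'
    exact ⟨h1'.symm, h2'.symm⟩
  refine ⟨j + 1, ?_⟩
  have h4 := Leaf.contract hp 1 _ h3
  rw [← Function.iterate_add_apply, add_comm 1 j] at h4
  rw [pow_one] at h4
  linarith

/-- Uniform contraction of compact sets. -/
theorem Leaf.absorb (hp : T.g p = p) (C : Set (Leaf T p)) (hC : IsCompact C)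
    (U : Set (Leaf T p)) (hU : U ∈ 𝓝 (Leaf.base T p)) :
    ∃ k : ℕ, ∀ z ∈ C, (Leaf.H hp).symm^[k] z ∈ U := by
  have hδ := T.δ_pos
  have hVo : ∀ k : ℕ, IsOpen {z : Leaf T p | dist ((Leaf.H hp).symm^[k] z) (Leaf.base T p) < T.δ} := by
    intro k
    have : Continuous (fun z : Leaf T p => dist ((Leaf.H hp).symm^[k] z) (Leaf.base T p)) :=
      ((Leaf.H hp).symm.continuous.iterate k).dist continuous_const
    exact isOpen_lt this continuous_const
  have hmono : ∀ k l : ℕ, k ≤ l → {z : Leaf T p | dist ((Leaf.H hp).symm^[k] z) (Leaf.base T p) < T.δ} ⊆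
      {z : Leaf T p | dist ((Leaf.H hp).symm^[l] z) (Leaf.base T p) < T.δ} := by
    intro k l hkl z hz
    obtain ⟨d, rfl⟩ := Nat.exists_eq_add_of_le' hkl
    rcases Nat.eq_zero_or_pos d with h0 | h0
    · subst h0; simpa using hz
    · have h1 := Leaf.contract hp d _ (le_of_lt hz)
      rw [← Function.iterate_add_apply] at h1
      have h2 : (1 / 2 : ℝ) ^ d ≤ (1 / 2) ^ 1 :=
        pow_le_pow_of_le_one (by norm_num) (by norm_num) h0
      have h3 := mul_le_mul_of_nonneg_right h2 hδ.le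
      show dist _ _ < T.δ
      linarith
  obtain ⟨k, hk⟩ := hC.elim_directed_cover _ hVo
    (fun z _ => by
      obtain ⟨k, hk⟩ := Leaf.reach hp z
      exact Set.mem_iUnion.mpr ⟨k, hk⟩)
    (directed_of_isDirected_le hmono)
  obtain ⟨ρ, hρ, hball⟩ := Metric.mem_nhds_iff.mp hU
  obtain ⟨m, hm⟩ : ∃ m : ℕ, (1 / 2 : ℝ) ^ m * T.δ < ρ := by
    have : Tendsto (fun k : ℕ => (1 / 2 : ℝ) ^ k * T.δ) atTop (nhds (0 * T.δ)) :=
      (tendsto_pow_atTop_nhds_zero_of_lt_one (by norm_num) (by norm_num)).mul_const _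
    rw [zero_mul] at this
    exact ((tendsto_order.mp this).2 ρ hρ).exists
  refine ⟨m + k, fun z hz => ?_⟩
  apply hball
  rw [Function.iterate_add_apply]
  exact lt_of_le_of_lt (Leaf.contract hp m _ (le_of_lt (hk hz))) hm

/-- The leaf space is homeomorphic to the model space. -/
theorem leaf_homeo {E : Type*} [NormedAddCommGroup E] [NormedSpace ℝ E] [ProperSpace E]
    [ChartedSpace E Y] (hp : T.g p = p) : Nonempty (E ≃ₜ Leaf T p) := by
  have hcov : IsCoveringMap (Leaf.pr : Leaf T p → Y) := pr_isCoveringMap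
  obtain ⟨ψ, hψ, -⟩ := hcov.isLocalHomeomorph (Leaf.base T p)
  let Φ := ψ.trans (chartAt E (ψ (Leaf.base T p)))
  have hΦ : Leaf.base T p ∈ Φ.source := by
    rw [OpenPartialHomeomorph.trans_source]
    exact ⟨hψ, mem_chart_source E _⟩
  obtain ⟨e, he, he0⟩ := exists_cell Φ _ hΦ
  have hnhds : Set.range e ∈ 𝓝 (Leaf.base T p) := by
    rw [← he0]
    exact he.isOpen_range.mem_nhds ⟨0, rfl⟩
  have hit : ∀ k : ℕ, IsOpenEmbedding ((Leaf.H hp)^[k] : Leaf T p → Leaf T p) := by
    intro k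
    induction k with
    | zero => exact IsOpenEmbedding.id
    | succ k ih =>
      rw [Function.iterate_succ']
      exact (Leaf.H hp).isOpenEmbedding.comp ih
  have hinv : ∀ (k : ℕ) (z : Leaf T p), (Leaf.H hp)^[k] ((Leaf.H hp).symm^[k] z) = z := fun k z =>
    (Function.LeftInverse.iterate (Leaf.H hp).apply_symm_apply k) z
  have hinv' : ∀ (k : ℕ) (z : Leaf T p), (Leaf.H hp).symm^[k] ((Leaf.H hp)^[k] z) = z := fun k z =>
    (Function.LeftInverse.iterate (Leaf.H hp).symm_apply_apply k) z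
  have hcell : ∀ C : Set (Leaf T p), IsCompact C → ∃ h : E → Leaf T p, IsOpenEmbedding h ∧
      h 0 = Leaf.base T p ∧ C ⊆ Set.range h := by
    intro C hC
    obtain ⟨k, hk⟩ := Leaf.absorb hp C hC _ hnhds
    refine ⟨(Leaf.H hp)^[k] ∘ e, (hit k).comp he, ?_, ?_⟩
    · show (Leaf.H hp)^[k] (e 0) = _
      rw [he0]
      exact Function.iterate_fixed (Leaf.H_base hp) k
    · intro z hz
      obtain ⟨x, hx⟩ := hk z hz
      exact ⟨x, by show (Leaf.H hp)^[k] (e x) = z; rw [hx, hinv]⟩
  have hopen : IsOpen (e '' Metric.ball 0 1) := he.isOpenMap _ Metric.isOpen_ball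
  have hn1 : e '' Metric.closedBall 0 1 ∈ 𝓝 (Leaf.base T p) := by
    refine mem_of_superset (hopen.mem_nhds ⟨0, Metric.mem_ball_self one_pos, he0⟩) ?_
    exact Set.image_mono Metric.ball_subset_closedBall
  refine brown hcell (fun k => (Leaf.H hp)^[k] '' (e '' Metric.closedBall 0 1))
    (fun k => ((isCompact_closedBall 0 1).image he.continuous).image (hit k).continuous) ?_
  intro z
  obtain ⟨k, hk⟩ := Leaf.absorb hp {z} isCompact_singleton _ hn1
  exact ⟨k, _, hk z rfl, hinv k z⟩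

/-- The base is covered by the model space. -/
theorem exists_covering {E : Type*} [NormedAddCommGroup E] [NormedSpace ℝ E] [ProperSpace E]
    [ChartedSpace E Y] (hp : T.g p = p) : ∃ π : E → Y, IsCoveringMap π := by
  obtain ⟨e⟩ := leaf_homeo (T := T) (E := E) hp
  have hcov : IsCoveringMap (Leaf.pr : Leaf T p → Y) := pr_isCoveringMap
  exact ⟨Leaf.pr ∘ e, hcov.comp_homeomorph e⟩

end QSys

end Pool.Agent.H721R2
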