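import Pool.Agent.H721R2.Lad

set_option autoImplicit false

open Filter

namespace Pool.Agent.H721R2

/-- A chain system with a sequence of times along which all ladders exist. -/
structure QSys (Y : Type*) [MetricSpace Y] extends CSys Y where
  tk : ℕ → ℕ
  tk_le : ∀ i, tk i ≤ i
  tk_step : ∀ i, tk (i + 1) = tk i ∨ tk (i + 1) = tk i + 1
  tk_top : Tendsto tk atTop atTop
  tm_top : Tendsto (fun i => i - tk i) atTop atTop
  growS : ∀ j : ℕ, ∃ I : ℕ, ∀ i ≥ I, 36 * K * α ^ i * ((ms ^ (tk i + j) : ℕ) : ℝ) ≤ 1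
  growU : ∀ j : ℕ, ∃ I : ℕ, ∀ i ≥ I, 36 * K * β ^ i * ((mu ^ (i - tk i + j) : ℕ) : ℝ) ≤ 1
  ms_ge : 2 ≤ ms
  mu_ge : 2 ≤ mu
  ucS : ∀ k : ℕ, ∀ ε > 0, ∃ η > 0, ∀ x y, dist x y ≤ η → dist (g.symm^[k] x) (g.symm^[k] y) ≤ ε
  ucU : ∀ k : ℕ, ∀ ε > 0, ∃ η > 0, ∀ x y, dist x y ≤ η → dist (g^[k] x) (g^[k] y) ≤ ε

namespace QSys

variable {Y : Type*} [MetricSpace Y] (T : QSys Y)

/-- The inverse system. -/
def symm : QSys Y where
  toCSys := T.toCSys.symm
  tk := fun i => i - T.tk i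
  tk_le := fun i => Nat.sub_le _ _
  tk_step := fun i => by
    have := T.tk_le i
    rcases T.tk_step i with h | h
    · right; omega
    · left; omega
  tk_top := T.tm_top
  tm_top := by
    have : (fun i => i - (i - T.tk i)) = T.tk := by
      funext i
      have := T.tk_le i
      omega
    rw [this]
    exact T.tk_top
  growS := T.growU
  growU := fun j => by
    obtain ⟨I, hI⟩ := T.growS j
    refine ⟨I, fun i hi => ?_⟩
    have := T.tk_le i
    have h1 : i - (i - T.tk i) = T.tk i := by omega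
    rw [h1]
    exact hI i hi
  ms_ge := T.mu_ge
  mu_ge := T.ms_ge
  ucS := T.ucU
  ucU := T.ucS

/-- The stage relation. -/
def St (i : ℕ) (a s u x : Y) : Prop :=
  T.toCSys.Sq i (T.g.symm^[T.tk i] a) (T.g.symm^[T.tk i] s) (T.g.symm^[T.tk i] u)
    (T.g.symm^[T.tk i] x)

theorem St_symm {i : ℕ} {a s u x : Y} (h : T.St i a s u x) : T.symm.St i a u s x := by
  have h1 := T.toCSys.Sq_symm h
  have e : ∀ z : Y, T.g^[i] (T.g.symm^[T.tk i] z) = T.g^[i - T.tk i] z := fun z =>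
    iter_symm_iter_of_le T.g i _ (T.tk_le i) z
  rw [e, e, e, e] at h1
  exact h1

theorem St_of_symm {i : ℕ} {a s u x : Y} (h : T.symm.St i a u s x) : T.St i a s u x := by
  apply T.toCSys.Sq_of_symm
  have e : ∀ z : Y, T.g^[i] (T.g.symm^[T.tk i] z) = T.g^[i - T.tk i] z := fun z =>
    iter_symm_iter_of_le T.g i _ (T.tk_le i) z
  rw [e, e, e, e]
  exact h

theorem St_unique {i : ℕ} {a s u x x' : Y} (h : T.St i a s u x) (h' : T.St i a s u x') :
    x = x' :=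
  T.g.symm.injective.iterate _ (CSys.Sq.unique T.toCSys h h')

theorem St_succ {i : ℕ} {a s u x x' : Y} (h : T.St i a s u x) (h' : T.St (i + 1) a s u x') :
    x = x' := by
  unfold St at h h'
  rcases T.tk_step i with h1 | h1
  · rw [h1] at h'
    exact T.g.symm.injective.iterate _ (CSys.Sq.eq_bot T.toCSys (Nat.le_succ i) h h')
  · rw [h1] at h'
    have e : ∀ z : Y, T.g.symm^[T.tk i + 1] z = T.g.symm^[1] (T.g.symm^[T.tk i] z) := fun z => by
      rw [Function.iterate_one, Function.iterate_succ_apply']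
    rw [e, e, e, e] at h'
    have h2 := CSys.Sq.eq_top T.toCSys h h'
    exact (T.g.symm.injective.iterate _ (T.g.symm.injective.iterate _ h2)).symm

/-- Stable level. -/
def LS (j : ℕ) (a s : Y) : Prop := FRel T.g T.δ (T.g^[j] a) (T.g^[j] s)

/-- Unstable level. -/
def LU (j : ℕ) (a u : Y) : Prop := FRel T.g.symm T.δ (T.g.symm^[j] a) (T.g.symm^[j] u)

theorem LS.mono {j j' : ℕ} (hj : j ≤ j') {a s : Y} (h : T.LS j a s) : T.LS j' a s := by
  obtain ⟨d, rfl⟩ := Nat.exists_eq_add_of_le' hj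
  have h1 := FRel.iter h d
  rw [← Function.iterate_add_apply, ← Function.iterate_add_apply] at h1
  exact h1

theorem LU.mono {j j' : ℕ} (hj : j ≤ j') {a s : Y} (h : T.LU j a s) : T.LU j' a s :=
  LS.mono T.symm hj h

/-- Stable equivalence. -/
def WS (a s : Y) : Prop := ∃ j, T.LS j a s

/-- Unstable equivalence. -/
def WU (a u : Y) : Prop := ∃ j, T.LU j a u

theorem WS_of_FRel {ε : ℝ} (hε : ε ≤ T.εs) {j : ℕ} {a s : Y}
    (h : FRel T.g ε (T.g^[j] a) (T.g^[j] s)) : T.WS a s := by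
  have hε0 : 0 ≤ ε := CSys.FRel_nonneg h
  have hα := T.α_pos
  obtain ⟨k, hk⟩ : ∃ k : ℕ, (1 / 2 : ℝ) ^ k * ε ≤ T.δ := by
    have : Tendsto (fun k : ℕ => (1 / 2 : ℝ) ^ k * ε) atTop (nhds (0 * ε)) :=
      (tendsto_pow_atTop_nhds_zero_of_lt_one (by norm_num) (by norm_num)).mul_const ε
    rw [zero_mul] at this
    obtain ⟨k, hk⟩ := ((tendsto_order.mp this).2 T.δ T.δ_pos).exists
    exact ⟨k, hk.le⟩
  refine ⟨k + j, ?_⟩
  have h1 := T.toCSys.shrink hε h h.dist_le k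
  rw [← Function.iterate_add_apply, ← Function.iterate_add_apply] at h1
  refine h1.mono (le_trans ?_ hk)
  exact mul_le_mul_of_nonneg_right (pow_le_pow_left₀ hα T.α_le k) hε0

theorem WU_of_FRel {ε : ℝ} (hε : ε ≤ T.εs) {j : ℕ} {a s : Y}
    (h : FRel T.g.symm ε (T.g.symm^[j] a) (T.g.symm^[j] s)) : T.WU a s :=
  T.symm.WS_of_FRel hε h

theorem WS.refl (a : Y) : T.WS a a := ⟨0, FRel.refl T.δ_pos.le _⟩

theorem WU.refl (a : Y) : T.WU a a := ⟨0, FRel.refl T.δ_pos.le _⟩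

theorem WS.symm {a s : Y} (h : T.WS a s) : T.WS s a := by
  obtain ⟨j, h⟩ := h
  exact ⟨j, FRel.symm h⟩

theorem WU.symm {a s : Y} (h : T.WU a s) : T.WU s a := WS.symm T.symm h

theorem WS.trans {a s t : Y} (h : T.WS a s) (h' : T.WS s t) : T.WS a t := by
  obtain ⟨j, h⟩ := h
  obtain ⟨j', h'⟩ := h'
  have h1 := LS.mono T (le_max_left j j') h
  have h2 := LS.mono T (le_max_right j j') h'
  have h3 := FRel.trans h1 h2
  apply T.WS_of_FRel _ h3
  have := T.toCSys.e36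
  have := T.toCSys.Kδ_pos
  linarith

theorem WU.trans {a s t : Y} (h : T.WU a s) (h' : T.WU s t) : T.WU a t :=
  WS.trans T.symm h h'

theorem exists_SChain {i j : ℕ} {a s : Y} (h : T.LS j a s) :
    ∃ c : ℕ → Y, T.toCSys.SChain (T.ms ^ (T.tk i + j)) c ∧ c 0 = T.g.symm^[T.tk i] a ∧
      c (T.ms ^ (T.tk i + j)) = T.g.symm^[T.tk i] s := by
  have h1 := T.toCSys.pullS (T.tk i + j) 1 _ _ (Chain.single h)
  rw [mul_one] at h1
  obtain ⟨c, h2, h3, h4⟩ := h1
  have e : ∀ z : Y, T.g.symm^[T.tk i + j] (T.g^[j] z) = T.g.symm^[T.tk i] z := fun z => by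
    rw [Function.iterate_add_apply, eq_symm_iter_iter]
  rw [e] at h2 h3
  exact ⟨c, h4, h2, h3⟩

theorem exists_UChain {i j : ℕ} {a u : Y} (h : T.LU j a u) :
    ∃ y : ℕ → Y, T.toCSys.UChain (T.mu ^ (i - T.tk i + j)) y ∧
      y 0 = T.g^[i] (T.g.symm^[T.tk i] a) ∧
      y (T.mu ^ (i - T.tk i + j)) = T.g^[i] (T.g.symm^[T.tk i] u) := by
  obtain ⟨c, h1, h2, h3⟩ := T.symm.exists_SChain (i := i) h
  have e : ∀ z : Y, T.g^[i] (T.g.symm^[T.tk i] z) = T.g^[i - T.tk i] z := fun z =>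
    iter_symm_iter_of_le T.g i _ (T.tk_le i) z
  refine ⟨c, h1, ?_, ?_⟩
  · rw [e]; exact h2
  · rw [e]; exact h3

/-- Validity at stage `i` and level `j`. -/
def Ok (i j : ℕ) : Prop :=
  36 * T.K * T.α ^ i * ((T.ms ^ (T.tk i + j) : ℕ) : ℝ) ≤ 1 ∧
  36 * T.K * T.β ^ i * ((T.mu ^ (i - T.tk i + j) : ℕ) : ℝ) ≤ 1

theorem exists_ok (j : ℕ) : ∃ I, ∀ i ≥ I, T.Ok i j := by
  obtain ⟨I1, h1⟩ := T.growS j
  obtain ⟨I2, h2⟩ := T.growU j
  exact ⟨max I1 I2, fun i hi => ⟨h1 i (le_trans (le_max_left _ _) hi),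
    h2 i (le_trans (le_max_right _ _) hi)⟩⟩

theorem St_exists {i j : ℕ} (hok : T.Ok i j) {a s u : Y} (hs : T.LS j a s) (hu : T.LU j a u) :
    ∃ x, T.St i a s u x := by
  obtain ⟨c, hc, hc0, hcN⟩ := T.exists_SChain (i := i) hs
  obtain ⟨y, hy, hy0, hyJ⟩ := T.exists_UChain (i := i) hu
  obtain ⟨x, hx, -⟩ := T.toCSys.exists_Sq i _ _ hok _ _ _ c y hc hy hc0 hcN hy0 hyJ
  refine ⟨T.g^[T.tk i] x, ?_⟩
  unfold St
  rw [eq_symm_iter_iter]
  exact hx

theorem St_all {i₀ j : ℕ} (hok : ∀ i ≥ i₀, T.Ok i j) {a s u x : Y} (hs : T.LS j a s)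
    (hu : T.LU j a u) (h : T.St i₀ a s u x) : ∀ i ≥ i₀, T.St i a s u x := by
  intro i hi
  induction i, hi using Nat.le_induction with
  | base => exact h
  | succ i hi ih =>
    obtain ⟨x', hx'⟩ := T.St_exists (hok (i + 1) (by omega)) hs hu
    rw [T.St_succ ih hx']
    exact hx'

/-- The quadrilateral relation: `a`–`s` and `u`–`x` are stable sides, `a`–`u` and `s`–`x` are
unstable sides. -/
def Q (a s u x : Y) : Prop := T.WS a s ∧ T.WU a u ∧ ∀ᶠ i in atTop, T.St i a s u x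

theorem Q_symm {a s u x : Y} (h : T.Q a s u x) : T.symm.Q a u s x :=
  ⟨h.2.1, h.1, h.2.2.mono fun _ hi => T.St_symm hi⟩

theorem Q_of_symm {a s u x : Y} (h : T.symm.Q a u s x) : T.Q a s u x :=
  ⟨h.2.1, h.1, h.2.2.mono fun _ hi => T.St_of_symm hi⟩

theorem Q_unique {a s u x x' : Y} (h : T.Q a s u x) (h' : T.Q a s u x') : x = x' := by
  obtain ⟨i, h1, h2⟩ := (h.2.2.and h'.2.2).exists
  exact T.St_unique h1 h2

theorem Q_of_St {i₀ j : ℕ} (hok : ∀ i ≥ i₀, T.Ok i j) {a s u x : Y} (hs : T.LS j a s)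
    (hu : T.LU j a u) (h : T.St i₀ a s u x) : T.Q a s u x :=
  ⟨⟨j, hs⟩, ⟨j, hu⟩, eventually_atTop.mpr ⟨i₀, T.St_all hok hs hu h⟩⟩

theorem Q_exists {a s u : Y} (hs : T.WS a s) (hu : T.WU a u) : ∃ x, T.Q a s u x := by
  obtain ⟨j1, hs⟩ := hs
  obtain ⟨j2, hu⟩ := hu
  obtain ⟨I, hI⟩ := T.exists_ok (max j1 j2)
  have hs' := LS.mono T (le_max_left j1 j2) hs
  have hu' := LU.mono T (le_max_right j1 j2) hu
  obtain ⟨x, hx⟩ := T.St_exists (hI I le_rfl) hs' hu'
  exact ⟨x, T.Q_of_St hI hs' hu' hx⟩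

theorem Q_WS {a s u x : Y} (h : T.Q a s u x) : T.WS u x := by
  obtain ⟨i, N, J, c, y, c', q, hv, hc, hy, hc0, hcN, hy0, hyJ, hc'0, hc'N, hq0, hqJ,
    hbot, htop⟩ := h.2.2.exists
  have h1 := htop.near J le_rfl
  rw [hyJ, hqJ] at h1
  have e : ∀ z : Y, T.g^[i] (T.g.symm^[T.tk i] z) = T.g^[i - T.tk i] z := fun z =>
    iter_symm_iter_of_le T.g i _ (T.tk_le i) z
  rw [e, e] at h1
  apply T.WS_of_FRel _ h1
  have := T.toCSys.e36
  have := T.toCSys.Kδ_pos
  have := T.δ_pos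
  linarith

theorem Q_WU {a s u x : Y} (h : T.Q a s u x) : T.WU s x := T.symm.Q_WS (T.Q_symm h)

theorem UChain_append {J₁ J₂ : ℕ} {y₁ y₂ : ℕ → Y} (h₁ : T.toCSys.UChain J₁ y₁)
    (h₂ : T.toCSys.UChain J₂ y₂) (h : y₁ J₁ = y₂ 0) :
    ∃ y, T.toCSys.UChain (J₁ + J₂) y ∧ y 0 = y₁ 0 ∧ y J₁ = y₁ J₁ ∧ y (J₁ + J₂) = y₂ J₂ := by
  refine ⟨fun j => if j ≤ J₁ then y₁ j else y₂ (j - J₁), ?_, by simp, by simp, ?_⟩
  · intro j hj
    by_cases h1 : j + 1 ≤ J₁
    · have : j ≤ J₁ := by omega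
      simp only [h1, this, if_true]
      exact h₁ j (by omega)
    · by_cases h2 : j ≤ J₁
      · have : j = J₁ := by omega
        subst this
        simp only [le_refl, if_true, h1, if_false, Nat.add_sub_cancel_left]
        rw [h]
        exact h₂ 0 (by omega)
      · simp only [h1, h2, if_false]
        have h3 : j + 1 - J₁ = (j - J₁) + 1 := by omega
        rw [h3]
        exact h₂ _ (by omega)
  · by_cases h1 : J₂ = 0
    · subst h1
      simp [h]
    · have : ¬ (J₁ + J₂ ≤ J₁) := by omega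
      simp only [this, if_false, Nat.add_sub_cancel_left]

/-- Composition in the unstable direction. -/
theorem Q_compU {a s u x u' x' : Y} (h : T.Q a s u x) (h' : T.Q u x u' x') : T.Q a s u' x' := by
  refine ⟨h.1, WU.trans T h.2.1 h'.2.1, ?_⟩
  obtain ⟨j1, hs⟩ := h.1
  obtain ⟨j2, hu⟩ := h.2.1
  obtain ⟨j3, hu'⟩ := h'.2.1
  set j := max j1 (max j2 j3) with hj
  have hs := LS.mono T (le_max_left _ _ : j1 ≤ j) hs
  have hu := LU.mono T ((le_max_left _ _).trans (le_max_right _ _) : j2 ≤ j) hu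
  have hu' := LU.mono T ((le_max_right _ _).trans (le_max_right _ _) : j3 ≤ j) hu'
  obtain ⟨I, hI⟩ := T.exists_ok (j + 1)
  filter_upwards [h.2.2, h'.2.2, eventually_ge_atTop I] with i h1 h2 hi
  obtain ⟨ok1, ok2⟩ := hI i hi
  obtain ⟨c, hc, hc0, hcN⟩ := T.exists_SChain (i := i) hs
  obtain ⟨y₁, hy₁, hy₁0, hy₁J⟩ := T.exists_UChain (i := i) hu
  obtain ⟨y₂, hy₂, hy₂0, hy₂J⟩ := T.exists_UChain (i := i) hu'
  set N := T.ms ^ (T.tk i + j) with hN
  set J := T.mu ^ (i - T.tk i + j) with hJ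
  obtain ⟨y, hy, hy0, hyJ, hyJJ⟩ := T.UChain_append hy₁ hy₂ (by rw [hy₁J, hy₂0])
  have hms := T.ms_ge
  have hmu := T.mu_ge
  have hK : 0 < T.K := by linarith [T.one_le_K]
  have hα := T.α_pos
  have hβ := T.β_pos
  have hNle : N ≤ T.ms ^ (T.tk i + (j + 1)) := by
    rw [hN]
    exact Nat.pow_le_pow_right (by omega) (by omega)
  have hJle : J + J ≤ T.mu ^ (i - T.tk i + (j + 1)) := by
    have : i - T.tk i + (j + 1) = (i - T.tk i + j) + 1 := by omega
    rw [this, pow_succ, ← hJ]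
    nlinarith
  have v1 : 36 * T.K * T.α ^ i * (N : ℝ) ≤ 1 := by
    refine le_trans ?_ ok1
    apply mul_le_mul_of_nonneg_left _ (by positivity)
    exact_mod_cast hNle
  have v2 : 36 * T.K * T.β ^ i * ((J + J : ℕ) : ℝ) ≤ 1 := by
    refine le_trans ?_ ok2
    apply mul_le_mul_of_nonneg_left _ (by positivity)
    exact_mod_cast hJle
  have v3 : 36 * T.K * T.β ^ i * (J : ℝ) ≤ 1 := by
    refine le_trans ?_ v2
    apply mul_le_mul_of_nonneg_left _ (by positivity)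
    exact_mod_cast Nat.le_add_left J J
  obtain ⟨x₃, hx₃, c', q, hc'0, hc'N, hq0, hqJ, hbot, htop, -⟩ :=
    T.toCSys.exists_Sq i N (J + J) ⟨v1, v2⟩ _ _ (T.g.symm^[T.tk i] u') c y hc hy hc0 hcN
      (by rw [hy0, hy₁0]) (by rw [hyJJ, hy₂J])
  have e1 : q J = T.g^[i] (T.g.symm^[T.tk i] x) :=
    CSys.Sq.top T.toCSys h1 J y q v3 (fun l hl => hy l (by omega)) (by rw [hy0, hy₁0])
      (by rw [hyJ, hy₁J]) ⟨fun l hl => htop.link l (by omega), fun l hl => htop.near l (by omega)⟩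
      hq0
  have e2 : q (J + J) = T.g^[i] (T.g.symm^[T.tk i] x') := by
    have := CSys.Sq.top T.toCSys h2 J (fun l => y (J + l)) (fun l => q (J + l)) v3
      (fun l hl => hy (J + l) (by omega)) (by simp only [add_zero]; rw [hyJ, hy₁J])
      (by show y (J + J) = _; rw [hyJJ, hy₂J])
      ⟨fun l hl => htop.link (J + l) (by omega), fun l hl => htop.near (J + l) (by omega)⟩
      (by simp only [add_zero]; exact e1)
    exact this
  have e3 : x₃ = T.g.symm^[T.tk i] x' := by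
    apply T.g.injective.iterate i
    rw [← hqJ, e2]
  rw [e3] at hx₃
  exact hx₃

/-- Composition in the stable direction. -/
theorem Q_compS {a s u x s' x' : Y} (h : T.Q a s u x) (h' : T.Q s s' x x') : T.Q a s' u x' :=
  T.Q_of_symm (T.symm.Q_compU (T.Q_symm h) (T.Q_symm h'))

/-- Flipping in the unstable direction. -/
theorem Q_flipU {a s u x : Y} (h : T.Q a s u x) : T.Q u x a s := by
  have hux := T.Q_WS h
  refine ⟨hux, WU.symm T h.2.1, ?_⟩
  obtain ⟨j, hj⟩ := hux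
  obtain ⟨I, hI⟩ := T.exists_ok j
  filter_upwards [h.2.2, eventually_ge_atTop I] with i h1 hi
  obtain ⟨ok1, -⟩ := hI i hi
  obtain ⟨c₂, hc₂, hc₂0, hc₂N⟩ := T.exists_SChain (i := i) hj
  obtain ⟨N, J, c, y, c', q, hv, hc, hy, hc0, hcN, hy0, hyJ, hc'0, hc'N, hq0, hqJ,
    hbot, htop⟩ := h1
  have hy' : T.toCSys.UChain J (fun l => y (J - l)) := by
    intro l hl
    have h3 : J - l = (J - (l + 1)) + 1 := by omega
    show FRel T.g.symm T.δ (y (J - l)) (y (J - (l + 1)))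
    rw [h3]
    exact (hy _ (by omega)).symm
  have htop' : T.toCSys.TopLift J (fun l => y (J - l)) (fun l => q (J - l)) := by
    refine ⟨fun l hl => ?_, fun l _ => htop.near (J - l) (by omega)⟩
    have h3 : J - l = (J - (l + 1)) + 1 := by omega
    show FRel T.g.symm _ (q (J - l)) (q (J - (l + 1)))
    rw [h3]
    exact (htop.link _ (by omega)).symm
  obtain ⟨s₃, hs₃, -⟩ := T.toCSys.exists_Sq i _ J ⟨ok1, hv.2⟩ _ _ (T.g.symm^[T.tk i] a) c₂ _
    hc₂ hy' hc₂0 hc₂N (by simp only [Nat.sub_zero]; exact hyJ) (by simp only [Nat.sub_self]; exact hy0)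
  have e1 := CSys.Sq.top T.toCSys hs₃ J _ _ hv.2 hy' (by simp only [Nat.sub_zero]; exact hyJ)
    (by simp only [Nat.sub_self]; exact hy0) htop' (by simp only [Nat.sub_zero]; exact hqJ)
  simp only [Nat.sub_self] at e1
  have e3 : s₃ = T.g.symm^[T.tk i] s := by
    apply T.g.injective.iterate i
    rw [← e1, hq0]
  rw [e3] at hs₃
  exact hs₃

/-- Flipping in the stable direction. -/
theorem Q_flipS {a s u x : Y} (h : T.Q a s u x) : T.Q s a x u :=
  T.Q_of_symm (T.symm.Q_flipU (T.Q_symm h))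

theorem near_iter_symm (k : ℕ) : ∀ ε > 0, ∃ η > 0, ∀ x y, FRel T.g η x y →
    FRel T.g ε (T.g.symm^[k] x) (T.g.symm^[k] y) := by
  induction k with
  | zero => exact fun ε hε => ⟨ε, hε, fun x y h => h⟩
  | succ k ih =>
    intro ε hε
    obtain ⟨η, hη, h1⟩ := ih ε hε
    obtain ⟨η', hη', h2⟩ := T.ucS 1 η hη
    refine ⟨min η η', lt_min hη hη', fun x y hxy => ?_⟩
    rw [Function.iterate_succ_apply, Function.iterate_succ_apply]
    apply h1
    intro l
    cases l with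
    | zero =>
      have := h2 x y (hxy.dist_le.trans (min_le_right _ _))
      simpa using this
    | succ l =>
      rw [Function.iterate_succ_apply, Function.iterate_succ_apply, Equiv.apply_symm_apply,
        Equiv.apply_symm_apply]
      exact (hxy l).trans (min_le_left _ _)

theorem near_iter (k : ℕ) : ∀ ε > 0, ∃ η > 0, ∀ x y, FRel T.g.symm η x y →
    FRel T.g.symm ε (T.g^[k] x) (T.g^[k] y) := T.symm.near_iter_symm k

theorem FRel_iter_symm {ε : ℝ} {x y : Y} (h : FRel T.g.symm ε x y) (k : ℕ) :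
    FRel T.g.symm ε (T.g.symm^[k] x) (T.g.symm^[k] y) := h.iter k

/-- Tiny squares. -/
theorem exists_tiny : ∃ ε₂ > 0, ∀ a s u x : Y, FRel T.g ε₂ a s → FRel T.g.symm ε₂ a u →
    FRel T.g ε₂ u x → FRel T.g.symm ε₂ s x → T.Q a s u x := by
  obtain ⟨I, hI⟩ := T.exists_ok 0
  have hδ := T.δ_pos
  have hKδ := T.toCSys.Kδ_pos
  have hδK := T.toCSys.δ_le_Kδ
  have hK : 0 < T.K := by linarith [T.one_le_K]
  have hα := T.α_pos
  have hβ := T.β_pos
  have hms := T.ms_ge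
  have hmu := T.mu_ge
  set k := T.tk I with hk
  set m := I - k with hm
  obtain ⟨η1, hη1, h1⟩ := T.near_iter_symm k T.δ hδ
  obtain ⟨η2, hη2, h2⟩ := T.near_iter m T.δ hδ
  refine ⟨min (min η1 η2) T.δ, lt_min (lt_min hη1 hη2) hδ, fun a s u x has hau hux hsx => ?_⟩
  have l1 : min (min η1 η2) T.δ ≤ η1 := (min_le_left _ _).trans (min_le_left _ _)
  have l2 : min (min η1 η2) T.δ ≤ η2 := (min_le_left _ _).trans (min_le_right _ _)
  have l3 : min (min η1 η2) T.δ ≤ T.δ := min_le_right _ _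
  have e : ∀ z : Y, T.g^[I] (T.g.symm^[k] z) = T.g^[m] z := fun z =>
    iter_symm_iter_of_le T.g I _ (T.tk_le I) z
  obtain ⟨ok1, ok2⟩ := hI I le_rfl
  have v1 : 36 * T.K * T.α ^ I * ((1 : ℕ) : ℝ) ≤ 1 := by
    refine le_trans ?_ ok1
    apply mul_le_mul_of_nonneg_left _ (by positivity)
    exact_mod_cast Nat.one_le_pow _ _ (by omega)
  have v2 : 36 * T.K * T.β ^ I * ((1 : ℕ) : ℝ) ≤ 1 := by
    refine le_trans ?_ ok2
    apply mul_le_mul_of_nonneg_left _ (by positivity)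
    exact_mod_cast Nat.one_le_pow _ _ (by omega)
  apply T.Q_of_St (i₀ := I) (j := 0) hI (has.mono l3) (hau.mono l3)
  have hup : ∀ {p q : Y}, FRel T.g T.δ p q → FRel T.g (18 * (T.K * T.δ)) p q := fun h =>
    h.mono (by linarith)
  have hup' : ∀ {p q : Y}, FRel T.g.symm T.δ p q → FRel T.g.symm (18 * (T.K * T.δ)) p q :=
    fun h => h.mono (by linarith)
  refine ⟨1, 1, fun i => if i = 0 then T.g.symm^[k] a else T.g.symm^[k] s,
    fun i => if i = 0 then T.g^[m] a else T.g^[m] u,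
    fun i => if i = 0 then T.g.symm^[k] u else T.g.symm^[k] x,
    fun i => if i = 0 then T.g^[m] s else T.g^[m] x, ⟨v1, v2⟩, ?_, ?_, by simp [hk], by simp [hk],
    ?_, ?_, by simp [hk], by simp [hk], ?_, ?_, ⟨?_, ?_⟩, ⟨?_, ?_⟩⟩
  · intro i hi
    have : i = 0 := by omega
    subst this
    simpa using h1 a s (has.mono l1)
  · intro i hi
    have : i = 0 := by omega
    subst this
    simpa using h2 a u (hau.mono l2)
  · simp only [if_true]; rw [e]
  · simp only [one_ne_zero, if_false]; rw [e]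
  · simp only [if_true]; rw [e]
  · simp only [one_ne_zero, if_false]; rw [e]
  · intro i hi
    have : i = 0 := by omega
    subst this
    simpa using hup (h1 u x (hux.mono l1))
  · intro i _
    by_cases hi : i = 0
    · simpa [hi] using hup' ((hau.mono l3).iter k)
    · simpa [hi] using hup' ((hsx.mono l3).iter k)
  · intro i hi
    have : i = 0 := by omega
    subst this
    simpa using hup' (h2 s x (hsx.mono l2))
  · intro i _
    by_cases hi : i = 0
    · simpa [hi] using hup ((has.mono l3).iter m)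
    · simpa [hi] using hup ((hux.mono l3).iter m)

/-- Continuity of the transport of stable segments. -/
theorem Q_contS (j : ℕ) : ∀ ε > 0, ∃ η > 0, ∀ a s u x : Y, T.Q a s u x → FRel T.g η a s →
    T.LU j a u → FRel T.g ε u x := by
  intro ε hε
  have hδ := T.δ_pos
  have hα := T.α_pos
  have hβ := T.β_pos
  have hK : 0 < T.K := by linarith [T.one_le_K]
  have hms := T.ms_ge
  obtain ⟨I, hI⟩ := T.exists_ok j
  obtain ⟨k₀, hk₀⟩ : ∃ k₀ : ℕ, ∀ k ≥ k₀, (1 / 2 : ℝ) ^ k * (2 * T.δ) ≤ ε := by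
    have : Tendsto (fun k : ℕ => (1 / 2 : ℝ) ^ k * (2 * T.δ)) atTop (nhds (0 * (2 * T.δ))) :=
      (tendsto_pow_atTop_nhds_zero_of_lt_one (by norm_num) (by norm_num)).mul_const _
    rw [zero_mul] at this
    obtain ⟨k, hk⟩ := eventually_atTop.mp ((tendsto_order.mp this).2 ε hε)
    exact ⟨k, fun k' hk' => (hk k' hk').le⟩
  obtain ⟨i, hi1, hi2⟩ := ((T.tk_top.eventually_ge_atTop k₀).and (eventually_ge_atTop I)).exists
  set k := T.tk i with hk
  obtain ⟨η, hη, h1⟩ := T.near_iter_symm k T.δ hδ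
  refine ⟨min η T.δ, lt_min hη hδ, fun a s u x hQ has hau => ?_⟩
  obtain ⟨ok1, ok2⟩ := hI i hi2
  obtain ⟨y, hy, hy0, hyJ⟩ := T.exists_UChain (i := i) hau
  have hc : T.toCSys.SChain 1 (fun l => if l = 0 then T.g.symm^[k] a else T.g.symm^[k] s) := by
    intro l hl
    have : l = 0 := by omega
    subst this
    simpa using h1 a s (has.mono (min_le_left _ _))
  have v1 : 36 * T.K * T.α ^ i * ((1 : ℕ) : ℝ) ≤ 1 := by
    refine le_trans ?_ ok1
    apply mul_le_mul_of_nonneg_left _ (by positivity)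
    exact_mod_cast Nat.one_le_pow _ _ (by omega)
  obtain ⟨x₃, hx₃, c', q, hc'0, hc'N, -, -, -, -, hlink⟩ :=
    T.toCSys.exists_Sq i 1 _ ⟨v1, ok2⟩ (T.g.symm^[k] a) (T.g.symm^[k] s) (T.g.symm^[k] u) _ y
      hc hy (by simp) (by simp) hy0 hyJ
  have hQ' : T.Q a s u (T.g^[k] x₃) := by
    apply T.Q_of_St (i₀ := i) (j := j) (fun i' hi' => hI i' (le_trans hi2 hi'))
      (LS.mono T (Nat.zero_le j) (has.mono (min_le_right _ _))) hau
    unfold St
    rw [eq_symm_iter_iter]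
    exact hx₃
  have e1 := T.Q_unique hQ hQ'
  have h2 := hlink 0 one_pos
  rw [hc'0, zero_add, hc'N] at h2
  have h3 := T.toCSys.shrink (by have := T.toCSys.e36; have := T.toCSys.Kδ_pos; linarith) h2
    h2.dist_le k
  rw [eq_iter_symm_iter, ← e1] at h3
  refine h3.mono (le_trans ?_ (hk₀ k hi1))
  exact mul_le_mul_of_nonneg_right (pow_le_pow_left₀ hα T.α_le k) (by linarith)

/-- Continuity of the transport of unstable segments. -/
theorem Q_contU (j : ℕ) : ∀ ε > 0, ∃ η > 0, ∀ a s u x : Y, T.Q a s u x → FRel T.g.symm η a u →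
    T.LS j a s → FRel T.g.symm ε s x := by
  intro ε hε
  obtain ⟨η, hη, h⟩ := T.symm.Q_contS j ε hε
  exact ⟨η, hη, fun a s u x hQ hau has => h a u s x (T.Q_symm hQ) hau has⟩

end QSys

end Pool.Agent.H721R2
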