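import Pool.Agent.H721R2.Box
import Pool.Agent.H721R2.Quad

set_option autoImplicit false

open Filter Topology

namespace Pool.Agent.H721R2

/-- The sequence of times. -/
theorem exists_times (α β K ρ : ℝ) (ms mu : ℕ) (hα0 : 0 < α) (hα1 : α < 1) (hβ0 : 0 < β)
    (_hβ1 : β < 1) (hms : 1 ≤ ms) (hmu : 1 ≤ mu) (hK : 0 < K) (hρ : 1 < ρ)
    (h1 : ms * α ^ ρ < 1) (h2 : (mu : ℝ) ^ (ρ - 1) * β ^ ρ < 1) :
    ∃ tk : ℕ → ℕ, (∀ i, tk i ≤ i) ∧ (∀ i, tk (i + 1) = tk i ∨ tk (i + 1) = tk i + 1) ∧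
      Tendsto tk atTop atTop ∧ Tendsto (fun i => i - tk i) atTop atTop ∧
      (∀ j : ℕ, ∃ I : ℕ, ∀ i ≥ I, 36 * K * α ^ i * ((ms ^ (tk i + j) : ℕ) : ℝ) ≤ 1) ∧
      (∀ j : ℕ, ∃ I : ℕ, ∀ i ≥ I, 36 * K * β ^ i * ((mu ^ (i - tk i + j) : ℕ) : ℝ) ≤ 1) := by
  set θ := 1 / ρ with hθ
  have hθ0 : 0 < θ := by positivity
  have hθ1 : θ < 1 := by rw [hθ, div_lt_one (by linarith)]; exact hρ
  have hms0 : (0 : ℝ) < ms := by exact_mod_cast hms
  have hmu0 : (0 : ℝ) < mu := by exact_mod_cast hmu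
  have hms1 : (1 : ℝ) ≤ ms := by exact_mod_cast hms
  have hmu1 : (1 : ℝ) ≤ mu := by exact_mod_cast hmu
  have hρθ : ρ * θ = 1 := by rw [hθ]; field_simp
  have hle : ∀ i : ℕ, ⌊θ * i⌋₊ ≤ i := fun i => by
    apply Nat.floor_le_of_le
    have : (0 : ℝ) ≤ i := Nat.cast_nonneg i
    nlinarith
  have hfl : ∀ i : ℕ, ((⌊θ * i⌋₊ : ℕ) : ℝ) ≤ θ * i := fun i => Nat.floor_le (by positivity)
  have hfl' : ∀ i : ℕ, θ * i < (⌊θ * i⌋₊ : ℕ) + 1 := fun i => Nat.lt_floor_add_one _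
  refine ⟨fun i => ⌊θ * i⌋₊, hle, ?_, ?_, ?_, ?_, ?_⟩
  · intro i
    have a1 : ⌊θ * i⌋₊ ≤ ⌊θ * ((i + 1 : ℕ) : ℝ)⌋₊ := by
      apply Nat.floor_mono
      push_cast
      nlinarith
    have a2 : ⌊θ * ((i + 1 : ℕ) : ℝ)⌋₊ < ⌊θ * i⌋₊ + 2 := by
      have b1 := hfl (i + 1)
      have b2 := hfl' i
      have b3 : ((⌊θ * ((i + 1 : ℕ) : ℝ)⌋₊ : ℕ) : ℝ) < ((⌊θ * i⌋₊ + 2 : ℕ) : ℝ) := by
        push_cast at b1 b2 ⊢
        linarith
      exact_mod_cast b3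
    show ⌊θ * ((i + 1 : ℕ) : ℝ)⌋₊ = ⌊θ * (i : ℝ)⌋₊ ∨ ⌊θ * ((i + 1 : ℕ) : ℝ)⌋₊ = ⌊θ * (i : ℝ)⌋₊ + 1
    omega
  · exact tendsto_nat_floor_atTop.comp
      (tendsto_natCast_atTop_atTop.const_mul_atTop hθ0)
  · rw [tendsto_atTop]
    intro b
    obtain ⟨n, hn⟩ := exists_nat_gt (b / (1 - θ))
    filter_upwards [eventually_ge_atTop n] with i hi
    have h3 : (b : ℝ) < (1 - θ) * n := by
      rw [div_lt_iff₀ (by linarith)] at hn
      linarith
    have h4 : (n : ℝ) ≤ i := by exact_mod_cast hi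
    have h5 := hfl i
    have h6 : (b : ℝ) ≤ ((i - ⌊θ * i⌋₊ : ℕ) : ℝ) := by
      rw [Nat.cast_sub (hle i)]
      nlinarith
    exact_mod_cast h6
  · intro j
    set q := α * (ms : ℝ) ^ θ with hq
    have hq0 : 0 ≤ q := by positivity
    have hq1 : q < 1 := by
      have : q = (ms * α ^ ρ) ^ θ := by
        rw [Real.mul_rpow hms0.le (by positivity), ← Real.rpow_mul hα0.le, hρθ, Real.rpow_one, hq]
        ring
      rw [this]
      exact Real.rpow_lt_one (by positivity) h1 hθ0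
    have t := (tendsto_pow_atTop_nhds_zero_of_lt_one hq0 hq1).const_mul (36 * K * ms ^ j)
    rw [mul_zero] at t
    obtain ⟨I, hI⟩ := eventually_atTop.mp ((tendsto_order.mp t).2 1 one_pos)
    refine ⟨I, fun i hi => le_trans ?_ (hI i hi).le⟩
    have h3 : (ms : ℝ) ^ ⌊θ * i⌋₊ ≤ ((ms : ℝ) ^ θ) ^ i := by
      rw [← Real.rpow_natCast (ms : ℝ) ⌊θ * i⌋₊, ← Real.rpow_natCast ((ms : ℝ) ^ θ) i,
        ← Real.rpow_mul hms0.le]
      exact Real.rpow_le_rpow_of_exponent_le hms1 (hfl i)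
    push_cast
    rw [pow_add]
    calc 36 * K * α ^ i * ((ms : ℝ) ^ ⌊θ * i⌋₊ * ms ^ j)
        ≤ 36 * K * α ^ i * (((ms : ℝ) ^ θ) ^ i * ms ^ j) := by
          apply mul_le_mul_of_nonneg_left _ (by positivity)
          exact mul_le_mul_of_nonneg_right h3 (by positivity)
      _ = 36 * K * ms ^ j * q ^ i := by rw [hq, mul_pow]; ring
  · intro j
    set q := β * (mu : ℝ) ^ (1 - θ) with hq
    have hq0 : 0 ≤ q := by positivity
    have hq1 : q < 1 := by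
      have : q = ((mu : ℝ) ^ (ρ - 1) * β ^ ρ) ^ θ := by
        rw [Real.mul_rpow (by positivity) (by positivity), ← Real.rpow_mul hβ0.le,
          ← Real.rpow_mul hmu0.le, hρθ, Real.rpow_one, hq]
        have : (ρ - 1) * θ = 1 - θ := by rw [sub_mul, hρθ, one_mul]
        rw [this]
        ring
      rw [this]
      exact Real.rpow_lt_one (by positivity) h2 hθ0
    have t := (tendsto_pow_atTop_nhds_zero_of_lt_one hq0 hq1).const_mul (36 * K * mu * mu ^ j)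
    rw [mul_zero] at t
    obtain ⟨I, hI⟩ := eventually_atTop.mp ((tendsto_order.mp t).2 1 one_pos)
    refine ⟨I, fun i hi => le_trans ?_ (hI i hi).le⟩
    have h3 : (mu : ℝ) ^ (i - ⌊θ * i⌋₊) ≤ mu * ((mu : ℝ) ^ (1 - θ)) ^ i := by
      have e1 : (mu : ℝ) * ((mu : ℝ) ^ (1 - θ)) ^ i = (mu : ℝ) ^ (1 + (1 - θ) * i) := by
        rw [← Real.rpow_natCast ((mu : ℝ) ^ (1 - θ)) i, ← Real.rpow_mul hmu0.le,
          Real.rpow_add hmu0, Real.rpow_one]
      rw [e1, ← Real.rpow_natCast (mu : ℝ) (i - ⌊θ * i⌋₊)]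
      apply Real.rpow_le_rpow_of_exponent_le hmu1
      rw [Nat.cast_sub (hle i)]
      have := hfl' i
      linarith
    push_cast
    rw [pow_add]
    calc 36 * K * β ^ i * ((mu : ℝ) ^ (i - ⌊θ * i⌋₊) * mu ^ j)
        ≤ 36 * K * β ^ i * ((mu * ((mu : ℝ) ^ (1 - θ)) ^ i) * mu ^ j) := by
          apply mul_le_mul_of_nonneg_left _ (by positivity)
          exact mul_le_mul_of_nonneg_right h3 (by positivity)
      _ = 36 * K * mu * mu ^ j * q ^ i := by rw [hq, mul_pow]; ring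

namespace HypSys

variable {X E : Type*} [MetricSpace X] [NormedAddCommGroup E] [NormedSpace ℝ E]

/-- The quadrilateral system. -/
theorem exists_qsys [CompactSpace X] (S : HypSys X E)
    (α β : ℝ) (hα : S.a < α) (hβ : S.b < β) (hα2 : α ≤ 1 / 2) (hβ2 : β ≤ 1 / 2) (ms mu : ℕ)
    (hms : 4 * S.Ls ≤ ms) (hmu : 4 * S.Lu ≤ mu) (ρ : ℝ) (hρ : 1 ≤ ρ) (h1 : ms * α ^ ρ < 1)
    (h2 : (mu : ℝ) ^ (ρ - 1) * β ^ ρ < 1) : ∃ T : QSys X, T.g = S.g.toEquiv := by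
  have hK := S.one_le_K
  have hLs := S.one_le_Ls
  have hLu := S.one_le_Lu
  have hα0 : 0 < α := lt_of_le_of_lt S.a_nonneg hα
  have hβ0 : 0 < β := lt_of_le_of_lt S.b_nonneg hβ
  have hms2 : 2 ≤ ms := by
    have : (2 : ℝ) ≤ ms := by linarith
    exact_mod_cast this
  have hmu2 : 2 ≤ mu := by
    have : (2 : ℝ) ≤ mu := by linarith
    exact_mod_cast this
  have hmu0 : (0 : ℝ) < mu := by linarith
  -- a slightly larger exponent
  obtain ⟨ρ', hρ'1, hρ'2⟩ : ∃ ρ' : ℝ, (mu : ℝ) ^ (ρ' - 1) * β ^ ρ' < 1 ∧ ρ < ρ' := by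
    have hc : ContinuousAt (fun t : ℝ => (mu : ℝ) ^ (t - 1) * β ^ t) ρ := by
      apply ContinuousAt.mul
      · exact (continuousAt_const.rpow (continuousAt_id.sub continuousAt_const)
          (Or.inl hmu0.ne'))
      · exact continuousAt_const.rpow continuousAt_id (Or.inl hβ0.ne')
    have he : ∀ᶠ t in 𝓝[>] ρ, (mu : ℝ) ^ (t - 1) * β ^ t < 1 :=
      eventually_nhdsWithin_of_eventually_nhds (hc.eventually (gt_mem_nhds h2))
    obtain ⟨t, ht1, ht2⟩ := (he.and self_mem_nhdsWithin).exists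
    exact ⟨t, ht1, ht2⟩
  have h1' : ms * α ^ ρ' < 1 := by
    refine lt_of_le_of_lt ?_ h1
    apply mul_le_mul_of_nonneg_left _ (by positivity)
    exact Real.rpow_le_rpow_of_exponent_ge hα0 (by linarith) hρ'2.le
  obtain ⟨tk, t1, t2, t3, t4, t5, t6⟩ := exists_times α β S.K ρ' ms mu hα0 (by linarith) hβ0
    (by linarith) (by omega) (by omega) (by linarith) (by linarith) h1' hρ'1
  obtain ⟨T, hg, hTK, hTα, hTβ, hTms, hTmu, -⟩ :=
    S.exists_csys α β hα hβ hα2 hβ2 ms mu hms hmu 1 one_pos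
  have uc : ∀ F : X → X, Continuous F → ∀ k : ℕ, ∀ ε > 0, ∃ η > 0, ∀ x y, dist x y ≤ η →
      dist (F^[k] x) (F^[k] y) ≤ ε := by
    intro F hF k ε hε
    have := CompactSpace.uniformContinuous_of_continuous (hF.iterate k)
    obtain ⟨η, hη, h⟩ := Metric.uniformContinuous_iff.mp this ε hε
    exact ⟨η / 2, by positivity, fun x y hxy => (h (by linarith)).le⟩
  refine ⟨{
    toCSys := T
    tk := tk
    tk_le := t1
    tk_step := t2
    tk_top := t3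
    tm_top := t4
    growS := by rw [hTK, hTα, hTms]; exact t5
    growU := by rw [hTK, hTβ, hTmu]; exact t6
    ms_ge := by rw [hTms]; exact hms2
    mu_ge := by rw [hTmu]; exact hmu2
    ucS := by rw [hg]; exact uc S.g.symm S.g.symm.continuous
    ucU := by rw [hg]; exact uc S.g S.g.continuous }, hg⟩

end HypSys

end Pool.Agent.H721R2
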