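import Pool.Agent.H721R2.Build
import Pool.Agent.H721R2.MkQ
import Pool.Agent.H721R2.PerPt
import Pool.Agent.H721R2.LeafHomeo

set_option autoImplicit false
set_option linter.unusedSectionVars false

open scoped Manifold ContDiff Topology
open Set Filter

namespace Pool.Agent.H721R2

variable {E₀ : Type*} [NormedAddCommGroup E₀] [NormedSpace ℝ E₀] [FiniteDimensional ℝ E₀]
  {M : Type*} [MetricSpace M] [CompactSpace M] [ChartedSpace E₀ M] [IsManifold 𝓘(ℝ, E₀) 1 M]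
  {F : Type*} [NormedAddCommGroup F] [NormedSpace ℝ F]

theorem EAnosov.iter {e : M → F} {f : M ≃ₜ M} {Es Eu : M → Submodule ℝ E₀} {C a b Ls Lu : ℝ}
    (h : EAnosov e f Es Eu C a b Ls Lu) (q : ℕ) (hq : 1 ≤ q) :
    EAnosov e (iterHomeo f q) Es Eu C (a ^ q) (b ^ q) (Ls ^ q) (Lu ^ q) := by
  have e1 : ∀ n : ℕ, (iterHomeo f q)^[n] = f^[q * n] := fun n => by
    rw [Function.iterate_mul]; rfl
  have e2 : ∀ n : ℕ, (iterHomeo f q).symm^[n] = f.symm^[q * n] := fun n => by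
    rw [Function.iterate_mul]; rfl
  have hq0 : q ≠ 0 := by omega
  exact {
    smooth := iter_smooth f h.smooth q
    smooth' := iter_smooth f.symm h.smooth' q
    compl := h.compl
    C_pos := h.C_pos
    a_pos := pow_pos h.a_pos q
    b_pos := pow_pos h.b_pos q
    a_lt := pow_lt_one₀ h.a_pos.le h.a_lt hq0
    b_lt := pow_lt_one₀ h.b_pos.le h.b_lt hq0
    Ls_le := one_le_pow₀ h.Ls_le
    Lu_le := one_le_pow₀ h.Lu_le
    mapS := fun n x v hv => by rw [e1]; exact h.mapS (q * n) x v hv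
    mapU := fun n x v hv => by rw [e1]; exact h.mapU (q * n) x v hv
    mapS' := fun n x v hv => by rw [e2]; exact h.mapS' (q * n) x v hv
    mapU' := fun n x v hv => by rw [e2]; exact h.mapU' (q * n) x v hv
    hS := fun n x v hv => by rw [e1, ← pow_mul]; exact h.hS (q * n) x v hv
    hU' := fun n x v hv => by rw [e2, ← pow_mul]; exact h.hU' (q * n) x v hv
    hS' := fun n x v hv => by rw [e2, ← pow_mul]; exact h.hS' (q * n) x v hv
    hU := fun n x v hv => by rw [e1, ← pow_mul]; exact h.hU (q * n) x v hv }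

/-- Periodic points of Anosov data. -/
theorem EAnosov.exists_periodic [Nonempty M] {e : M → F}
    (hiso : ∀ x y, dist x y = ‖e x - e y‖)
    (he : ContMDiff 𝓘(ℝ, E₀) 𝓘(ℝ, F) 1 e) (hinj : ∀ x, Function.Injective (dm E₀ e x))
    {f : M ≃ₜ M} {Es Eu : M → Submodule ℝ E₀} {C a b Ls Lu : ℝ}
    (h : EAnosov e f Es Eu C a b Ls Lu) : ∃ q : ℕ, 1 ≤ q ∧ ∃ p, f^[q] p = p := by
  obtain ⟨K, hK, hang⟩ := h.angle he hinj
  have hC := h.C_pos
  have ha0 := h.a_pos
  have hb0 := h.b_pos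
  have t1 : Tendsto (fun n : ℕ => K * (C * a ^ n)) atTop (𝓝 0) := by
    have := ((tendsto_pow_atTop_nhds_zero_of_lt_one ha0.le h.a_lt).const_mul C).const_mul K
    simpa using this
  have t2 : Tendsto (fun n : ℕ => K * (C * b ^ n)) atTop (𝓝 0) := by
    have := ((tendsto_pow_atTop_nhds_zero_of_lt_one hb0.le h.b_lt).const_mul C).const_mul K
    simpa using this
  obtain ⟨N, ⟨hN1, hN2⟩, hN3⟩ := ((((tendsto_order.mp t1).2 (1 / 16) (by norm_num)).and
    ((tendsto_order.mp t2).2 (1 / 16) (by norm_num))).and (eventually_ge_atTop 1)).exists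
  obtain ⟨S, hg, -⟩ := exists_hypSys hiso he hinj h K hK hang N hN1.le hN2.le
  obtain ⟨q, hq, p, hp⟩ := S.exists_periodic
  refine ⟨N * q, Nat.mul_pos hN3 hq, p, ?_⟩
  rw [Function.iterate_mul]
  rw [hg] at hp
  exact hp

/-- Covering by the model space, for Anosov data in an ambient space. -/
theorem EAnosov.covered [Nonempty M] {e : M → F}
    (hiso : ∀ x y, dist x y = ‖e x - e y‖)
    (he : ContMDiff 𝓘(ℝ, E₀) 𝓘(ℝ, F) 1 e) (hinj : ∀ x, Function.Injective (dm E₀ e x))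
    {f : M ≃ₜ M} {Es Eu : M → Submodule ℝ E₀} {C a b Ls Lu : ℝ}
    (h : EAnosov e f Es Eu C a b Ls Lu) (ρ : ℝ) (hρ : 1 ≤ ρ)
    (h1 : Ls * a ^ ρ < 1) (h2 : Lu ^ (ρ - 1) * b ^ ρ < 1) :
    ∃ π : E₀ → M, IsCoveringMap π := by
  obtain ⟨q, hq, p, hp⟩ := h.exists_periodic hiso he hinj
  have hh := h.iter q hq
  have ha0 := h.a_pos
  have hb0 := h.b_pos
  have hLs0 : 0 < Ls := by linarith [h.Ls_le]
  have hLu0 : 0 < Lu := by linarith [h.Lu_le]
  have hq0 : q ≠ 0 := by omega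
  have hpow : ∀ z : ℝ, 0 < z → (z ^ q) ^ ρ = (z ^ ρ) ^ q := by
    intro z hz
    rw [← Real.rpow_natCast z q, ← Real.rpow_natCast (z ^ ρ) q, ← Real.rpow_mul hz.le,
      ← Real.rpow_mul hz.le, mul_comm]
  have hpow' : ∀ z : ℝ, 0 < z → (z ^ q) ^ (ρ - 1) = (z ^ (ρ - 1)) ^ q := by
    intro z hz
    rw [← Real.rpow_natCast z q, ← Real.rpow_natCast (z ^ (ρ - 1)) q, ← Real.rpow_mul hz.le,
      ← Real.rpow_mul hz.le, mul_comm]
  have h1' : Ls ^ q * (a ^ q) ^ ρ < 1 := by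
    rw [hpow a ha0, ← mul_pow]
    exact pow_lt_one₀ (by positivity) h1 hq0
  have h2' : (Lu ^ q) ^ (ρ - 1) * (b ^ q) ^ ρ < 1 := by
    rw [hpow b hb0, hpow' Lu hLu0, ← mul_pow]
    exact pow_lt_one₀ (by positivity) h2 hq0
  obtain ⟨K, hK, hang⟩ := hh.angle he hinj
  have hC := h.C_pos
  have hC0 : 0 < C := by linarith
  obtain ⟨N, hN1, hKa, hKb, h3, h4, h5, h6⟩ := exists_good_N C (a ^ q) (b ^ q) (Ls ^ q) (Lu ^ q) ρ K
    hC hh.a_pos hh.a_lt hh.b_pos hh.b_lt hh.Ls_le hh.Lu_le hρ h1' h2' hK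
  obtain ⟨S, hg, hSa, hSb, hSLs, hSLu, hSK⟩ := exists_hypSys hiso he hinj hh K hK hang N hKa hKb
  have haN : 0 < C * (a ^ q) ^ N := by positivity
  have hbN : 0 < C * (b ^ q) ^ N := by positivity
  have hLsN : 1 ≤ C * (Ls ^ q) ^ N := by
    have := one_le_pow₀ hh.Ls_le (n := N)
    nlinarith
  have hLuN : 1 ≤ C * (Lu ^ q) ^ N := by
    have := one_le_pow₀ hh.Lu_le (n := N)
    nlinarith
  set ms := ⌈4 * (C * (Ls ^ q) ^ N)⌉₊ with hms
  set mu := ⌈4 * (C * (Lu ^ q) ^ N)⌉₊ with hmu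
  have hms1 : 4 * (C * (Ls ^ q) ^ N) ≤ ms := Nat.le_ceil _
  have hmu1 : 4 * (C * (Lu ^ q) ^ N) ≤ mu := Nat.le_ceil _
  have hms2 : (ms : ℝ) ≤ 5 * C * (Ls ^ q) ^ N := by
    have := Nat.ceil_lt_add_one (by positivity : 0 ≤ 4 * (C * (Ls ^ q) ^ N))
    linarith
  have hmu2 : (mu : ℝ) ≤ 5 * C * (Lu ^ q) ^ N := by
    have := Nat.ceil_lt_add_one (by positivity : 0 ≤ 4 * (C * (Lu ^ q) ^ N))
    linarith
  obtain ⟨T, hT⟩ := S.exists_qsys (2 * (C * (a ^ q) ^ N)) (2 * (C * (b ^ q) ^ N))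
    (by rw [hSa]; linarith) (by rw [hSb]; linarith) h3 h4 ms mu (by rw [hSLs]; exact hms1)
    (by rw [hSLu]; exact hmu1) ρ hρ
    (by
      refine lt_of_le_of_lt ?_ h5
      exact mul_le_mul_of_nonneg_right hms2 (by positivity))
    (by
      refine lt_of_le_of_lt ?_ h6
      apply mul_le_mul_of_nonneg_right _ (by positivity)
      exact Real.rpow_le_rpow (by positivity) hmu2 (by linarith))
  have hTp : T.g p = p := by
    rw [hT, hg]
    show (iterHomeo f q)^[N] p = p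
    exact Function.iterate_fixed hp N
  have : ProperSpace E₀ := FiniteDimensional.proper_real E₀
  exact QSys.exists_covering (T := T) (E := E₀) hTp

/-- A covering map with nonempty source and connected target is surjective. -/
theorem covering_surjective {A B : Type*} [TopologicalSpace A] [TopologicalSpace B] [Nonempty A]
    [PreconnectedSpace B] {π : A → B} (hπ : IsCoveringMap π) : Function.Surjective π := by
  rw [← range_eq_univ]
  apply IsClopen.eq_univ _ (range_nonempty π)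
  refine ⟨?_, hπ.isOpenMap.isOpen_range⟩
  rw [← isOpen_compl_iff, isOpen_iff_mem_nhds]
  intro x hx
  obtain ⟨-, U, hxU, hU, -, H, hH⟩ := hπ x
  refine mem_of_superset (hU.mem_nhds hxU) ?_
  rintro y hy ⟨z, rfl⟩
  obtain ⟨w, hw⟩ := (H ⟨z, hy⟩).2
  exact hx ⟨w, hw⟩

end Pool.Agent.H721R2
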