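import Pool.Agent.H721R2.Trans

set_option autoImplicit false

namespace Pool.Agent.H721R2

namespace HypSys

variable {X E : Type*} [MetricSpace X] [NormedAddCommGroup E] [NormedSpace ℝ E]

open Filter Topology

theorem exists_setup [CompactSpace X] (S : HypSys X E) (α β : ℝ) (hα : S.a < α) (hβ : S.b < β)
    (hα2 : α ≤ 1 / 2) (hβ2 : β ≤ 1 / 2) (ms mu : ℕ) (hms : 4 * S.Ls ≤ ms) (hmu : 4 * S.Lu ≤ mu)
    (growth : ∀ N J : ℕ, ∃ k n : ℕ, 1 ≤ k ∧ k ≤ n ∧ 2 * ((ms : ℝ) ^ k * N) * α ^ n ≤ 1 ∧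
      36 * S.K * β ^ n * ((mu : ℝ) ^ (n - k) * J) ≤ 1) : Nonempty S.Setup := by
  obtain ⟨e1, he1, h1⟩ := S.contraction_iter α hα
  obtain ⟨e2, he2, h2⟩ := S.symm.contraction_iter β hβ
  obtain ⟨e3, he3, h3⟩ := S.local_product
  obtain ⟨e4, he4, h4⟩ := S.subdivide ms hms
  obtain ⟨e5, he5, h5⟩ := S.symm.subdivide mu hmu
  have hK := S.one_le_K
  have hK0 : 0 < S.K := by linarith
  set εs := min e1 e2 with hεs
  have hεs0 : 0 < εs := lt_min he1 he2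
  set δ := min (min (εs / (36 * S.K + 2)) (e3 / 2)) (min e4 e5) with hδ
  have hδ0 : 0 < δ := by
    simp only [hδ, lt_min_iff]
    exact ⟨⟨by positivity, by positivity⟩, he4, he5⟩
  have d1 : δ ≤ εs / (36 * S.K + 2) := (min_le_left _ _).trans (min_le_left _ _)
  have d2 : δ ≤ e3 / 2 := (min_le_left _ _).trans (min_le_right _ _)
  have d3 : δ ≤ e4 := (min_le_right _ _).trans (min_le_left _ _)
  have d4 : δ ≤ e5 := (min_le_right _ _).trans (min_le_right _ _)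
  exact ⟨{
    δ := δ
    α := α
    β := β
    εs := εs
    ms := ms
    mu := mu
    δ_pos := hδ0
    α_pos := le_trans S.a_nonneg hα.le
    β_pos := le_trans S.b_nonneg hβ.le
    α_le := hα2
    β_le := hβ2
    hδ := by
      rw [le_div_iff₀ (by positivity)] at d1
      linarith
    contrS := fun x y hxy k => h1 x y (hxy.mono (min_le_left _ _)) k
    contrU := fun x y hxy k => h2 x y
      ((S.SRel_symm_sys _ _ _).mpr (hxy.mono (min_le_right _ _))) k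
    lp := fun x y hxy => h3 x y (by linarith)
    subS := fun x y hxy => h4 δ hδ0 d3 x y hxy
    subU := fun x y hxy => h5 δ hδ0 d4 x y hxy
    growth := growth }⟩

/-- Abstract pinching theorem. -/
theorem transitive_of_growth [CompactSpace X] [PreconnectedSpace X] (S : HypSys X E) (α β : ℝ)
    (hα : S.a < α) (hβ : S.b < β)
    (hα2 : α ≤ 1 / 2) (hβ2 : β ≤ 1 / 2) (ms mu : ℕ) (hms : 4 * S.Ls ≤ ms) (hmu : 4 * S.Lu ≤ mu)
    (growth : ∀ N J : ℕ, ∃ k n : ℕ, 1 ≤ k ∧ k ≤ n ∧ 2 * ((ms : ℝ) ^ k * N) * α ^ n ≤ 1 ∧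
      36 * S.K * β ^ n * ((mu : ℝ) ^ (n - k) * J) ≤ 1)
    (U V : Set X) (hU : IsOpen U) (hUn : U.Nonempty) (hV : IsOpen V) (hVn : V.Nonempty) :
    ∃ n : ℕ, (S.g^[n] '' U ∩ V).Nonempty := by
  obtain ⟨T⟩ := S.exists_setup α β hα hβ hα2 hβ2 ms mu hms hmu growth
  exact S.transitive T U V hU hUn hV hVn

/-- Elementary growth statement. -/
theorem growth_of_lt (α β ms mu K ρ : ℝ) (hα0 : 0 < α) (hα1 : α < 1) (hβ0 : 0 < β) (hβ1 : β < 1)
    (hms : 1 ≤ ms) (hmu : 1 ≤ mu) (hK : 0 ≤ K) (hρ : 1 ≤ ρ) (h1 : ms * α ^ ρ < 1)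
    (h2 : mu ^ (ρ - 1) * β ^ ρ < 1) (N J : ℕ) :
    ∃ k n : ℕ, 1 ≤ k ∧ k ≤ n ∧ 2 * (ms ^ k * N) * α ^ n ≤ 1 ∧
      36 * K * β ^ n * (mu ^ (n - k) * J) ≤ 1 := by
  have hq1 : 0 ≤ ms * α ^ ρ := by positivity
  have hq2 : 0 ≤ mu ^ (ρ - 1) * β ^ ρ := by positivity
  have t1 : Tendsto (fun k : ℕ => 2 * N * (ms * α ^ ρ) ^ k) atTop (𝓝 0) := by
    have := (tendsto_pow_atTop_nhds_zero_of_lt_one hq1 h1).const_mul (2 * (N : ℝ))
    simpa using this
  have t2 : Tendsto (fun k : ℕ => 36 * K * J * mu * (mu ^ (ρ - 1) * β ^ ρ) ^ k) atTop (𝓝 0) := by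
    have := (tendsto_pow_atTop_nhds_zero_of_lt_one hq2 h2).const_mul (36 * K * J * mu)
    simpa using this
  have ev1 := (tendsto_order.mp t1).2 1 one_pos
  have ev2 := (tendsto_order.mp t2).2 1 one_pos
  obtain ⟨k, ⟨hk1, hk2⟩, hk3⟩ := ((ev1.and ev2).and (eventually_ge_atTop 1)).exists
  set n := ⌈ρ * k⌉₊ with hn
  have hρk : 0 ≤ ρ * k := by positivity
  have hn1 : ρ * k ≤ n := Nat.le_ceil _
  have hn2 : (n : ℝ) < ρ * k + 1 := Nat.ceil_lt_add_one hρk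
  have hkn : k ≤ n := by
    have : (k : ℝ) ≤ ρ * k := by
      have : (0 : ℝ) ≤ k := by positivity
      nlinarith
    exact_mod_cast this.trans hn1
  refine ⟨k, n, hk3, hkn, ?_, ?_⟩
  · have h3 : α ^ n ≤ (α ^ ρ) ^ k := by
      rw [← Real.rpow_natCast α n, ← Real.rpow_natCast (α ^ ρ) k, ← Real.rpow_mul hα0.le]
      exact Real.rpow_le_rpow_of_exponent_ge hα0 hα1.le hn1
    calc 2 * (ms ^ k * N) * α ^ n ≤ 2 * (ms ^ k * N) * (α ^ ρ) ^ k :=
          mul_le_mul_of_nonneg_left h3 (by positivity)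
      _ = 2 * N * (ms * α ^ ρ) ^ k := by rw [mul_pow]; ring
      _ ≤ 1 := hk1.le
  · have h3 : β ^ n ≤ (β ^ ρ) ^ k := by
      rw [← Real.rpow_natCast β n, ← Real.rpow_natCast (β ^ ρ) k, ← Real.rpow_mul hβ0.le]
      exact Real.rpow_le_rpow_of_exponent_ge hβ0 hβ1.le hn1
    have h4 : mu ^ (n - k) ≤ mu * (mu ^ (ρ - 1)) ^ k := by
      rw [← Real.rpow_natCast mu (n - k), ← Real.rpow_natCast (mu ^ (ρ - 1)) k,
        ← Real.rpow_mul (by linarith)]
      have h5 : mu * mu ^ ((ρ - 1) * k) = mu ^ (1 + (ρ - 1) * k) := by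
        rw [Real.rpow_add (by linarith), Real.rpow_one]
      rw [h5]
      apply Real.rpow_le_rpow_of_exponent_le hmu
      push_cast [hkn]
      linarith
    calc 36 * K * β ^ n * (mu ^ (n - k) * J)
        ≤ 36 * K * (β ^ ρ) ^ k * (mu * (mu ^ (ρ - 1)) ^ k * J) := by
          apply mul_le_mul
          · exact mul_le_mul_of_nonneg_left h3 (by positivity)
          · exact mul_le_mul_of_nonneg_right h4 (by positivity)
          · positivity
          · positivity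
      _ = 36 * K * J * mu * (mu ^ (ρ - 1) * β ^ ρ) ^ k := by rw [mul_pow]; ring
      _ ≤ 1 := hk2.le

end HypSys

end Pool.Agent.H721R2
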