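import Pool.Agent.H721R2.Quad
import Pool.Agent.H721R2.CovMap

set_option autoImplicit false

open Filter Topology BoundedContinuousFunction

namespace Pool.Agent.H721R2

namespace QSys

variable {Y : Type*} [MetricSpace Y]

/-- The product of the unstable leaf and the stable leaf of `p`. -/
@[ext]
structure Leaf (T : QSys Y) (p : Y) where
  u : Y
  s : Y
  hu : T.WU p u
  hs : T.WS p s

variable {T : QSys Y} {p : Y}

/-- the orbit as a bounded function -/
noncomputable def orb [CompactSpace Y] (f : Y → Y) (y : Y) : ℕ →ᵇ Y :=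
  BoundedContinuousFunction.mkOfBound ⟨fun k => f^[k] y, continuous_of_discreteTopology⟩
    (Metric.diam (Set.univ : Set Y))
    (fun _ _ => Metric.dist_le_diam_of_mem isCompact_univ.isBounded (Set.mem_univ _)
      (Set.mem_univ _))

theorem orb_apply [CompactSpace Y] (f : Y → Y) (y : Y) (k : ℕ) : orb f y k = f^[k] y := rfl

theorem orb_dist [CompactSpace Y] (f : Y → Y) (y y' : Y) {ε : ℝ} (hε : 0 ≤ ε) :
    dist (orb f y) (orb f y') ≤ ε ↔ FRel f ε y y' := by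
  rw [BoundedContinuousFunction.dist_le hε]
  rfl

theorem orb_inj [CompactSpace Y] (f : Y → Y) {y y' : Y} (h : orb f y = orb f y') : y = y' := by
  have := congrArg (fun F : ℕ →ᵇ Y => F 0) h
  simpa [orb_apply] using this

noncomputable instance [CompactSpace Y] : MetricSpace (Leaf T p) :=
  MetricSpace.induced (fun z => (orb T.g.symm z.u, orb T.g z.s))
    (fun z z' h => by
      rw [Prod.mk.injEq] at h
      ext
      · exact orb_inj _ h.1
      · exact orb_inj _ h.2) inferInstance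

theorem leaf_dist [CompactSpace Y] (z z' : Leaf T p) {ε : ℝ} (hε : 0 ≤ ε) :
    dist z z' ≤ ε ↔ FRel T.g.symm ε z.u z'.u ∧ FRel T.g ε z.s z'.s := by
  have : dist z z' = max (dist (orb T.g.symm z.u) (orb T.g.symm z'.u))
    (dist (orb T.g z.s) (orb T.g z'.s)) := rfl
  rw [this, max_le_iff, orb_dist _ _ _ hε, orb_dist _ _ _ hε]

/-- The projection. -/
noncomputable def Leaf.pr (z : Leaf T p) : Y := (T.Q_exists z.hs z.hu).choose

theorem Leaf.pr_spec (z : Leaf T p) : T.Q p z.s z.u z.pr := (T.Q_exists z.hs z.hu).choose_spec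

theorem Leaf.pr_eq {z : Leaf T p} {x : Y} (h : T.Q p z.s z.u x) : z.pr = x :=
  T.Q_unique z.pr_spec h

/-- `z'` is reached from `z` by a small stable step followed by a small unstable step. -/
def Nb (ε : ℝ) (z z' : Leaf T p) : Prop :=
  ∃ w, T.Q p z'.s z.u w ∧ FRel T.g ε z.pr w ∧ FRel T.g.symm ε w z'.pr

theorem Nb.mono {ε ε' : ℝ} (h : ε ≤ ε') {z z' : Leaf T p} (hn : Nb ε z z') : Nb ε' z z' := by
  obtain ⟨w, h1, h2, h3⟩ := hn
  exact ⟨w, h1, h2.mono h, h3.mono h⟩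

/-- existence of sheets -/
theorem Nb_exists (ε : ℝ) (hε : 0 < ε) : ∃ η > 0, ∀ (z : Leaf T p) (y : Y), dist z.pr y < η →
    ∃ z' : Leaf T p, z'.pr = y ∧ Nb ε z z' := by
  have hδ := T.δ_pos
  have hK : 0 < T.K := by linarith [T.one_le_K]
  refine ⟨min (min ε T.δ / (9 * T.K)) (2 * T.δ), by positivity, fun z y hy => ?_⟩
  obtain ⟨w, h1, h2⟩ := T.lp z.pr y (hy.le.trans (min_le_right _ _))
  have h9 : 9 * T.K * dist z.pr y ≤ min ε T.δ := by
    have := hy.le.trans (min_le_left _ _)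
    rw [le_div_iff₀ (by positivity)] at this
    linarith
  have hw1 := h1.mono (h9.trans (min_le_left _ _))
  have hw2 := h2.mono (h9.trans (min_le_left _ _))
  have hw3 : T.LS 0 z.pr w := h1.mono (h9.trans (min_le_right _ _))
  have hw4 : T.LU 0 w y := h2.mono (h9.trans (min_le_right _ _))
  -- the stable coordinate
  have hxs : T.WU z.pr z.s := WU.symm T (T.Q_WU z.pr_spec)
  obtain ⟨s', hs'⟩ := T.Q_exists (⟨0, hw3⟩ : T.WS z.pr w) hxs
  have hss' : T.WS z.s s' := T.Q_WS hs'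
  have hQ1 : T.Q p s' z.u w := T.Q_compS z.pr_spec (T.Q_flipU hs')
  -- the unstable coordinate
  have hwu : T.WS w z.u := WS.symm T (T.Q_WS hQ1)
  obtain ⟨u', hu'⟩ := T.Q_exists hwu (⟨0, hw4⟩ : T.WU w y)
  have huu' : T.WU z.u u' := T.Q_WU hu'
  have hQ2 : T.Q p s' u' y := T.Q_compU hQ1 (T.Q_flipS hu')
  let z' : Leaf T p := ⟨u', s', WU.trans T z.hu huu', WS.trans T z.hs hss'⟩
  have hpr : z'.pr = y := Leaf.pr_eq hQ2
  exact ⟨z', hpr, w, hQ1, hw1, by rw [hpr]; exact hw2⟩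

/-- uniqueness of sheets -/
theorem Nb_unique {ε : ℝ} (hε : 2 * ε ≤ T.εs) {z z' z'' : Leaf T p} (h : Nb ε z z')
    (h' : Nb ε z z'') (hpr : z'.pr = z''.pr) : z' = z'' := by
  obtain ⟨w, h1, h2, h3⟩ := h
  obtain ⟨w', h1', h2', h3'⟩ := h'
  rw [← hpr] at h3'
  have e1 : w = w' := T.toCSys.expansive hε ((h2.symm.trans h2').mono (by linarith))
    ((h3.trans h3'.symm).mono (by linarith))
  rw [← e1] at h1'
  have e2 : z'.s = z''.s := T.Q_unique (T.Q_flipU h1) (T.Q_flipU h1')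
  have h4 := z'.pr_spec
  have h5 := z''.pr_spec
  rw [← hpr, ← e2] at h5
  have e3 : z'.u = z''.u := T.Q_unique (T.Q_flipS h4) (T.Q_flipS h5)
  exact Leaf.ext e3 e2

/-- triangles -/
theorem Nb_trans : ∃ ε₃ > 0, ∀ ε ≤ ε₃, ∀ z z' z'' : Leaf T p, Nb ε z z' → Nb ε z' z'' →
    Nb (19 * T.K * ε) z z'' := by
  have hδ := T.δ_pos
  have hK : 0 < T.K := by linarith [T.one_le_K]
  have hK1 := T.one_le_K
  obtain ⟨ε₂, hε₂, htiny⟩ := T.exists_tiny
  refine ⟨min (ε₂ / (18 * T.K)) T.δ, by positivity, fun ε hε z z' z'' h h' => ?_⟩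
  have l1 : 18 * T.K * ε ≤ ε₂ := by
    have := hε.trans (min_le_left _ _)
    rw [le_div_iff₀ (by positivity)] at this
    linarith
  have l2 : ε ≤ T.δ := hε.trans (min_le_right _ _)
  obtain ⟨w, h1, h2, h3⟩ := h
  obtain ⟨w', h1', h2', h3'⟩ := h'
  have hε0 : 0 ≤ ε := CSys.FRel_nonneg h2
  have l3 : ε ≤ 18 * T.K * ε := by nlinarith
  have hd : dist w w' ≤ 2 * ε := by
    have a1 := h3.dist_le
    have a2 := h2'.dist_le
    have := dist_triangle w z'.pr w'
    linarith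
  obtain ⟨v, hv1, hv2⟩ := T.lp w w' (by linarith)
  have hv : 9 * T.K * dist w w' ≤ 18 * T.K * ε := by
    have := mul_le_mul_of_nonneg_left hd (by positivity : 0 ≤ 9 * T.K)
    linarith
  have hv1 := hv1.mono hv
  have hv2 := hv2.mono hv
  have q1 : T.Q z'.pr w' w v := htiny _ _ _ _ (h2'.mono (by linarith))
    (h3.symm.mono (by linarith)) (hv1.mono l1) (hv2.symm.mono l1)
  have q2 : T.Q z'.s z''.s z'.pr w' := T.Q_compS (T.Q_flipS z'.pr_spec) h1'
  have q3 : T.Q z'.s z''.s w v := T.Q_compU q2 q1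
  have q4 : T.Q p z''.s z.u v := T.Q_compS h1 q3
  refine ⟨v, q4, (h2.trans hv1).mono ?_, (hv2.trans h3').mono ?_⟩
  · nlinarith
  · nlinarith

/-- symmetry -/
theorem Nb_symm : ∃ ε₃ > 0, ∀ ε ≤ ε₃, ∀ z z' : Leaf T p, Nb ε z z' →
    Nb (18 * T.K * ε) z' z := by
  have hδ := T.δ_pos
  have hK : 0 < T.K := by linarith [T.one_le_K]
  have hK1 := T.one_le_K
  obtain ⟨ε₂, hε₂, htiny⟩ := T.exists_tiny
  refine ⟨min (ε₂ / (18 * T.K)) T.δ, by positivity, fun ε hε z z' h => ?_⟩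
  have l1 : 18 * T.K * ε ≤ ε₂ := by
    have := hε.trans (min_le_left _ _)
    rw [le_div_iff₀ (by positivity)] at this
    linarith
  have l2 : ε ≤ T.δ := hε.trans (min_le_right _ _)
  obtain ⟨w, h1, h2, h3⟩ := h
  have hε0 : 0 ≤ ε := CSys.FRel_nonneg h2
  have l3 : ε ≤ 18 * T.K * ε := by nlinarith
  have hd : dist z'.pr z.pr ≤ 2 * ε := by
    have a1 := h3.dist_le
    have a2 := h2.dist_le
    have := dist_triangle z'.pr w z.pr
    rw [dist_comm z'.pr w, dist_comm w z.pr] at this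
    linarith
  obtain ⟨v, hv1, hv2⟩ := T.lp z'.pr z.pr (by linarith)
  have hv : 9 * T.K * dist z'.pr z.pr ≤ 18 * T.K * ε := by
    have := mul_le_mul_of_nonneg_left hd (by positivity : 0 ≤ 9 * T.K)
    linarith
  have hv1 := hv1.mono hv
  have hv2 := hv2.mono hv
  have q1 : T.Q w z.pr z'.pr v := htiny _ _ _ _ (h2.symm.mono (by linarith))
    (h3.mono (by linarith)) (hv1.mono l1) (hv2.symm.mono l1)
  have q2 : T.Q z'.s z.s w z.pr := T.Q_compS (T.Q_flipS h1) z.pr_spec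
  have q3 : T.Q z'.s z.s z'.pr v := T.Q_compU q2 q1
  have q4 : T.Q p z.s z'.u v := T.Q_compS z'.pr_spec q3
  exact ⟨v, q4, hv1, hv2⟩

/-- closeness in the leaf space implies `Nb` -/
theorem Nb_of_dist [CompactSpace Y] (z : Leaf T p) (ε : ℝ) (hε : 0 < ε) : ∃ r > 0,
    ∀ z' : Leaf T p, dist z z' < r → Nb ε z z' := by
  have hδ := T.δ_pos
  obtain ⟨j1, hj1⟩ := T.Q_WU z.pr_spec
  obtain ⟨η1, hη1, H1⟩ := T.Q_contS j1 (min ε (T.δ / 2)) (by positivity)
  -- a stable level for `u`, `x`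
  obtain ⟨j2, hj2⟩ : ∃ j, FRel T.g (T.δ / 2) (T.g^[j] z.u) (T.g^[j] z.pr) := by
    obtain ⟨j, hj⟩ := T.Q_WS z.pr_spec
    refine ⟨1 + j, ?_⟩
    have := T.toCSys.shrink T.toCSys.δ_le_εs hj hj.dist_le 1
    rw [← Function.iterate_add_apply, ← Function.iterate_add_apply, pow_one] at this
    refine this.mono ?_
    have := T.α_le
    nlinarith
  obtain ⟨η2, hη2, H2⟩ := T.Q_contU j2 ε hε
  refine ⟨min η1 η2, lt_min hη1 hη2, fun z' hz' => ?_⟩
  obtain ⟨hu, hs⟩ := (leaf_dist z z' (le_min hη1.le hη2.le)).mp hz'.le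
  obtain ⟨w, hw⟩ := T.Q_exists z'.hs z.hu
  have q1 : T.Q z.s z'.s z.pr w := T.Q_compS (T.Q_flipS z.pr_spec) hw
  have h1 : FRel T.g (min ε (T.δ / 2)) z.pr w := H1 _ _ _ _ q1 (hs.mono (min_le_left _ _)) hj1
  have q2 : T.Q z.u w z'.u z'.pr := T.Q_compU (T.Q_flipU hw) z'.pr_spec
  have h2 : FRel T.g.symm ε w z'.pr := by
    apply H2 _ _ _ _ q2 (hu.mono (min_le_right _ _))
    show FRel T.g T.δ _ _
    exact (hj2.trans ((h1.mono (min_le_right _ _)).iter j2)).mono (by linarith)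
  exact ⟨w, hw, h1.mono (min_le_left _ _), h2⟩

/-- `Nb` implies closeness in the leaf space -/
theorem dist_of_Nb [CompactSpace Y] (z : Leaf T p) (r : ℝ) (hr : 0 < r) : ∃ ε > 0,
    ∀ z' : Leaf T p, Nb ε z z' → dist z z' ≤ r := by
  have hδ := T.δ_pos
  obtain ⟨j1, hj1⟩ := WU.symm T (T.Q_WU z.pr_spec)
  obtain ⟨η1, hη1, H1⟩ := T.Q_contS j1 r hr
  obtain ⟨j2, hj2⟩ : ∃ j, FRel T.g (T.δ / 2) (T.g^[j] z.pr) (T.g^[j] z.u) := by
    obtain ⟨j, hj⟩ := WS.symm T (T.Q_WS z.pr_spec)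
    refine ⟨1 + j, ?_⟩
    have := T.toCSys.shrink T.toCSys.δ_le_εs hj hj.dist_le 1
    rw [← Function.iterate_add_apply, ← Function.iterate_add_apply, pow_one] at this
    refine this.mono ?_
    have := T.α_le
    nlinarith
  obtain ⟨η2, hη2, H2⟩ := T.Q_contU j2 r hr
  refine ⟨min (min η1 η2) (T.δ / 2), by positivity, fun z' hz' => ?_⟩
  have l1 : min (min η1 η2) (T.δ / 2) ≤ η1 := (min_le_left _ _).trans (min_le_left _ _)
  have l2 : min (min η1 η2) (T.δ / 2) ≤ η2 := (min_le_left _ _).trans (min_le_right _ _)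
  have l3 : min (min η1 η2) (T.δ / 2) ≤ T.δ / 2 := min_le_right _ _
  obtain ⟨w, hw, h1, h2⟩ := hz'
  rw [leaf_dist z z' hr.le]
  have q1 : T.Q z.s z'.s z.pr w := T.Q_compS (T.Q_flipS z.pr_spec) hw
  have q2 : T.Q z.u w z'.u z'.pr := T.Q_compU (T.Q_flipU hw) z'.pr_spec
  refine ⟨?_, H1 _ _ _ _ (T.Q_flipU q1) (h1.mono l1) hj1⟩
  apply H2 _ _ _ _ (T.Q_flipS q2) (h2.mono l2)
  show FRel T.g T.δ _ _
  exact (((h1.mono l3).symm.iter j2).trans hj2).mono (by linarith)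

/-- The projection is a covering map. -/
theorem pr_isCoveringMap [CompactSpace Y] : IsCoveringMap (Leaf.pr : Leaf T p → Y) := by
  have hδ := T.δ_pos
  have hK : 0 < T.K := by linarith [T.one_le_K]
  have hK1 := T.one_le_K
  have hεs : 0 < T.εs := by
    have := T.toCSys.δ_le_εs
    linarith
  obtain ⟨ε₃, hε₃, htr⟩ := Nb_trans (T := T) (p := p)
  obtain ⟨ε₄, hε₄, hsy⟩ := Nb_symm (T := T) (p := p)
  set ε := min (min ε₃ ε₄) (T.εs / (38 * T.K)) with hε
  have hε0 : 0 < ε := by positivity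
  have l1 : ε ≤ ε₃ := (min_le_left _ _).trans (min_le_left _ _)
  have l2 : ε ≤ ε₄ := (min_le_left _ _).trans (min_le_right _ _)
  have l3 : 2 * (19 * T.K * ε) ≤ T.εs := by
    have : ε ≤ T.εs / (38 * T.K) := min_le_right _ _
    rw [le_div_iff₀ (by positivity)] at this
    linarith
  have l4 : ε ≤ 19 * T.K * ε := by nlinarith
  obtain ⟨η, hη, hex⟩ := Nb_exists (T := T) (p := p) ε hε0
  refine isCoveringMap_of_sheets Leaf.pr (Nb ε) (Nb (19 * T.K * ε)) η hη
    (fun z z' h => h.mono l4) hex (fun z z' z'' h h' hp => Nb_unique l3 h h' hp)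
    (fun z z' z'' h h' => htr ε l1 z z' z'' h h')
    (fun z z' h => (hsy ε l2 z z' h).mono (by nlinarith)) ?_
  intro z
  apply le_antisymm
  · apply le_inf
    · rw [← tendsto_iff_comap]
      rw [Metric.tendsto_nhds_nhds]
      intro r hr
      obtain ⟨r', hr', h⟩ := Nb_of_dist z (r / 3) (by positivity)
      refine ⟨r', hr', fun z' hz' => ?_⟩
      obtain ⟨w, -, h1, h2⟩ := h z' (by rwa [dist_comm])
      have a1 := h1.dist_le
      have a2 := h2.dist_le
      have := dist_triangle z.pr w z'.pr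
      rw [dist_comm]
      linarith
    · rw [le_principal_iff]
      obtain ⟨r', hr', h⟩ := Nb_of_dist z ε hε0
      filter_upwards [Metric.ball_mem_nhds z hr'] with z' hz'
      exact h z' (by rw [dist_comm]; exact hz')
  · intro U hU
    obtain ⟨r, hr, hball⟩ := Metric.mem_nhds_iff.mp hU
    obtain ⟨ε', hε', h1⟩ := dist_of_Nb z (r / 2) (by positivity)
    obtain ⟨η', hη', h2⟩ := Nb_exists (T := T) (p := p) (min ε' ε) (lt_min hε' hε0)
    have hmem : {z' : Leaf T p | dist z.pr z'.pr < η'} ∩ {z' | Nb ε z z'} ∈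
        comap Leaf.pr (𝓝 z.pr) ⊓ 𝓟 {z' | Nb ε z z'} := by
      apply inter_mem_inf _ (mem_principal_self _)
      refine ⟨Metric.ball z.pr η', Metric.ball_mem_nhds _ hη', ?_⟩
      intro z' hz'
      show dist z.pr z'.pr < η'
      rw [dist_comm]; exact hz'
    refine mem_of_superset hmem ?_
    rintro z' ⟨hz1, hz2⟩
    obtain ⟨z'', hz3, hz4⟩ := h2 z z'.pr hz1
    have e1 : z'' = z' := Nb_unique l3 (hz4.mono ((min_le_right _ _).trans l4)) (hz2.mono l4) hz3
    rw [e1] at hz4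
    have h3 := h1 z' (hz4.mono (min_le_left _ _))
    apply hball
    rw [Metric.mem_ball, dist_comm]
    linarith

end QSys

end Pool.Agent.H721R2
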