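import Pool.Agent.H721R2.Poly
import Pool.Agent.H721R2.Build

set_option autoImplicit false
set_option linter.unusedSectionVars false

open scoped Manifold ContDiff Topology unitInterval
open Set Filter Metric

namespace Pool.Agent.H721R2

/-- Manifolds are semilocally simply connected (in the strong sense). -/
theorem chart_slsc {E₀ : Type*} [NormedAddCommGroup E₀] [NormedSpace ℝ E₀]
    {M : Type*} [TopologicalSpace M] [ChartedSpace E₀ M] (x : M) :
    ∃ V ∈ 𝓝 x, ∀ (y z : M) (p q : Path y z), (∀ t, p t ∈ V) → (∀ t, q t ∈ V) →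
      p.Homotopic q := by
  set φ := chartAt E₀ x with hφ
  have hx : x ∈ φ.source := mem_chart_source E₀ x
  obtain ⟨r, hr, hball⟩ := Metric.isOpen_iff.mp φ.open_target (φ x) (φ.map_source hx)
  refine ⟨φ.source ∩ φ ⁻¹' ball (φ x) r, ?_, ?_⟩
  · exact (φ.isOpen_inter_preimage isOpen_ball).mem_nhds ⟨hx, mem_ball_self hr⟩
  intro y z p q hp hq
  let A : I × I → E₀ := fun st => (1 - (st.1 : ℝ)) • φ (p st.2) + (st.1 : ℝ) • φ (q st.2)
  have hA : ∀ st, A st ∈ ball (φ x) r := by
    intro st
    exact (convex_ball (φ x) r) (hp st.2).2 (hq st.2).2 (by linarith [st.1.2.2]) st.1.2.1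
      (by ring)
  have hcp : Continuous (fun t : I => φ (p t)) :=
    φ.continuousOn.comp_continuous p.continuous (fun t => (hp t).1)
  have hcq : Continuous (fun t : I => φ (q t)) :=
    φ.continuousOn.comp_continuous q.continuous (fun t => (hq t).1)
  have hAc : Continuous A := by
    apply Continuous.add
    · exact (continuous_const.sub (continuous_subtype_val.comp continuous_fst)).smul
        (hcp.comp continuous_snd)
    · exact (continuous_subtype_val.comp continuous_fst).smul (hcq.comp continuous_snd)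
  refine ⟨{
    toFun := fun st => φ.symm (A st)
    continuous_toFun := φ.continuousOn_symm.comp_continuous hAc (fun st => hball (hA st))
    map_zero_left := ?_
    map_one_left := ?_
    prop' := ?_ }⟩
  · intro t
    simp only [A, Set.Icc.coe_zero, sub_zero, one_smul, zero_smul, add_zero]
    exact φ.left_inv (hp t).1
  · intro t
    simp only [A, Set.Icc.coe_one, sub_self, zero_smul, one_smul, zero_add]
    exact φ.left_inv (hq t).1
  · intro s t ht
    simp only [mem_insert_iff, mem_singleton_iff] at ht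
    simp only [ContinuousMap.coe_mk, A]
    rcases ht with rfl | rfl
    · have h0 := (hp 0).1
      simp only [Path.source] at h0 ⊢
      rw [← add_smul, sub_add_cancel, one_smul, φ.left_inv h0]
      simp
    · have h0 := (hp 1).1
      simp only [Path.target] at h0 ⊢
      rw [← add_smul, sub_add_cancel, one_smul, φ.left_inv h0]
      simp

variable {E₀ : Type*} [NormedAddCommGroup E₀] [NormedSpace ℝ E₀] [FiniteDimensional ℝ E₀]
  {M : Type*} [MetricSpace M] [CompactSpace M] [ChartedSpace E₀ M] [IsManifold 𝓘(ℝ, E₀) 1 M]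

/-- Polynomial growth of the fundamental group for Anosov data in an ambient space. -/
theorem EAnosov.poly_growth [PathConnectedSpace M] [LocallyPathConnectedSpace M] (m : ℕ)
    {e : M → EuclideanSpace ℝ (Fin m)}
    (hiso : ∀ x y, dist x y = ‖e x - e y‖)
    (he : ContMDiff 𝓘(ℝ, E₀) 𝓘(ℝ, EuclideanSpace ℝ (Fin m)) 1 e)
    (hinj : ∀ x, Function.Injective (dm E₀ e x))
    {f : M ≃ₜ M} {Es Eu : M → Submodule ℝ E₀} {C a b Ls Lu : ℝ}
    (h : EAnosov e f Es Eu C a b Ls Lu) (ρ : ℝ) (hρ : 1 ≤ ρ)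
    (h1 : Ls * a ^ ρ < 1) (h2 : Lu ^ (ρ - 1) * b ^ ρ < 1) (x₀ : M) :
    PolyGrowth (FundamentalGroup M x₀) := by
  obtain ⟨K, hK, hang⟩ := h.angle he hinj
  have hC := h.C_pos
  have hC0 : 0 < C := by linarith
  have ha0 := h.a_pos
  have hb0 := h.b_pos
  have hLs := h.Ls_le
  have hLu := h.Lu_le
  obtain ⟨N, hN1, hKa, hKb, h3, h4, h5, h6⟩ := exists_good_N C a b Ls Lu ρ K hC h.a_pos h.a_lt
    h.b_pos h.b_lt h.Ls_le h.Lu_le hρ h1 h2 hK
  obtain ⟨S, hg, hSa, hSb, hSLs, hSLu, hSK⟩ := exists_hypSys hiso he hinj h K hK hang N hKa hKb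
  have haN : 0 < C * a ^ N := by positivity
  have hbN : 0 < C * b ^ N := by positivity
  have hLsN : 1 ≤ C * Ls ^ N := by
    have := one_le_pow₀ hLs (n := N)
    nlinarith
  have hLuN : 1 ≤ C * Lu ^ N := by
    have := one_le_pow₀ hLu (n := N)
    nlinarith
  set ms := ⌈4 * (C * Ls ^ N)⌉₊ with hms
  set mu := ⌈4 * (C * Lu ^ N)⌉₊ with hmu
  have hms1 : 4 * (C * Ls ^ N) ≤ ms := Nat.le_ceil _
  have hmu1 : 4 * (C * Lu ^ N) ≤ mu := Nat.le_ceil _
  have hms2 : (ms : ℝ) ≤ 5 * C * Ls ^ N := by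
    have := Nat.ceil_lt_add_one (by positivity : 0 ≤ 4 * (C * Ls ^ N))
    linarith
  have hmu2 : (mu : ℝ) ≤ 5 * C * Lu ^ N := by
    have := Nat.ceil_lt_add_one (by positivity : 0 ≤ 4 * (C * Lu ^ N))
    linarith
  exact S.poly_growth m (fun x => chart_slsc (E₀ := E₀) x) (2 * (C * a ^ N)) (2 * (C * b ^ N))
    (by rw [hSa]; linarith) (by rw [hSb]; linarith) h3 h4 ms mu (by rw [hSLs]; exact hms1)
    (by rw [hSLu]; exact hmu1) ρ hρ
    (by
      refine lt_of_le_of_lt ?_ h5
      exact mul_le_mul_of_nonneg_right hms2 (by positivity))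
    (by
      refine lt_of_le_of_lt ?_ h6
      apply mul_le_mul_of_nonneg_right _ (by positivity)
      exact Real.rpow_le_rpow (by positivity) hmu2 (by linarith)) x₀

end Pool.Agent.H721R2
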