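import Mathlib

set_option autoImplicit false

namespace Pool.Agent.H721R2

open Pointwise in
/-- `G` has (uniformly) polynomial growth: there is an exponent `d` such that for every finite
set `S` of elements of `G` the set `Sⁿ` of all products of `n` elements of `S` has at most
`C (n + 1)ᵈ` elements for all `n`, where `C` depends only on `S`. -/
def PolyGrowth (G : Type*) [Monoid G] : Prop :=
  ∃ d : ℕ, ∀ S : Set G, S.Finite → ∃ C : ℕ, ∀ n : ℕ, (S ^ n).ncard ≤ C * (n + 1) ^ d

end Pool.Agent.H721R2
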