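import Pool.Agent.H721R2.Sep
import Pool.Agent.H721R2.Box
import Pool.Agent.H721R2.PolyDef

set_option autoImplicit false

open Set Filter Topology Metric

namespace Pool.Agent.H721R2

namespace HypSys

open Cov Pointwise

theorem poly_growth {X : Type*} [MetricSpace X] [CompactSpace X] [PathConnectedSpace X]
    [LocallyPathConnectedSpace X] (m : ℕ) (S : HypSys X (EuclideanSpace ℝ (Fin m)))
    (hs : ∀ x : X, ∃ V ∈ 𝓝 x, ∀ (y z : X) (p q : Path y z), (∀ t, p t ∈ V) → (∀ t, q t ∈ V) →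
      p.Homotopic q)
    (α β : ℝ) (hα : S.a < α) (hβ : S.b < β) (hα2 : α ≤ 1 / 2) (hβ2 : β ≤ 1 / 2) (ms mu : ℕ)
    (hms : 4 * S.Ls ≤ ms) (hmu : 4 * S.Lu ≤ mu) (ρ : ℝ) (hρ : 1 ≤ ρ) (h1 : ms * α ^ ρ < 1)
    (h2 : (mu : ℝ) ^ (ρ - 1) * β ^ ρ < 1) (x₀ : X) : PolyGrowth (FundamentalGroup X x₀) := by
  classical
  have hLu := S.one_le_Lu
  have hLs := S.one_le_Ls
  have ha := S.a_nonneg
  have hb := S.b_nonneg
  have hK := S.one_le_K
  obtain ⟨L, l, hl, hLl, hL⟩ := exists_LC (X := X) hs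
  obtain ⟨r₁, hr₁0, hr₁, hnat⟩ := exists_nat L l hl hL (S.g : C(X, X))
  have hLr := L.r_pos
  let bt : Path.Homotopic.Quotient x₀ (S.g x₀) :=
    Path.Homotopic.Quotient.mk (PathConnectedSpace.somePath x₀ (S.g x₀))
  obtain ⟨ρa, hρa, Λa, hΛa, hlipa⟩ := S.local_lip
  obtain ⟨ρb, hρb, Λb, hΛb, hlipb⟩ := S.symm.local_lip
  set Λ := max Λa Λb with hΛdef
  have hΛ : 1 ≤ Λ := hΛa.trans (le_max_left _ _)
  set s₀ := min (min ρa ρb) (min (r₁ / 2) 1) with hs₀def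
  have hs₀0 : 0 < s₀ := lt_min (lt_min hρa hρb) (lt_min (by linarith) one_pos)
  have hs₀a : s₀ ≤ ρa := (min_le_left _ _).trans (min_le_left _ _)
  have hs₀b : s₀ ≤ ρb := (min_le_left _ _).trans (min_le_right _ _)
  have hs₀r : s₀ ≤ r₁ / 2 := (min_le_right _ _).trans (min_le_left _ _)
  have hs₀1 : s₀ ≤ 1 := (min_le_right _ _).trans (min_le_right _ _)
  obtain ⟨T, hTg, hTK, hTα, hTβ, hTms, hTmu, hTε, hTδs, hTδu⟩ :=
    S.exists_csys α β hα hβ hα2 hβ2 ms mu hms hmu (r₁ / 8) (by positivity)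
  have hTδε : T.δ ≤ T.εs := by
    have h3 := T.hδ
    have h4 := T.one_le_K
    have h5 := T.δ_pos
    nlinarith
  obtain ⟨T', hg', hK', hδ', hα', hβ', hms', hmu'⟩ := exists_covSys (L := L) S.g bt T hTg r₁ hr₁
    hnat (by linarith) (by rw [hTms]; linarith) (by rw [hTmu]; linarith)
  have hmu1 : 1 ≤ mu := by
    have : (1 : ℝ) ≤ mu := by linarith
    exact_mod_cast this
  obtain ⟨B, hB⟩ := log_times α β S.K ρ Λ ms mu (by linarith) (by linarith) (by linarith)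
    (by linarith) hmu1 (by linarith) hρ hΛ h1 h2
  -- boundedness of the embedding
  obtain ⟨Be, hBe0, hBe⟩ : ∃ Be : ℝ, 0 ≤ Be ∧ ∀ x, ‖S.e x‖ ≤ Be := by
    have hcont : Continuous S.e := by
      have : Isometry S.e := Isometry.of_dist_eq (fun x y => by rw [dist_eq_norm, S.isom])
      exact this.continuous
    obtain ⟨C, hC⟩ := (isCompact_range hcont).isBounded.exists_norm_le
    exact ⟨max C 0, le_max_right _ _, fun x => (hC _ ⟨x, rfl⟩).trans (le_max_left _ _)⟩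
  set C0 : ℝ := (2 * Be * (m + 1) + 3) ^ m with hC0
  have hC00 : 0 ≤ C0 := by positivity
  refine ⟨B * m, fun F hF => ?_⟩
  have hT'δ := T'.δ_pos
  have hT'K : 0 < T'.K := by linarith [T'.one_le_K]
  obtain ⟨N, hN⟩ := chain_of_finite (x₀ := x₀) l hl hL F hF (T'.δ / (9 * T'.K)) (by positivity)
  refine ⟨⌈C0 * (1 / s₀) ^ m * (4 * ((N : ℝ) + 1)) ^ (B * m)⌉₊, fun n => ?_⟩
  set R := (n + 1) * (N + 1) with hR
  have hR1 : 1 ≤ R := Nat.one_le_iff_ne_zero.mpr (by positivity)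
  obtain ⟨k, n', hkn, hg1, hg2, hg3⟩ := hB R hR1
  have hchain : ∀ γ ∈ F ^ n, Chain (fun a b : Cov L x₀ => dist a b < T'.δ / (9 * T'.K)) R
      ⟨x₀, Path.Homotopic.Quotient.refl x₀⟩ ⟨x₀, γ⟩ := by
    intro γ hγ
    apply (chain_of_pow F (T'.δ / (9 * T'.K)) N hN n γ hγ).pad
      (fun a => by rw [dist_self]; positivity)
    rw [hR]
    nlinarith
  obtain ⟨Φ, hΦ⟩ := sep S.g bt T' hg' r₁ s₀ Λ hr₁ hnat (by linarith)
    (by rw [hδ']; linarith) hΛ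
    (fun x y hxy => (hlipa x y (by linarith)).trans
      (mul_le_mul_of_nonneg_right (le_max_left _ _) dist_nonneg))
    (fun x y hxy => (hlipb x y (by linarith)).trans
      (mul_le_mul_of_nonneg_right (le_max_right _ _) dist_nonneg))
    k n' R hkn (by rw [hms', hα', hTms, hTα]; exact hg1)
    (by rw [hmu', hβ', hK', hTmu, hTβ, hTK]; exact hg2)
  have hΛn : 0 < Λ ^ n' := by positivity
  have hΛn1 : 1 ≤ Λ ^ n' := one_le_pow₀ hΛ
  set ρ' := s₀ / Λ ^ n' with hρ'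
  have hρ'0 : 0 < ρ' := by positivity
  have hρ'1 : ρ' ≤ 1 := by
    rw [hρ', div_le_one hΛn]; linarith
  have hinj : Set.InjOn Φ (F ^ n) := by
    intro γ hγ γ' hγ' h
    apply hΦ γ γ' (hchain γ hγ) (hchain γ' hγ')
    rw [h, dist_self, zero_mul]
    exact hs₀0
  obtain ⟨-, hcard⟩ := box_count m S.e S.isom Be hBe0 hBe ρ' hρ'0 hρ'1 (Φ '' (F ^ n)) (by
    rintro _ ⟨γ, hγ, rfl⟩ _ ⟨γ', hγ', rfl⟩ hd
    rw [hρ', lt_div_iff₀ hΛn] at hd
    rw [hΦ γ γ' (hchain γ hγ) (hchain γ' hγ') hd])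
  rw [Set.ncard_image_of_injOn hinj] at hcard
  have hfinal : ((F ^ n).ncard : ℝ) ≤
      (C0 * (1 / s₀) ^ m * (4 * ((N : ℝ) + 1)) ^ (B * m)) * ((n : ℝ) + 1) ^ (B * m) := by
    have e1 : 1 / ρ' = (1 / s₀) * Λ ^ n' := by
      rw [hρ']; field_simp
    have e2 : (Λ ^ n') ^ m ≤ ((4 * (R : ℝ)) ^ B) ^ m := pow_le_pow_left₀ hΛn.le hg3 m
    have e3 : (4 * (R : ℝ)) = (4 * ((N : ℝ) + 1)) * ((n : ℝ) + 1) := by
      rw [hR]; push_cast; ring
    calc ((F ^ n).ncard : ℝ) ≤ C0 * (1 / ρ') ^ m := hcard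
      _ = C0 * (1 / s₀) ^ m * (Λ ^ n') ^ m := by rw [e1, mul_pow]; ring
      _ ≤ C0 * (1 / s₀) ^ m * ((4 * (R : ℝ)) ^ B) ^ m :=
          mul_le_mul_of_nonneg_left e2 (by positivity)
      _ = C0 * (1 / s₀) ^ m * (4 * (R : ℝ)) ^ (B * m) := by rw [← pow_mul]
      _ = _ := by rw [e3, mul_pow]; ring
  have h5 : (C0 * (1 / s₀) ^ m * (4 * ((N : ℝ) + 1)) ^ (B * m)) ≤
      (⌈C0 * (1 / s₀) ^ m * (4 * ((N : ℝ) + 1)) ^ (B * m)⌉₊ : ℝ) := Nat.le_ceil _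
  have h6 := hfinal.trans (mul_le_mul_of_nonneg_right h5 (by positivity :
    (0 : ℝ) ≤ ((n : ℝ) + 1) ^ (B * m)))
  exact_mod_cast h6

end HypSys

end Pool.Agent.H721R2
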