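import Mathlib

set_option autoImplicit false

namespace Pool.Agent.H721R2

/-- the exponent coming from the pinching inequality -/
theorem exists_rho (μ₁ μ₂ l₁ l₂ : ℝ) (hμ₁ : 0 < μ₁) (hμ : μ₁ ≤ μ₂) (hμ₂ : μ₂ < 1) (hl₁ : 1 < l₁)
    (hl : l₁ ≤ l₂) (hp : 1 < Real.log l₁ / Real.log l₂ + Real.log μ₂ / Real.log μ₁) :
    ∃ ρ : ℝ, 1 ≤ ρ ∧ μ₁⁻¹ * μ₂ ^ ρ < 1 ∧ l₂ ^ (ρ - 1) * l₁⁻¹ ^ ρ < 1 := by
  have hμ₂0 : 0 < μ₂ := lt_of_lt_of_le hμ₁ hμ
  have hl₁0 : 0 < l₁ := by linarith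
  have hl₂0 : 0 < l₂ := by linarith
  set A := -Real.log μ₁ with hA
  set B := -Real.log μ₂ with hB
  set c := Real.log l₁ with hc
  set D := Real.log l₂ with hD
  have hB0 : 0 < B := by
    have := Real.log_neg hμ₂0 hμ₂
    linarith
  have hAB : B ≤ A := by
    have := Real.log_le_log hμ₁ hμ
    linarith
  have hA0 : 0 < A := by linarith
  have hc0 : 0 < c := Real.log_pos hl₁
  have hcD : c ≤ D := Real.log_le_log hl₁0 hl
  have hD0 : 0 < D := by linarith
  have hq : Real.log μ₂ / Real.log μ₁ = B / A := by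
    rw [hA, hB, neg_div_neg_eq]
  rw [hq] at hp
  -- t = (1 - c/D) * (A/B) < 1
  set t := (1 - c / D) * (A / B) with ht
  have hcD1 : c / D ≤ 1 := (div_le_one hD0).mpr hcD
  have ht0 : 0 ≤ t := mul_nonneg (by linarith) (by positivity)
  have ht1 : t < 1 := by
    have h1 : 1 - c / D < B / A := by linarith
    have h2 : (1 - c / D) * (A / B) < (B / A) * (A / B) :=
      mul_lt_mul_of_pos_right h1 (by positivity)
    have h3 : (B / A) * (A / B) = 1 := by field_simp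
    linarith
  set s := 2 / (1 + t) with hs
  have hs1 : 1 < s := by
    rw [hs, lt_div_iff₀ (by linarith)]
    linarith
  have hst : s * t < 1 := by
    have : s * t = 2 * t / (1 + t) := by rw [hs]; ring
    rw [this, div_lt_one (by linarith)]
    linarith
  set ρ := s * (A / B) with hρ
  have hAB1 : 1 ≤ A / B := (one_le_div hB0).mpr hAB
  have hρ1 : 1 ≤ ρ := by
    rw [hρ]
    nlinarith
  have hρB : A < ρ * B := by
    have : ρ * B = s * A := by rw [hρ]; field_simp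
    rw [this]
    nlinarith
  have hρc : (ρ - 1) * D < ρ * c := by
    have h1 : ρ * (1 - c / D) < 1 := by
      have : ρ * (1 - c / D) = s * t := by rw [hρ, ht]; ring
      linarith
    have h2 : ρ * (1 - c / D) * D < 1 * D := mul_lt_mul_of_pos_right h1 hD0
    have h3 : ρ * (1 - c / D) * D = ρ * D - ρ * c := by field_simp
    linarith
  refine ⟨ρ, hρ1, ?_, ?_⟩
  · have h1 : μ₂ ^ ρ < μ₁ := by
      rw [← Real.exp_log hμ₁, Real.rpow_def_of_pos hμ₂0, Real.exp_lt_exp]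
      have : Real.log μ₂ * ρ = -(ρ * B) := by rw [hB]; ring
      rw [this]
      linarith
    calc μ₁⁻¹ * μ₂ ^ ρ < μ₁⁻¹ * μ₁ := mul_lt_mul_of_pos_left h1 (inv_pos.mpr hμ₁)
      _ = 1 := inv_mul_cancel₀ hμ₁.ne'
  · rw [Real.rpow_def_of_pos hl₂0, Real.rpow_def_of_pos (inv_pos.mpr hl₁0), ← Real.exp_add,
      Real.log_inv]
    rw [Real.exp_lt_one_iff]
    have e1 : Real.log l₂ * (ρ - 1) + -Real.log l₁ * ρ = (ρ - 1) * D - ρ * c := by
      rw [hc, hD]; ring
    rw [e1]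
    linarith

end Pool.Agent.H721R2
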