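import Pool.Agent.H721R2.Count

set_option autoImplicit false

open Set Filter Topology Metric

namespace Pool.Agent.H721R2

theorem iter_lip {X : Type*} [MetricSpace X] (f : X → X) (Λ s₀ : ℝ) (hΛ : 1 ≤ Λ)
    (hf : ∀ x y : X, dist x y < s₀ → dist (f x) (f y) ≤ Λ * dist x y) (n : ℕ) {x y : X}
    (hxy : dist x y * Λ ^ n < s₀) : ∀ j ≤ n, dist (f^[j] x) (f^[j] y) ≤ dist x y * Λ ^ j ∧
      dist (f^[j] x) (f^[j] y) < s₀ := by
  have hmono : ∀ j ≤ n, dist x y * Λ ^ j < s₀ := by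
    intro j hj
    refine lt_of_le_of_lt ?_ hxy
    exact mul_le_mul_of_nonneg_left (pow_le_pow_right₀ hΛ hj) dist_nonneg
  intro j
  induction j with
  | zero =>
    intro _
    have := hmono 0 (by omega)
    simpa using this
  | succ j ih =>
    intro hj
    obtain ⟨h1, h2⟩ := ih (by omega)
    rw [Function.iterate_succ_apply', Function.iterate_succ_apply']
    have h3 := hf _ _ h2
    have h4 : dist (f (f^[j] x)) (f (f^[j] y)) ≤ dist x y * Λ ^ (j + 1) := by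
      refine h3.trans ?_
      have := mul_le_mul_of_nonneg_left h1 (by linarith : (0 : ℝ) ≤ Λ)
      calc Λ * dist (f^[j] x) (f^[j] y) ≤ Λ * (dist x y * Λ ^ j) := this
        _ = _ := by ring
    exact ⟨h4, lt_of_le_of_lt h4 (hmono _ hj)⟩

namespace Cov

variable {X : Type*} [MetricSpace X] {L : LC X} {x₀ : X}

/-- Separation: endpoints of `R`-chains are determined by a point of `X` up to small error. -/
theorem sep (φ : X ≃ₜ X) (bt : Path.Homotopic.Quotient x₀ (φ x₀)) (T' : CSys (Cov L x₀))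
    (hT' : T'.g = gt φ bt) (r₁ s₀ Λ : ℝ) (hr₁ : r₁ ≤ L.r)
    (hnat : ∀ x y : X, dist x y < r₁ → dist (φ x) (φ y) < L.r ∧
      (L.w x y).map (φ : C(X, X)) = L.w (φ x) (φ y))
    (hs₀r : s₀ ≤ r₁) (hs₀ : s₀ + 2 * T'.δ < L.r) (hΛ : 1 ≤ Λ)
    (hlip : ∀ x y : X, dist x y < s₀ → dist (φ x) (φ y) ≤ Λ * dist x y)
    (hlip' : ∀ x y : X, dist x y < s₀ → dist (φ.symm x) (φ.symm y) ≤ Λ * dist x y)
    (k n R : ℕ) (hkn : k ≤ n) (h1 : 2 * ((R * T'.ms ^ k : ℕ) : ℝ) * T'.α ^ n ≤ 1)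
    (h2 : 36 * T'.K * T'.β ^ n * ((R * T'.mu ^ (n - k) : ℕ) : ℝ) ≤ 1) :
    ∃ Φ : Path.Homotopic.Quotient x₀ x₀ → X, ∀ γ γ' : Path.Homotopic.Quotient x₀ x₀,
      Chain (fun a b : Cov L x₀ => dist a b < T'.δ / (9 * T'.K)) R
        ⟨x₀, Path.Homotopic.Quotient.refl x₀⟩ ⟨x₀, γ⟩ →
      Chain (fun a b : Cov L x₀ => dist a b < T'.δ / (9 * T'.K)) R
        ⟨x₀, Path.Homotopic.Quotient.refl x₀⟩ ⟨x₀, γ'⟩ →
      dist (Φ γ) (Φ γ') * Λ ^ n < s₀ → γ = γ' := by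
  have hK := T'.one_le_K
  have hK0 : 0 < T'.K := by linarith
  have hδ0 := T'.δ_pos
  have hcorner : ∀ γ : Path.Homotopic.Quotient x₀ x₀,
      Chain (fun a b : Cov L x₀ => dist a b < T'.δ / (9 * T'.K)) R
        ⟨x₀, Path.Homotopic.Quotient.refl x₀⟩ ⟨x₀, γ⟩ →
      ∃ q : Cov L x₀, dist ((gt φ bt)^[n - k] ⟨x₀, Path.Homotopic.Quotient.refl x₀⟩)
          ((gt φ bt)^[n - k] q) ≤ T'.δ ∧
        dist ((gt φ bt).symm^[k] q) ((gt φ bt).symm^[k] ⟨x₀, γ⟩) ≤ T'.δ := by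
    intro γ hγ
    obtain ⟨c, hc0, hc1, hc⟩ := hγ
    have hsteps : ∀ i < R, ∃ z, FRel T'.g T'.δ (c i) z ∧ FRel T'.g.symm T'.δ z (c (i + 1)) := by
      intro i hi
      have h3 : dist (c i) (c (i + 1)) < T'.δ / (9 * T'.K) := hc i hi
      rw [lt_div_iff₀ (by positivity)] at h3
      have h4 : dist (c i) (c (i + 1)) ≤ 2 * T'.δ := by
        have : 0 ≤ dist (c i) (c (i + 1)) := dist_nonneg
        nlinarith
      obtain ⟨z, hz1, hz2⟩ := T'.lp _ _ h4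
      have h5 : 9 * T'.K * dist (c i) (c (i + 1)) ≤ T'.δ := by linarith
      exact ⟨z, hz1.mono h5, hz2.mono h5⟩
    obtain ⟨q, hq1, hq2⟩ := T'.corner' k n R hkn h1 h2 c hsteps
    rw [hT', hc0] at hq1
    rw [hT', hc1] at hq2
    exact ⟨q, hq1, hq2⟩
  have hcorner' : ∀ γ : Path.Homotopic.Quotient x₀ x₀, ∃ q : Cov L x₀,
      Chain (fun a b : Cov L x₀ => dist a b < T'.δ / (9 * T'.K)) R
        ⟨x₀, Path.Homotopic.Quotient.refl x₀⟩ ⟨x₀, γ⟩ →
      dist ((gt φ bt)^[n - k] ⟨x₀, Path.Homotopic.Quotient.refl x₀⟩)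
          ((gt φ bt)^[n - k] q) ≤ T'.δ ∧
        dist ((gt φ bt).symm^[k] q) ((gt φ bt).symm^[k] ⟨x₀, γ⟩) ≤ T'.δ := by
    intro γ
    by_cases h : Chain (fun a b : Cov L x₀ => dist a b < T'.δ / (9 * T'.K)) R
        ⟨x₀, Path.Homotopic.Quotient.refl x₀⟩ ⟨x₀, γ⟩
    · obtain ⟨q, hq⟩ := hcorner γ h
      exact ⟨q, fun _ => hq⟩
    · exact ⟨⟨x₀, γ⟩, fun h' => absurd h' h⟩
  choose Q hQ using hcorner'
  refine ⟨fun γ => (Q γ).pt, ?_⟩
  intro γ γ' hγ hγ' hd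
  obtain ⟨hq1, hq2⟩ := hQ γ hγ
  obtain ⟨hq1', hq2'⟩ := hQ γ' hγ'
  set q := Q γ with hqdef
  set q' := Q γ' with hq'def
  set q'' := q.lift q'.pt with hq''def
  have hpt : q''.pt = q'.pt := rfl
  have hlf := iter_lip φ Λ s₀ hΛ hlip n hd
  have hlb := iter_lip φ.symm Λ s₀ hΛ hlip' n hd
  have hnear0 : Near q q'' := near_lift q q'.pt (by
    have := (hlf 0 (by omega)).2
    simp only [Function.iterate_zero, id_eq] at this
    linarith)
  have hnf : ∀ j ≤ n, Near ((gt φ bt)^[j] q) ((gt φ bt)^[j] q'') := by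
    intro j
    induction j with
    | zero => intro _; exact hnear0
    | succ j ih =>
      intro hj
      rw [Function.iterate_succ_apply', Function.iterate_succ_apply']
      apply near_map φ bt r₁ hnat (ih (by omega))
      rw [gt_iter_pt, gt_iter_pt, hpt]
      exact lt_of_lt_of_le (hlf j (by omega)).2 hs₀r
  have hnb : ∀ j ≤ n, Near ((gt φ bt).symm^[j] q) ((gt φ bt).symm^[j] q'') := by
    intro j
    induction j with
    | zero => intro _; exact hnear0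
    | succ j ih =>
      intro hj
      rw [Function.iterate_succ_apply', Function.iterate_succ_apply']
      apply near_symm φ bt r₁ hr₁ hnat (ih (by omega))
      rw [gt_symm_iter_pt, gt_symm_iter_pt, hpt, ← Function.iterate_succ_apply' φ.symm,
        ← Function.iterate_succ_apply' φ.symm]
      exact lt_of_lt_of_le (hlb (j + 1) hj).2 hs₀r
  -- `q'' = q'`
  have hqq : q'' = q' := by
    have g1 : dist ((gt φ bt)^[n - k] q) ((gt φ bt)^[n - k] q'') < s₀ := by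
      rw [dist_of_near (hnf _ (by omega)), gt_iter_pt, gt_iter_pt, hpt]
      exact (hlf _ (by omega)).2
    have g2 : dist ((gt φ bt)^[n - k] q'') ((gt φ bt)^[n - k] q') < L.r := by
      have := dist_triangle4 ((gt φ bt)^[n - k] q'') ((gt φ bt)^[n - k] q)
        ((gt φ bt)^[n - k] ⟨x₀, Path.Homotopic.Quotient.refl x₀⟩) ((gt φ bt)^[n - k] q')
      rw [dist_comm ((gt φ bt)^[n - k] q'') ((gt φ bt)^[n - k] q)] at this
      rw [dist_comm ((gt φ bt)^[n - k] q)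
        ((gt φ bt)^[n - k] ⟨x₀, Path.Homotopic.Quotient.refl x₀⟩)] at this
      linarith
    have g3 := eq_of_dist_lt g2 (by rw [gt_iter_pt, gt_iter_pt, hpt])
    exact (gt φ bt).injective.iterate _ g3
  have g1 : dist ((gt φ bt).symm^[k] q) ((gt φ bt).symm^[k] q') < s₀ := by
    rw [← hqq, dist_of_near (hnb _ (by omega)), gt_symm_iter_pt, gt_symm_iter_pt, hpt]
    exact (hlb _ (by omega)).2
  have g2 : dist ((gt φ bt).symm^[k] (⟨x₀, γ⟩ : Cov L x₀))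
      ((gt φ bt).symm^[k] (⟨x₀, γ'⟩ : Cov L x₀)) < L.r := by
    have := dist_triangle4 ((gt φ bt).symm^[k] (⟨x₀, γ⟩ : Cov L x₀)) ((gt φ bt).symm^[k] q)
      ((gt φ bt).symm^[k] q') ((gt φ bt).symm^[k] (⟨x₀, γ'⟩ : Cov L x₀))
    rw [dist_comm ((gt φ bt).symm^[k] (⟨x₀, γ⟩ : Cov L x₀)) ((gt φ bt).symm^[k] q)] at this
    linarith
  have g3 := eq_of_dist_lt g2 (by rw [gt_symm_iter_pt, gt_symm_iter_pt])
  have g4 := (gt φ bt).symm.injective.iterate _ g3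
  simpa using g4

end Cov

end Pool.Agent.H721R2
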