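import Pool.Agent.H721R2.Cone

set_option autoImplicit false

namespace Pool.Agent.H721R2

namespace HypSys

variable {X E : Type*} [MetricSpace X] [NormedAddCommGroup E] [NormedSpace ℝ E]

open Filter Topology

theorem contraction_iter (S : HypSys X E) (c : ℝ) (hc : S.a < c) : ∃ ε₁ > 0, ∀ x y : X,
    S.SRel ε₁ x y → ∀ k : ℕ, dist (S.g^[k] x) (S.g^[k] y) ≤ c ^ k * dist x y := by
  obtain ⟨ε₁, hε₁, h⟩ := S.contraction c hc
  have hc0 : 0 ≤ c := le_trans S.a_nonneg hc.le
  refine ⟨ε₁, hε₁, fun x y hxy k => ?_⟩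
  induction k with
  | zero => simp
  | succ k ih =>
    rw [Function.iterate_succ_apply', Function.iterate_succ_apply']
    calc dist (S.g (S.g^[k] x)) (S.g (S.g^[k] y)) ≤ c * dist (S.g^[k] x) (S.g^[k] y) :=
          h _ _ (hxy.iter k)
      _ ≤ c * (c ^ k * dist x y) := mul_le_mul_of_nonneg_left ih hc0
      _ = _ := by ring

theorem a_le (S : HypSys X E) : S.a ≤ 1 / 16 := by
  have := S.Ka
  have := S.one_le_K
  have := S.a_nonneg
  nlinarith

theorem b_le (S : HypSys X E) : S.b ≤ 1 / 16 := by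
  have := S.Kb
  have := S.one_le_K
  have := S.b_nonneg
  nlinarith

/-- The stable direction lemma in the simple form: only the stable vector is kept. -/
theorem coneS' (S : HypSys X E) (η : ℝ) (hη : 0 < η) (hη1 : η ≤ 1) : ∃ ε₁ > 0, ∀ x y : X,
    S.SRel ε₁ x y → ∃ s ∈ S.Vs x, ‖S.e y - S.e x - s‖ ≤ 2 * η * dist x y := by
  obtain ⟨ε₁, hε₁, h⟩ := S.coneS η hη hη1
  refine ⟨ε₁, hε₁, fun x y hxy => ?_⟩
  obtain ⟨s, hs, u, hu, h1, h2, h3⟩ := h x y hxy
  refine ⟨s, hs, ?_⟩
  have e1 : S.e y - S.e x - s = (S.e y - S.e x - (s + u)) + u := by abel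
  rw [e1]
  have := norm_add_le (S.e y - S.e x - (s + u)) u
  linarith

/-- Subdivision of the inverse image of a stable step. -/
theorem subdivide [CompactSpace X] (S : HypSys X E) (m : ℕ) (hm : 4 * S.Ls ≤ m) :
    ∃ δ₁ > 0, ∀ δ, 0 < δ → δ ≤ δ₁ → ∀ x y : X, S.SRel δ x y →
      ∃ c : ℕ → X, c 0 = S.g.symm x ∧ c m = S.g.symm y ∧
        ∀ i < m, S.SRel δ (c i) (c (i + 1)) := by
  have hK := S.one_le_K
  have hLs := S.one_le_Ls
  set K := S.K with hKdef
  set Ls := S.Ls with hLsdef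
  have hK0 : 0 < K := by linarith
  have hLs0 : 0 < Ls := by linarith
  have hm0 : (0 : ℝ) < m := by linarith
  have hm1 : m ≠ 0 := by
    intro h
    rw [h] at hm0
    simp at hm0
  set Q := 1 + 1440 * K ^ 2 * Ls with hQ
  have hQ0 : 1 ≤ Q := by
    have : 0 ≤ 1440 * K ^ 2 * Ls := by positivity
    linarith
  set η := 1 / (2 * Q) with hη
  have hη0 : 0 < η := by positivity
  have hη2 : η * Q = 1 / 2 := by rw [hη]; field_simp
  have hη1 : η ≤ 1 / 2 := by nlinarith
  obtain ⟨εa, hεa, contr⟩ := S.contraction_iter (1 / 8) (by linarith [S.a_le])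
  obtain ⟨εb, hεb, low⟩ := S.contraction_lower
  obtain ⟨εc, hεc, cs⟩ := S.coneS' η hη0 (by linarith)
  obtain ⟨εu, hεu, cu⟩ := S.symm.coneS' η hη0 (by linarith)
  obtain ⟨εl, hεl, lp⟩ := S.local_product
  obtain ⟨r2, hr2, A2⟩ := S.A2 η hη0
  obtain ⟨r3, hr3, A3⟩ := S.A3' η hη0
  have huc : UniformContinuous S.g.symm :=
    CompactSpace.uniformContinuous_of_continuous S.g.symm.continuous
  set R0 := min (min εa (min εb εc)) (min (min εu εl) (min r2 r3)) with hR0
  have hR0p : 0 < R0 := by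
    simp only [hR0, lt_min_iff]
    exact ⟨⟨hεa, hεb, hεc⟩, ⟨hεu, hεl⟩, hr2, hr3⟩
  have hRa : R0 ≤ εa := (min_le_left _ _).trans (min_le_left _ _)
  have hRb : R0 ≤ εb := (min_le_left _ _).trans ((min_le_right _ _).trans (min_le_left _ _))
  have hRc : R0 ≤ εc := (min_le_left _ _).trans ((min_le_right _ _).trans (min_le_right _ _))
  have hRu : R0 ≤ εu := (min_le_right _ _).trans ((min_le_left _ _).trans (min_le_left _ _))
  have hRl : R0 ≤ εl := (min_le_right _ _).trans ((min_le_left _ _).trans (min_le_right _ _))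
  have hR2 : R0 ≤ r2 := (min_le_right _ _).trans ((min_le_right _ _).trans (min_le_left _ _))
  have hR3 : R0 ≤ r3 := (min_le_right _ _).trans ((min_le_right _ _).trans (min_le_right _ _))
  obtain ⟨δc, hδc, hucδ⟩ := Metric.uniformContinuous_iff.mp huc R0 hR0p
  refine ⟨min (δc / 2) (R0 / (144 * K * Ls)), lt_min (by positivity) (by positivity), ?_⟩
  intro δ hδ0 hδ x y hxy
  have hδ1 : δ < δc := lt_of_le_of_lt (hδ.trans (min_le_left _ _)) (by linarith)
  have hδ2 : 144 * K * Ls * δ ≤ R0 := by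
    have := hδ.trans (min_le_right _ _)
    rw [le_div_iff₀ (by positivity)] at this
    linarith
  have hδR : δ ≤ R0 := by
    have h1 : 1 ≤ K * Ls := by nlinarith
    have : δ * 1 ≤ δ * (K * Ls) := mul_le_mul_of_nonneg_left h1 hδ0.le
    nlinarith
  set x' := S.g.symm x with hx'
  set y' := S.g.symm y with hy'
  have hgx : S.g x' = x := S.g.apply_symm_apply x
  have hgy : S.g y' = y := S.g.apply_symm_apply y
  have hd' : dist x' y' < R0 := hucδ (lt_of_le_of_lt hxy.dist_le hδ1)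
  have hSR : S.SRel R0 x' y' := by
    intro k
    match k with
    | 0 => exact hd'.le
    | k + 1 =>
      rw [Function.iterate_succ_apply, Function.iterate_succ_apply, hgx, hgy]
      exact (hxy k).trans hδR
  set ρ := dist x' y' with hρ
  have hρ0 : 0 ≤ ρ := dist_nonneg
  have hρδ : ρ ≤ 2 * Ls * δ := by
    have h1 := low _ _ (hSR.mono hRb)
    rw [hgx, hgy] at h1
    have h2 : 2 * Ls * dist x y ≤ 2 * Ls * δ :=
      mul_le_mul_of_nonneg_left hxy.dist_le (by positivity)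
    exact h1.trans h2
  have hρR : 72 * K * ρ ≤ R0 := by
    have : 72 * K * ρ ≤ 72 * K * (2 * Ls * δ) := mul_le_mul_of_nonneg_left hρδ (by positivity)
    nlinarith
  have hKρ : ρ ≤ K * ρ := by nlinarith
  have hSρ : S.SRel ρ x' y' := by
    intro k
    have h1 := contr _ _ (hSR.mono hRa) k
    have h2 : (1 / 8 : ℝ) ^ k ≤ 1 := pow_le_one₀ (by norm_num) (by norm_num)
    calc _ ≤ (1 / 8 : ℝ) ^ k * ρ := h1
      _ ≤ 1 * ρ := mul_le_mul_of_nonneg_right h2 hρ0
      _ = ρ := one_mul _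
  obtain ⟨s, hs, hs1⟩ := cs _ _ (hSR.mono hRc)
  have hns : ‖s‖ ≤ (1 + 2 * η) * ρ := by
    have e0 : ρ = ‖S.e y' - S.e x'‖ := by rw [hρ, dist_comm, S.isom]
    have h1 := norm_sub_le (S.e y' - S.e x') (S.e y' - S.e x' - s)
    rw [sub_sub_cancel, ← e0] at h1
    linarith
  have hns2 : ‖s‖ ≤ 2 * ρ := by
    have : 2 * η * ρ ≤ 1 * ρ := mul_le_mul_of_nonneg_right (by linarith) hρ0
    nlinarith
  set σ := 36 * K * ρ with hσ
  have hσ0 : 0 ≤ σ := by positivity
  set Er := 360 * K ^ 2 * η * ρ with hEr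
  have hmain : ∀ j : ℕ, ∃ z : X, (j = 0 → z = x') ∧ (j = m → z = y') ∧
      (j ≤ m → S.SRel σ x' z ∧ ‖S.e z - (S.e x' + ((j : ℝ) / m) • s)‖ ≤ Er) := by
    intro j
    by_cases hj0 : j = 0
    · refine ⟨x', fun _ => rfl, fun h => absurd (hj0 ▸ h).symm hm1, fun _ => ⟨fun k => ?_, ?_⟩⟩
      · rw [dist_self]; exact hσ0
      · rw [hj0]; simp; positivity
    by_cases hjm : j = m
    · refine ⟨y', fun h => absurd h hj0, fun _ => rfl, fun _ => ⟨?_, ?_⟩⟩
      · apply hSρ.mono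
        nlinarith
      · rw [hjm, div_self (ne_of_gt hm0), one_smul]
        have e1 : S.e y' - (S.e x' + s) = S.e y' - S.e x' - s := by abel
        rw [e1]
        refine hs1.trans ?_
        rw [hEr]
        have h1 : 1 ≤ K ^ 2 := one_le_pow₀ hK
        have h2 : 0 ≤ η * ρ := by positivity
        nlinarith
    by_cases hjle : j ≤ m
    swap
    · exact ⟨x', fun h => absurd h hj0, fun h => absurd h hjm, fun h => absurd h hjle⟩
    set t : ℝ := (j : ℝ) / m with ht
    have ht0 : 0 ≤ t := by positivity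
    have ht1 : t ≤ 1 := by
      rw [ht, div_le_one hm0]
      exact_mod_cast hjle
    have hts : ‖t • s‖ ≤ 2 * ρ := by
      rw [norm_smul, Real.norm_of_nonneg ht0]
      have : t * ‖s‖ ≤ 1 * ‖s‖ := mul_le_mul_of_nonneg_right ht1 (norm_nonneg _)
      linarith
    have hlt2 : ‖t • s + 0‖ < r2 := by
      rw [add_zero]
      nlinarith
    obtain ⟨c, hc⟩ := A2 x' (t • s) (Submodule.smul_mem _ _ hs) 0 (Submodule.zero_mem _) hlt2
    rw [add_zero] at hc
    have hc' : ‖S.e c - S.e x' - t • s‖ ≤ 2 * η * ρ := by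
      refine hc.trans ?_
      have : η * ‖t • s‖ ≤ η * (2 * ρ) := mul_le_mul_of_nonneg_left hts hη0.le
      linarith
    have hdc : dist x' c ≤ 4 * ρ := by
      rw [dist_comm, S.isom]
      have h1 := norm_add_le (S.e c - S.e x' - t • s) (t • s)
      rw [sub_add_cancel] at h1
      have : 2 * η * ρ ≤ 1 * ρ := mul_le_mul_of_nonneg_right (by linarith) hρ0
      linarith
    have hdcR : dist x' c ≤ R0 / 2 := by nlinarith
    obtain ⟨z, hz1, hz2⟩ := lp x' c (by linarith)
    have hσd : 9 * S.K * dist x' c ≤ σ := by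
      rw [hσ]
      have : 9 * K * dist x' c ≤ 9 * K * (4 * ρ) :=
        mul_le_mul_of_nonneg_left hdc (by positivity)
      linarith
    have hz1' : S.SRel σ x' z := hz1.mono hσd
    have hz2' : S.URel σ c z := (hz2.mono hσd).symm
    have hσR : σ ≤ R0 := by rw [hσ]; nlinarith
    obtain ⟨sj, hsj, hsj1⟩ := cs _ _ (hz1'.mono (hσR.trans hRc))
    obtain ⟨uj, huj, huj1⟩ := cu _ _ ((S.SRel_symm_sys _ _ _).mpr (hz2'.mono (hσR.trans hRu)))
    change uj ∈ S.Vu c at huj
    change ‖S.e z - S.e c - uj‖ ≤ 2 * η * dist c z at huj1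
    have hd1 : dist x' z ≤ σ := hz1'.dist_le
    have hd2 : dist c z ≤ σ := hz2'.dist_le
    have hsj2 : ‖S.e z - S.e x' - sj‖ ≤ 2 * (η * σ) := by
      refine hsj1.trans ?_
      have : 2 * η * dist x' z ≤ 2 * η * σ := mul_le_mul_of_nonneg_left hd1 (by positivity)
      linarith
    have huj2 : ‖S.e z - S.e c - uj‖ ≤ 2 * (η * σ) := by
      refine huj1.trans ?_
      have : 2 * η * dist c z ≤ 2 * η * σ := mul_le_mul_of_nonneg_left hd2 (by positivity)
      linarith
    have hnuj : ‖uj‖ ≤ 2 * σ := by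
      have e0 : dist c z = ‖S.e z - S.e c‖ := by rw [dist_comm, S.isom]
      have h1 := norm_sub_le (S.e z - S.e c) (S.e z - S.e c - uj)
      rw [sub_sub_cancel, ← e0] at h1
      have : 2 * (η * σ) ≤ 1 * σ := by nlinarith
      linarith
    have hdcx : dist c x' < r3 := by rw [dist_comm]; linarith
    obtain ⟨uj', huj', huj3⟩ := A3 c x' hdcx uj huj
    have huj4 : ‖uj - uj'‖ ≤ 2 * (η * σ) := by
      refine huj3.trans ?_
      have : η * ‖uj‖ ≤ η * (2 * σ) := mul_le_mul_of_nonneg_left hnuj hη0.le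
      linarith
    have hρσ : ρ ≤ σ := by rw [hσ]; nlinarith
    have hc'' : ‖S.e c - S.e x' - t • s‖ ≤ 2 * (η * σ) := by
      refine hc'.trans ?_
      have : η * ρ ≤ η * σ := mul_le_mul_of_nonneg_left hρσ hη0.le
      linarith
    have hsum : ‖(sj - t • s) + (-uj')‖ ≤ 8 * (η * σ) := by
      have e1 : (sj - t • s) + (-uj') = (S.e z - S.e c - uj) + (S.e c - S.e x' - t • s)
          - (S.e z - S.e x' - sj) + (uj - uj') := by abel
      rw [e1]
      have h1 := norm_add_le ((S.e z - S.e c - uj) + (S.e c - S.e x' - t • s)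
          - (S.e z - S.e x' - sj)) (uj - uj')
      have h2 := norm_sub_le ((S.e z - S.e c - uj) + (S.e c - S.e x' - t • s))
          (S.e z - S.e x' - sj)
      have h3 := norm_add_le (S.e z - S.e c - uj) (S.e c - S.e x' - t • s)
      linarith
    have hang := (S.angle x' _ (Submodule.sub_mem _ hsj (Submodule.smul_mem _ t hs)) _
      (Submodule.neg_mem _ huj')).1
    have hsjt : ‖sj - t • s‖ ≤ K * (8 * (η * σ)) :=
      hang.trans (mul_le_mul_of_nonneg_left hsum hK0.le)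
    refine ⟨z, fun h => absurd h hj0, fun h => absurd h hjm, fun _ => ⟨hz1', ?_⟩⟩
    have e1 : S.e z - (S.e x' + t • s) = (S.e z - S.e x' - sj) + (sj - t • s) := by abel
    rw [e1]
    have h1 := norm_add_le (S.e z - S.e x' - sj) (sj - t • s)
    have h2 : 2 * (η * σ) ≤ 2 * (K * (η * σ)) := by
      have : 0 ≤ η * σ := by positivity
      nlinarith
    have h3 : Er = 10 * (K * (η * σ)) := by rw [hEr, hσ]; ring
    rw [h3]
    linarith
  choose c hc0 hcm hcj using hmain
  refine ⟨c, hc0 0 rfl, hcm m rfl, fun i hi => ?_⟩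
  obtain ⟨h1, h2⟩ := hcj i hi.le
  obtain ⟨h3, h4⟩ := hcj (i + 1) hi
  have h5 : S.SRel (2 * σ) (c i) (c (i + 1)) := by
    have := h1.symm.trans h3
    rwa [← two_mul] at this
  have h2σ : 2 * σ ≤ R0 := by rw [hσ]; linarith
  have h6 : dist (c i) (c (i + 1)) ≤ δ := by
    rw [dist_comm, S.isom]
    have e1 : S.e (c (i + 1)) - S.e (c i) =
        (S.e (c (i + 1)) - (S.e x' + (((i + 1 : ℕ) : ℝ) / m) • s))
        - (S.e (c i) - (S.e x' + ((i : ℝ) / m) • s)) + (1 / (m : ℝ)) • s := by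
      have : (((i + 1 : ℕ) : ℝ) / m) • s = ((i : ℝ) / m) • s + (1 / (m : ℝ)) • s := by
        rw [← add_smul]
        congr 1
        push_cast
        ring
      rw [this]
      abel
    rw [e1]
    have h7 := norm_add_le ((S.e (c (i + 1)) - (S.e x' + (((i + 1 : ℕ) : ℝ) / m) • s))
        - (S.e (c i) - (S.e x' + ((i : ℝ) / m) • s))) ((1 / (m : ℝ)) • s)
    have h8 := norm_sub_le (S.e (c (i + 1)) - (S.e x' + (((i + 1 : ℕ) : ℝ) / m) • s))
        (S.e (c i) - (S.e x' + ((i : ℝ) / m) • s))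
    have h9 : ‖(1 / (m : ℝ)) • s‖ ≤ (1 + 2 * η) * (δ / 2) := by
      rw [norm_smul, Real.norm_of_nonneg (by positivity)]
      have h10 : ‖s‖ ≤ (1 + 2 * η) * (m * (δ / 2)) := by
        refine hns.trans (mul_le_mul_of_nonneg_left ?_ (by positivity))
        refine hρδ.trans ?_
        have : 4 * Ls * (δ / 2) ≤ m * (δ / 2) := mul_le_mul_of_nonneg_right hm (by positivity)
        linarith
      calc 1 / (m : ℝ) * ‖s‖ ≤ 1 / (m : ℝ) * ((1 + 2 * η) * (m * (δ / 2))) :=
            mul_le_mul_of_nonneg_left h10 (by positivity)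
        _ = _ := by field_simp
    have h11 : Er ≤ 720 * (K ^ 2 * Ls * (η * δ)) := by
      rw [hEr]
      have : 360 * K ^ 2 * η * ρ ≤ 360 * K ^ 2 * η * (2 * Ls * δ) :=
        mul_le_mul_of_nonneg_left hρδ (by positivity)
      linarith
    have h12 : η * Q * δ = 1 / 2 * δ := by rw [hη2]
    have h13 : η * Q * δ = η * δ + 1440 * (K ^ 2 * Ls * (η * δ)) := by rw [hQ]; ring
    linarith
  intro k
  have h7 := contr _ _ (h5.mono (h2σ.trans hRa)) k
  have h8 : (1 / 8 : ℝ) ^ k ≤ 1 := pow_le_one₀ (by norm_num) (by norm_num)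
  calc _ ≤ (1 / 8 : ℝ) ^ k * dist (c i) (c (i + 1)) := h7
    _ ≤ 1 * δ := mul_le_mul h8 h6 dist_nonneg (by norm_num)
    _ = δ := one_mul _

end HypSys

end Pool.Agent.H721R2
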